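import Pool.Agent.Lib.MP_09393f_co.Defs

/-!
# Arithmetic of the constants; the ladder and the top network are good (MP_09393f_co)
-/

namespace CR

theorem ee_pos (k : ℕ) : 4 ≤ ee k := by unfold ee; omega

theorem S_succ (k n : ℕ) : S k (n + 1) = ee k * S k n := rfl

theorem S_pos (k : ℕ) : ∀ n, 0 < S k n
  | 0 => Nat.one_pos
  | n + 1 => Nat.mul_pos (by have := ee_pos k; omega) (S_pos k n)

theorem lt_S (k n : ℕ) : k < S k (n + 1) := by
  have h1 := S_pos k n
  have h2 : ee k ≤ S k (n + 1) := Nat.le_mul_of_pos_right _ h1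
  unfold ee at h2
  omega

theorem U_eq (k n : ℕ) : U k n = 2 * ((Bd k n + 1) * T k n) + 6 := rfl

theorem T_succ (k n : ℕ) : T k (n + 1) = (Bd k n + 1) * (T k n + 5 * U k n) := rfl

theorem Rr_succ (k n : ℕ) : Rr k (n + 1) = (Bd k n + 1) * T k n := rfl

theorem U_even (k n : ℕ) : Even (U k n) := ⟨(Bd k n + 1) * T k n + 3, by rw [U_eq]; ring⟩

theorem U_ge (k n : ℕ) : 6 ≤ U k n := by rw [U_eq]; omega

theorem BT_lt_U (k n : ℕ) : (Bd k n + 1) * T k n < U k n := by rw [U_eq]; omega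

theorem T_le_BT (k n : ℕ) : T k n ≤ (Bd k n + 1) * T k n :=
  Nat.le_mul_of_pos_left _ (by omega)

theorem T_lt_U (k n : ℕ) : T k n < U k n := (T_le_BT k n).trans_lt (BT_lt_U k n)

theorem U_le_T_succ (k n : ℕ) : 5 * U k n ≤ T k (n + 1) := by
  rw [T_succ]
  exact (Nat.le_add_left _ _).trans (Nat.le_mul_of_pos_left _ (by omega))

theorem T_le_T_succ (k n : ℕ) : T k n + 5 * U k n ≤ T k (n + 1) := by
  rw [T_succ]
  exact Nat.le_mul_of_pos_left _ (by omega)

theorem U_lt_U_succ (k n : ℕ) : U k n < U k (n + 1) := by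
  have h1 := U_le_T_succ k n
  have h2 := T_lt_U k (n + 1)
  omega

theorem Ln_lt_U (k n : ℕ) : Ln k n < U k n := by
  cases n with
  | zero => have := U_ge k 0; simp only [Ln]; omega
  | succ n => exact U_lt_U_succ k n

theorem Rr_lt_U (k n : ℕ) : Rr k n < U k n := by
  cases n with
  | zero => have := U_ge k 0; simp only [Rr]; omega
  | succ n => rw [Rr_succ]; exact (BT_lt_U k n).trans (U_lt_U_succ k n)

theorem Rr_le_succ (k n : ℕ) : Rr k n ≤ Rr k (n + 1) := by
  cases n with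
  | zero => simp [Rr]
  | succ n =>
    have h1 := BT_lt_U k n
    have h2 := U_le_T_succ k n
    have h3 := T_le_BT k (n + 1)
    rw [Rr_succ, Rr_succ]
    omega

theorem J_ge (k n : ℕ) : 4 * S k (n + 1) + 12 ≤ J k n := by
  have := ee_pos k
  unfold J
  omega

theorem ladder_len_ge (k n : ℕ) (c : (ladder k n).C) : U k n ≤ (ladder k n).len c := by
  obtain ⟨c, j⟩ := c
  cases c <;> simp only [ladder, Cn.mul] <;> omega

theorem ladder_len_le (k n : ℕ) (c : (ladder k n).C) : (ladder k n).len c ≤ 5 * U k n := by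
  obtain ⟨c, j⟩ := c
  cases c <;> simp only [ladder, Cn.mul] <;> omega

theorem ladder_good (k n : ℕ) : (ladder k n).Good where
  len_ge c _ := by
    have h1 := ladder_len_ge k n c
    have h2 := U_ge k n
    omega
  act_src := by
    rintro ⟨c, j⟩ h
    have := J_ge k n
    cases c <;> simp only [ladder, Cn.okAt] at h ⊢ <;> omega
  act_tgt := by
    rintro ⟨c, j⟩ h
    have := J_ge k n
    cases c <;> simp only [ladder, Cn.okAt, Cn.dj] at h ⊢ <;> omega
  srcS_lt := by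
    rintro ⟨c, j⟩ _
    cases c <;> simp [ladder, Cn.srcS]
  tgtS_lt := by
    rintro ⟨c, j⟩ _
    cases c <;> simp [ladder, Cn.tgtS]
  src_inj := by
    rintro ⟨c, j⟩ ⟨c', j'⟩ _ _ h1 h2
    cases c <;> cases c' <;> simp_all [ladder, Cn.srcS, Cn.srcK]
  tgt_inj := by
    rintro ⟨c, j⟩ ⟨c', j'⟩ _ _ h1 h2
    cases c <;> cases c' <;> simp_all [ladder, Cn.tgtS, Cn.tgtK, Cn.dj]

theorem topNet_good {Λ : ℕ} (hΛ : 2 ≤ Λ) : (topNet Λ).Good where
  len_ge _ _ := hΛ
  act_src _ _ := trivial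
  act_tgt _ _ := trivial
  srcS_lt _ h := h
  tgtS_lt c _ := by simp only [topNet]; omega
  src_inj := by
    rintro ⟨β, s⟩ ⟨β', s'⟩ _ _ h1 h2
    simp_all [topNet]
  tgt_inj := by
    rintro ⟨β, s⟩ ⟨β', s'⟩ h h' h1 h2
    simp only [topNet] at h h' h1 h2
    have h3 : β = β' := by simpa using h1
    have h4 : s = s' := by omega
    rw [h3, h4]

end CR
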