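import Pool.Agent.Lib.MP_09393f_co.Game
import Pool.Agent.Lib.MP_09393f_co.Basic

section

/-!
# Making a digraph Eulerian by parallel paths of length two: definitions (MP_09393f_co)
-/

namespace CR

/-- the new vertices: for every arc `uv` the numbers `0, …, m u v - 2` -/
def EVert {V : Type} (A : V → V → Prop) (m : V → V → ℕ) : Type :=
  {q : V × V × ℕ // A q.1 q.2.1 ∧ q.2.2 + 1 < m q.1 q.2.1}

/-- the arcs of the new digraph -/
def EAdj {V : Type} (A : V → V → Prop) (m : V → V → ℕ) : V ⊕ EVert A m → V ⊕ EVert A m → Prop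
  | Sum.inl u, Sum.inl v => A u v
  | Sum.inl u, Sum.inr q => u = q.1.1
  | Sum.inr q, Sum.inl v => v = q.1.2.1
  | Sum.inr _, Sum.inr _ => False

/-- the retraction: a new vertex on `u → w → v` is sent to `u` -/
def eRet {V : Type} {A : V → V → Prop} {m : V → V → ℕ} : V ⊕ EVert A m → V
  | Sum.inl v => v
  | Sum.inr q => q.1.1

end CR
end

section

/-!
# Book embedding of the networks: definitions (MP_09393f_co)

The spine is divided into blocks of width `W`; a node of a network occupies one block, every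
connection has two gap groups, `g1` (it contains for every strand a run of consecutive points)
and `g2` (one point for every strand). A strand goes up from its out-terminal to its run in
`g1`, follows the run, goes down to its point in `g2`, and up to its in-terminal.
-/

namespace CR

/-- two intervals cross (in this order) -/
def Crs (a b c d : ℕ) : Prop := min a b < min c d ∧ min c d < max a b ∧ max a b < max c d

/-- vertices which may carry arcs -/
def RealN (N : Net) (m : ℕ) {T : Type} (Rl : T → Prop) : NV N T → Prop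
  | Sum.inl (x, v) => N.act x ∧ Rl v
  | Sum.inr (c, τ, p) => N.ok c ∧ τ < m ∧ p + 1 < N.len c

def Real (k : ℕ) : (n : ℕ) → VT k n → Prop
  | 0 => fun _ => True
  | n + 1 => RealN (ladder k n) (S k n) (Real k n)

/-- layout data of a network -/
structure Lay (N : Net) where
  nb : N.X → ℕ
  g1 : N.C → ℕ
  g2 : N.C → ℕ
  i1 : N.C → ℕ → ℕ
  i2 : N.C → ℕ → ℕ

/-- positions on the spine -/
def posN (N : Net) (Y : Lay N) (W L : ℕ) {T : Type} (pos : T → ℕ) : NV N T → ℕ
  | Sum.inl (x, v) => Y.nb x * W + pos v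
  | Sum.inr (c, τ, p) =>
      if p + 2 < N.len c then Y.g1 c * W + Y.i1 c τ * L + p else Y.g2 c * W + Y.i2 c τ * L

/-- pages -/
def pageN (N : Net) {T : Type} (page : T → T → Bool) : NV N T → NV N T → Bool
  | Sum.inl (_, u), Sum.inl (_, v) => page u v
  | Sum.inr _, Sum.inr (c, _, p) => decide (p + 2 < N.len c)
  | Sum.inl _, Sum.inr _ => true
  | Sum.inr _, Sum.inl _ => true

/-- consistency of a layout: `m` strands per side, `B` blocks, blocks of width `W`,
runs of length `L`, modules of width `w` -/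
structure Lay.OK {N : Net} (Y : Lay N) (m B W L w : ℕ) : Prop where
  nb_inj : ∀ x x', N.act x → N.act x' → Y.nb x = Y.nb x' → x = x'
  nb_g1 : ∀ x c, N.act x → N.ok c → Y.nb x ≠ Y.g1 c
  nb_g2 : ∀ x c, N.act x → N.ok c → Y.nb x ≠ Y.g2 c
  g12 : ∀ c c', N.ok c → N.ok c' → Y.g1 c ≠ Y.g2 c'
  g1_inj : ∀ c c' τ τ', N.ok c → N.ok c' → τ < m → τ' < m → Y.g1 c = Y.g1 c' →
    Y.i1 c τ = Y.i1 c' τ' → c = c' ∧ τ = τ'
  g2_inj : ∀ c c' τ τ', N.ok c → N.ok c' → τ < m → τ' < m → Y.g2 c = Y.g2 c' →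
    Y.i2 c τ = Y.i2 c' τ' → c = c' ∧ τ = τ'
  i1_le : ∀ c τ, N.ok c → τ < m → Y.i1 c τ * L + L ≤ W
  i2_le : ∀ c τ, N.ok c → τ < m → Y.i2 c τ * L + L ≤ W
  len_le : ∀ c, N.ok c → N.len c ≤ L
  len_ge : ∀ c, N.ok c → 3 ≤ N.len c
  w_le : w ≤ W
  nb_lt : ∀ x, N.act x → Y.nb x < B
  g1_lt : ∀ c, N.ok c → Y.g1 c < B
  g2_lt : ∀ c, N.ok c → Y.g2 c < B

/-- a certificate: positions below `w`, injective, no crossings -/
structure Cert {T : Type} (Rl : T → Prop) (A : T → T → Prop) (pos : T → ℕ)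
    (page : T → T → Bool) (w : ℕ) : Prop where
  lt : ∀ v, Rl v → pos v < w
  inj : ∀ u v, Rl u → Rl v → pos u = pos v → u = v
  real : ∀ u v, A u v → Rl u ∧ Rl v
  nc : ∀ u v x y, A u v → A x y → page u v = page x y →
    ¬ Crs (pos u) (pos v) (pos x) (pos y)

/-- order and visibility (from above) of the terminals -/
structure TermOrd (k n : ℕ) (pos : VT k n → ℕ) (page : VT k n → VT k n → Bool) : Prop where
  rin : ∀ i < 4, ∀ σ < S k n, Real k n (inT k n i σ)
  rout : ∀ s < 3, ∀ τ < S k n, Real k n (outT k n s τ)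
  ii : ∀ i < 4, ∀ i' < 4, ∀ σ < S k n, ∀ σ' < S k n, i < i' →
    pos (inT k n i σ) ≤ pos (inT k n i' σ')
  i1 : ∀ i < 4, ∀ σ' < S k n, ∀ σ < σ', pos (inT k n i σ) < pos (inT k n i σ')
  oo : ∀ s < 3, ∀ s' < 3, ∀ τ < S k n, ∀ τ' < S k n, s < s' →
    pos (outT k n s τ) ≤ pos (outT k n s' τ')
  o1 : ∀ s < 3, ∀ τ' < S k n, ∀ τ < τ', pos (outT k n s τ) < pos (outT k n s τ')
  io : ∀ i < 4, ∀ σ < S k n, ∀ s < 3, ∀ τ < S k n, pos (inT k n i σ) ≤ pos (outT k n s τ)
  vin : ∀ u v, Adj k n u v → page u v = true → ∀ i < 4, ∀ σ < S k n,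
    ¬ (min (pos u) (pos v) < pos (inT k n i σ) ∧ pos (inT k n i σ) < max (pos u) (pos v))
  vout : ∀ u v, Adj k n u v → page u v = true → ∀ s < 3, ∀ τ < S k n,
    ¬ (min (pos u) (pos v) < pos (outT k n s τ) ∧ pos (outT k n s τ) < max (pos u) (pos v))

/-- the long arcs above the spine of a network -/
def UpSeg (k n : ℕ) (N : Net) (Y : Lay N) (W L : ℕ) (pos : VT k n → ℕ) (a b : ℕ) : Prop :=
  ∃ c τ, N.ok c ∧ τ < S k n ∧
    ((a = Y.nb (N.src c) * W + pos (outT k n (N.srcS c) τ) ∧ b = Y.g1 c * W + Y.i1 c τ * L) ∨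
      (a = Y.g2 c * W + Y.i2 c τ * L ∧
        b = Y.nb (N.tgt c) * W + pos (inT k n (N.tgtS c) (S k n - 1 - τ))))

/-- the long arcs below the spine of a network -/
def DnSeg (k n : ℕ) (N : Net) (Y : Lay N) (W L : ℕ) (a b : ℕ) : Prop :=
  ∃ c τ, N.ok c ∧ τ < S k n ∧
    a = Y.g1 c * W + Y.i1 c τ * L + (N.len c - 3) ∧ b = Y.g2 c * W + Y.i2 c τ * L

/-! ### The ladder -/

def kcode : Kind → ℕ
  | .a => 0 | .b => 4 | .E => 8
def g1code : Cn → ℕ
  | .A => 2 | .B => 1 | .C => 6 | .D => 5 | .Er => 10 | .El => 9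
def g2code : Cn → ℕ
  | .A => 3 | .B => 14 | .C => 12 | .D => 13 | .Er => 11 | .El => 7

def ladLay (k n : ℕ) : Lay (ladder k n) where
  nb x := 15 * x.1 + kcode x.2
  g1 c := 15 * c.2 + g1code c.1
  g2 c := 15 * c.2 + g2code c.1
  i1 _ τ := S k n - 1 - τ
  i2 _ τ := τ

/-- width of the drawing of `M_n` -/
def wd (k : ℕ) : ℕ → ℕ
  | 0 => 1
  | n + 1 => 15 * J k n * (wd k n + S k n * (5 * U k n))

/-- width of the blocks of `M_{n+1}` -/
def Wd (k n : ℕ) : ℕ := wd k n + S k n * (5 * U k n)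

/-- position of the vertices of `M_n` -/
def pos (k : ℕ) : (n : ℕ) → VT k n → ℕ
  | 0 => fun _ => 0
  | n + 1 => posN (ladder k n) (ladLay k n) (Wd k n) (5 * U k n) (pos k n)

/-- page of the arcs of `M_n` -/
def page (k : ℕ) : (n : ℕ) → VT k n → VT k n → Bool
  | 0 => fun _ _ => true
  | n + 1 => pageN (ladder k n) (page k n)

/-! ### The top network -/

def topLay (k N Λ : ℕ) : Lay (topNet Λ) where
  nb := fun β : Bool => if β then 4 else 1
  g1 := fun c : Bool × ℕ => if c.1 then 5 else 2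
  g2 := fun c : Bool × ℕ => if c.1 then 0 else 3
  i1 := fun (c : Bool × ℕ) τ => 3 * S k N - 1 - (c.2 * S k N + τ)
  i2 := fun (c : Bool × ℕ) τ => c.2 * S k N + τ

/-- width of the blocks of the top network -/
def WTop (k N Λ : ℕ) : ℕ := wd k N + 3 * S k N * Λ

def posTop (k N Λ : ℕ) : VTop k N Λ → ℕ :=
  posN (topNet Λ) (topLay k N Λ) (WTop k N Λ) Λ (pos k N)

def pageTop (k N Λ : ℕ) : VTop k N Λ → VTop k N Λ → Bool := pageN (topNet Λ) (page k N)

def RealTop (k N Λ : ℕ) : VTop k N Λ → Prop := RealN (topNet Λ) (S k N) (Real k N)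

/-- comparison of positions in blocks -/
theorem blk_lt {W m m' x x' : ℕ} (hx : x < W) (hx' : x' < W) :
    m * W + x < m' * W + x' ↔ m < m' ∨ (m = m' ∧ x < x') := by
  rcases lt_trichotomy m m' with h | rfl | h
  · have : (m + 1) * W ≤ m' * W := Nat.mul_le_mul_right _ h
    constructor
    · intro _; exact Or.inl h
    · intro _; nlinarith
  · constructor
    · intro hh; exact Or.inr ⟨rfl, by omega⟩
    · intro hh; omega
  · have : (m' + 1) * W ≤ m * W := Nat.mul_le_mul_right _ h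
    constructor
    · intro hh; nlinarith
    · intro hh; omega

theorem blk_eq {W m m' x x' : ℕ} (hx : x < W) (hx' : x' < W) :
    m * W + x = m' * W + x' ↔ m = m' ∧ x = x' := by
  constructor
  · intro h
    have h1 := (not_congr (blk_lt (m := m) (m' := m') hx hx')).1 (by omega)
    have h2 := (not_congr (blk_lt (m := m') (m' := m) hx' hx)).1 (by omega)
    omega
  · rintro ⟨rfl, rfl⟩; rfl

end CR
end

section

/-!
# Terminals and private parts of `M_n` (MP_09393f_co)
-/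

namespace CR

variable {k n : ℕ}

theorem Adj_zero (k : ℕ) (u v : VT k 0) : ¬ Adj k 0 u v := fun h => h

theorem Term_tgt_ne_E (k n : ℕ) (c : (ladder k n).C) : ((ladder k n).tgt c).2 ≠ Kind.E := by
  obtain ⟨c, j⟩ := c
  cases c <;> simp [ladder, Cn.tgtK]

/-- no arc from a strand into a node of kind `E` -/
theorem Term_no_inr_E (k n : ℕ) (c : (ladder k n).C) (τ p a : ℕ) (v : VT k n) :
    ¬ Adj k (n + 1) (Sum.inr (c, τ, p)) (Sum.inl ((a, Kind.E), v)) := by
  intro h
  obtain ⟨_, _, _, h4, _⟩ := h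
  have h5 := congrArg Prod.snd h4
  exact Term_tgt_ne_E k n c h5.symm

/-- an in-terminal of `M_{n+1}` is not entered inside `M_{n+1}` -/
theorem inT_no_in (k n i σ : ℕ) (u : VT k (n + 1)) : ¬ Adj k (n + 1) u (inT k (n + 1) i σ) := by
  induction n generalizing i σ with
  | zero =>
    rcases u with ⟨x, u⟩ | ⟨c, τ, p⟩
    · intro h
      exact h.2.2
    · exact Term_no_inr_E k 0 c τ p _ _
  | succ n ih =>
    rcases u with ⟨x, u⟩ | ⟨c, τ, p⟩
    · intro h
      exact ih 0 0 u h.2.2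
    · exact Term_no_inr_E k (n + 1) c τ p _ _

theorem Adj_asymm (k n : ℕ) (u v : VT k n) (h : Adj k n u v) : ¬ Adj k n v u := by
  induction n with
  | zero => exact fun h' => h'
  | succ n ih =>
    intro h'
    have hU := U_ge k n
    rcases u with ⟨x, u⟩ | ⟨c, τ, p⟩ <;> rcases v with ⟨y, v⟩ | ⟨c', τ', p'⟩
    · exact ih u v h.2.2 h'.2.2
    · have h1 : p' = 0 := h.2.2.1
      have h2 : p' + 2 = (ladder k n).len c' := h'.2.2.1
      have h3 := ladder_len_ge k n c'
      omega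
    · have h1 : p = 0 := h'.2.2.1
      have h2 : p + 2 = (ladder k n).len c := h.2.2.1
      have h3 := ladder_len_ge k n c
      omega
    · have h1 : p' = p + 1 := h.2.2.2.2.1
      have h2 : p = p' + 1 := h'.2.2.2.2.1
      omega

/-- `Priv` is closed under in-arcs -/
theorem Priv_closed {i σ : ℕ} {u v : VT k n} (h : Adj k n u v) (hv : v ∈ Priv k n i σ) :
    u ∈ Priv k n i σ := by
  cases n with
  | zero => exact absurd h (Adj_zero k u v)
  | succ n =>
    obtain ⟨v', rfl⟩ := hv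
    rcases u with ⟨x, u⟩ | ⟨c, τ, p⟩
    · have h1 : x = (i * S k (n + 1) + σ, Kind.E) := h.1
      subst h1
      exact ⟨u, rfl⟩
    · exact absurd h (Term_no_inr_E k n c τ p _ _)

theorem inT_mem_Priv (k n i σ : ℕ) : inT k (n + 1) i σ ∈ Priv k (n + 1) i σ := ⟨_, rfl⟩

theorem Term_divmod {s i σ i' σ' : ℕ} (hσ : σ < s) (hσ' : σ' < s)
    (h : i * s + σ = i' * s + σ') : i = i' ∧ σ = σ' := by
  have hs : 0 < s := by omega
  have h1 : (i * s + σ) / s = i := by
    rw [Nat.add_comm, Nat.add_mul_div_right _ _ hs, Nat.div_eq_of_lt hσ, Nat.zero_add]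
  have h2 : (i' * s + σ') / s = i' := by
    rw [Nat.add_comm, Nat.add_mul_div_right _ _ hs, Nat.div_eq_of_lt hσ', Nat.zero_add]
  have h3 : i = i' := by rw [← h1, ← h2, h]
  subst h3
  exact ⟨rfl, by omega⟩

theorem inT_inj {i σ i' σ' : ℕ} (hσ : σ < S k (n + 1)) (hσ' : σ' < S k (n + 1))
    (h : inT k (n + 1) i σ = inT k (n + 1) i' σ') : i = i' ∧ σ = σ' := by
  have h1 : (((i * S k (n + 1) + σ, Kind.E), inT k n 0 0) : (ladder k n).X × VT k n) =
      ((i' * S k (n + 1) + σ', Kind.E), inT k n 0 0) := Sum.inl_injective h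
  have h2 := congrArg (fun z : (ladder k n).X × VT k n => z.1.1) h1
  exact Term_divmod hσ hσ' h2

theorem inT_Priv {i σ i' σ' : ℕ} (hσ : σ < S k n) (hσ' : σ' < S k n)
    (h : inT k n i σ ∈ Priv k n i' σ') : i = i' ∧ σ = σ' := by
  cases n with
  | zero => exact absurd h (Set.notMem_empty _)
  | succ n =>
    obtain ⟨v, hv⟩ := h
    have h1 : (((i * S k (n + 1) + σ, Kind.E), inT k n 0 0) : (ladder k n).X × VT k n) =
        ((i' * S k (n + 1) + σ', Kind.E), v) := Sum.inl_injective hv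
    have h2 := congrArg (fun z : (ladder k n).X × VT k n => z.1.1) h1
    exact Term_divmod hσ hσ' h2

theorem Priv_disj {i σ i' σ' : ℕ} (hσ : σ < S k n) (hσ' : σ' < S k n)
    (h : i ≠ i' ∨ σ ≠ σ') : Disjoint (Priv k n i σ) (Priv k n i' σ') := by
  cases n with
  | zero => exact Set.disjoint_left.2 fun x hx => absurd hx (Set.notMem_empty _)
  | succ n =>
    rw [Set.disjoint_left]
    rintro w ⟨v, rfl⟩ ⟨v', hv⟩
    have h1 : (((i * S k (n + 1) + σ, Kind.E), v) : (ladder k n).X × VT k n) =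
        ((i' * S k (n + 1) + σ', Kind.E), v') := Sum.inl_injective hv
    have h2 := congrArg (fun z : (ladder k n).X × VT k n => z.1.1) h1
    obtain ⟨h3, h4⟩ := Term_divmod hσ hσ' h2
    rcases h with h | h
    · exact h h3
    · exact h h4

end CR
end

section

section

/-!
# Walking along strands of an embedded network (MP_09393f_co)
-/

namespace CR

variable {k n : ℕ} {N : Net} {V : Type} {A : V → V → Prop} {φ : NV N (VT k n) → V}
  {Z : N.X → ℕ → ℕ → Set V}

/-- the in-neighbours of an inner vertex of a strand -/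
theorem Strand_in (h : NetEmb k n N A φ Z) {c : N.C} {τ p : ℕ} {v : V}
    (hv : A v (φ (Sum.inr (c, τ, p)))) :
    (p = 0 ∧ v = φ (Sum.inl (N.src c, outT k n (N.srcS c) τ))) ∨
      ∃ p', p = p' + 1 ∧ v = φ (Sum.inr (c, τ, p')) := by
  by_cases hr : v ∈ Set.range φ
  · obtain ⟨v', rfl⟩ := hr
    rw [h.adj] at hv
    rcases v' with ⟨x, u⟩ | ⟨c', τ', p'⟩
    · obtain ⟨_, _, h3, h4, h5⟩ := hv
      subst h4 h5
      exact Or.inl ⟨h3, rfl⟩
    · obtain ⟨_, _, h3, h4, h5, _⟩ := hv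
      subst h3 h4
      exact Or.inr ⟨p', h5, rfl⟩
  · obtain ⟨x, _, _, h3⟩ := h.into _ _ hv hr
    exact absurd h3 (by simp)

/-- who can reach an inner vertex of a strand -/
theorem strand_back (hN : N.Good) (h : NetEmb k n N A φ Z) {c : N.C} (hc : N.ok c) {τ : ℕ}
    (hτ : τ < S k n) : ∀ (t p : ℕ) (y : V), p + 1 < N.len c →
      R A t y (φ (Sum.inr (c, τ, p))) →
      (∃ q ≤ p, p ≤ q + t ∧ y = φ (Sum.inr (c, τ, q))) ∨
        ∃ t', t' + (p + 1) ≤ t ∧ R A t' y (φ (Sum.inl (N.src c, outT k n (N.srcS c) τ))) := by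
  intro t
  induction t with
  | zero =>
    intro p y _ hR
    exact Or.inl ⟨p, le_rfl, le_rfl, hR⟩
  | succ t ih =>
    intro p y hp hR
    obtain ⟨v, hyv, hv⟩ := R_succ_right_iff.1 hR
    rcases hv with hv | hv
    · rw [← hv] at hyv
      rcases ih p y hp hyv with ⟨q, h1, h2, h3⟩ | ⟨t', h1, h2⟩
      · exact Or.inl ⟨q, h1, by omega, h3⟩
      · exact Or.inr ⟨t', by omega, h2⟩
    · rcases Strand_in h hv with ⟨h1, h2⟩ | ⟨p', h1, h2⟩
      · rw [h2] at hyv
        exact Or.inr ⟨t, by omega, hyv⟩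
      · rw [h2] at hyv
        rcases ih p' y (by omega) hyv with ⟨q, h3, h4, h5⟩ | ⟨t', h3, h4⟩
        · exact Or.inl ⟨q, by omega, by omega, h5⟩
        · exact Or.inr ⟨t', by omega, h4⟩

/-- from an inner vertex of a strand there is only one way -/
theorem strand_fwd (hN : N.Good) (h : NetEmb k n N A φ Z) {c : N.C} (hc : N.ok c) {τ : ℕ}
    (hτ : τ < S k n) : ∀ (m p : ℕ) (w : V), p + 1 < N.len c →
      R A m (φ (Sum.inr (c, τ, p))) w →
      (∃ q, q + 1 < N.len c ∧ w = φ (Sum.inr (c, τ, q))) ∨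
        ∃ m', m' + 1 ≤ m ∧
          R A m' (φ (Sum.inl (N.tgt c, inT k n (N.tgtS c) (S k n - 1 - τ)))) w := by
  intro m
  induction m with
  | zero =>
    intro p w hp hR
    have hR' : φ (Sum.inr (c, τ, p)) = w := hR
    exact Or.inl ⟨p, hp, hR'.symm⟩
  | succ m ih =>
    intro p w hp hR
    obtain ⟨v, hv, hvw⟩ := hR
    rcases hv with hv | hv
    · subst hv
      rcases ih p w hp hvw with ⟨q, h1, h2⟩ | ⟨m', h1, h2⟩
      · exact Or.inl ⟨q, h1, h2⟩
      · exact Or.inr ⟨m', by omega, h2⟩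
    · by_cases hr : v ∈ Set.range φ
      · obtain ⟨v', rfl⟩ := hr
        rw [h.adj] at hv
        rcases v' with ⟨x, u⟩ | ⟨c', τ', p'⟩
        · obtain ⟨_, _, _, h4, h5⟩ := hv
          subst h4 h5
          exact Or.inr ⟨m, le_rfl, hvw⟩
        · obtain ⟨_, _, h3, h4, h5, h6⟩ := hv
          subst h3 h4
          rcases ih p' w h6 hvw with ⟨q, h1, h2⟩ | ⟨m', h1, h2⟩
          · exact Or.inl ⟨q, h1, h2⟩
          · exact Or.inr ⟨m', by omega, h2⟩
      · obtain ⟨x, _, s, _, _, τ', _, h3, _⟩ := h.out _ _ hv hr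
        exact absurd h3 (by simp)

/-- the vertices of a strand including its two ends -/
def strandPath (k n : ℕ) (N : Net) {V : Type} (φ : NV N (VT k n) → V) (c : N.C) (τ q : ℕ) : V :=
  if q = 0 then φ (Sum.inl (N.src c, outT k n (N.srcS c) τ))
  else if q < N.len c then φ (Sum.inr (c, τ, q - 1))
  else φ (Sum.inl (N.tgt c, inT k n (N.tgtS c) (S k n - 1 - τ)))

theorem strandPath_step (hN : N.Good) (h : NetEmb k n N A φ Z) {c : N.C} (hc : N.ok c) {τ : ℕ}
    (hτ : τ < S k n) : ∀ q < N.len c,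
      A (strandPath k n N φ c τ q) (strandPath k n N φ c τ (q + 1)) := by
  intro q hq
  have hL := hN.len_ge c hc
  rcases Nat.eq_zero_or_pos q with rfl | hq0
  · have h1 : strandPath k n N φ c τ 0 = φ (Sum.inl (N.src c, outT k n (N.srcS c) τ)) :=
      if_pos rfl
    have h2 : strandPath k n N φ c τ (0 + 1) = φ (Sum.inr (c, τ, 0)) := by
      unfold strandPath
      rw [if_neg (by omega), if_pos (by omega)]
    rw [h1, h2, h.adj]
    exact ⟨hc, hτ, rfl, rfl, rfl⟩
  · have h1 : strandPath k n N φ c τ q = φ (Sum.inr (c, τ, q - 1)) := by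
      unfold strandPath
      rw [if_neg (by omega), if_pos hq]
    rcases Nat.lt_or_ge (q + 1) (N.len c) with hq1 | hq1
    · have h2 : strandPath k n N φ c τ (q + 1) = φ (Sum.inr (c, τ, q)) := by
        unfold strandPath
        rw [if_neg (by omega), if_pos hq1]
        rfl
      rw [h1, h2, h.adj]
      exact ⟨hc, hτ, rfl, rfl, by omega, hq1⟩
    · have h2 : strandPath k n N φ c τ (q + 1) =
          φ (Sum.inl (N.tgt c, inT k n (N.tgtS c) (S k n - 1 - τ))) := by
        unfold strandPath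
        rw [if_neg (by omega), if_neg (by omega)]
      rw [h1, h2, h.adj]
      exact ⟨hc, hτ, by omega, rfl, rfl⟩

end CR
end

section

/-!
# Who reaches the end of a strand (MP_09393f_co)
-/

namespace CR

variable {k n : ℕ} {N : Net} {V : Type} {A : V → V → Prop} {φ : NV N (VT k n) → V}
  {Z : N.X → ℕ → ℕ → Set V}

/-- who can reach the private part behind the end of a strand -/
theorem priv_back (hN : N.Good) (h : NetEmb k n N A φ Z) {c : N.C} (hc : N.ok c) {τ : ℕ}
    (hτ : τ < S k n) : ∀ (t : ℕ) (y : V) (v : VT k n),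
      v ∈ Priv k n (N.tgtS c) (S k n - 1 - τ) → R A t y (φ (Sum.inl (N.tgt c, v))) →
      (∃ v' ∈ Priv k n (N.tgtS c) (S k n - 1 - τ), y = φ (Sum.inl (N.tgt c, v'))) ∨
      (∃ q, q + 1 < N.len c ∧ y = φ (Sum.inr (c, τ, q))) ∨
        ∃ t', t' + N.len c ≤ t ∧
          R A t' y (φ (Sum.inl (N.src c, outT k n (N.srcS c) τ))) := by
  intro t
  induction t with
  | zero =>
    intro y v hv hR
    exact Or.inl ⟨v, hv, hR⟩
  | succ t ih =>
    intro y v hv hR
    obtain ⟨w, hw, hs⟩ := R_succ_right_iff.1 hR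
    have up : ((∃ v' ∈ Priv k n (N.tgtS c) (S k n - 1 - τ), y = φ (Sum.inl (N.tgt c, v'))) ∨
      (∃ q, q + 1 < N.len c ∧ y = φ (Sum.inr (c, τ, q))) ∨
        ∃ t', t' + N.len c ≤ t ∧
          R A t' y (φ (Sum.inl (N.src c, outT k n (N.srcS c) τ)))) →
        ((∃ v' ∈ Priv k n (N.tgtS c) (S k n - 1 - τ), y = φ (Sum.inl (N.tgt c, v'))) ∨
      (∃ q, q + 1 < N.len c ∧ y = φ (Sum.inr (c, τ, q))) ∨
        ∃ t', t' + N.len c ≤ t + 1 ∧
          R A t' y (φ (Sum.inl (N.src c, outT k n (N.srcS c) τ)))) := by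
      rintro (h1 | h1 | ⟨t', h1, h2⟩)
      · exact Or.inl h1
      · exact Or.inr (Or.inl h1)
      · exact Or.inr (Or.inr ⟨t', by omega, h2⟩)
    rcases hs with hs | hs
    · rw [← hs] at hw
      exact up (ih y v hv hw)
    · by_cases hr : w ∈ Set.range φ
      · obtain ⟨w', rfl⟩ := hr
        have ha := (h.adj w' _).1 hs
        rcases w' with ⟨x, u⟩ | ⟨c', τ', p'⟩
        · obtain ⟨h1, _, h3⟩ := ha
          subst h1
          exact up (ih y u (Priv_closed h3 hv) hw)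
        · obtain ⟨h1, h2, h3, h4, h5⟩ := ha
          rw [h5] at hv
          obtain ⟨e1, e2⟩ := inT_Priv (by omega) (by omega) hv
          have e3 : c' = c := hN.tgt_inj c' c h1 hc h4.symm e1
          subst e3
          have e4 : τ' = τ := by omega
          subst e4
          rcases strand_back hN h hc hτ t p' y (by omega) hw with ⟨q, hq, _, hy⟩ | ⟨t', ht', hy⟩
          · exact Or.inr (Or.inl ⟨q, by omega, hy⟩)
          · exact Or.inr (Or.inr ⟨t', by omega, hy⟩)
      · obtain ⟨x, _, h2, h3⟩ := h.into w _ hs hr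
        have h4 : N.tgt c = x := congrArg Prod.fst (Sum.inl.inj h3)
        exact absurd h4 (h2 c hc)

/-- the arcs into an in-terminal of a copy of `M_{n+1}` -/
theorem inT_in (hN : N.Good) {φ : NV N (VT k (n + 1)) → V} {Z : N.X → ℕ → ℕ → Set V}
    (h : NetEmb k (n + 1) N A φ Z)
    {x : N.X} {i σ : ℕ} (hσ : σ < S k (n + 1)) {w : V}
    (hw : A w (φ (Sum.inl (x, inT k (n + 1) i σ)))) :
    (∃ c τ, N.ok c ∧ τ < S k (n + 1) ∧ N.tgt c = x ∧ N.tgtS c = i ∧
      S k (n + 1) - 1 - τ = σ ∧ w = φ (Sum.inr (c, τ, N.len c - 2))) ∨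
    (w ∉ Set.range φ ∧ (∀ c, N.ok c → N.tgt c ≠ x) ∧
      inT k (n + 1) i σ = inT k (n + 1) 0 0) := by
  by_cases hr : w ∈ Set.range φ
  · left
    obtain ⟨w', rfl⟩ := hr
    have ha := (h.adj w' _).1 hw
    rcases w' with ⟨x', u⟩ | ⟨c', τ', p'⟩
    · obtain ⟨_, _, h3⟩ := ha
      exact absurd h3 (inT_no_in k n i σ u)
    · obtain ⟨h1, h2, h3, h4, h5⟩ := ha
      obtain ⟨e1, e2⟩ := inT_inj hσ (by omega) h5
      refine ⟨c', τ', h1, h2, h4.symm, e1.symm, e2.symm, ?_⟩
      have e3 : p' = N.len c' - 2 := by omega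
      rw [e3]
  · right
    obtain ⟨x', _, h2, h3⟩ := h.into w _ hw hr
    have h4 := Sum.inl.inj h3
    have h5 : x = x' := congrArg Prod.fst h4
    have h6 : inT k (n + 1) i σ = inT k (n + 1) 0 0 := congrArg Prod.snd h4
    exact ⟨hr, fun c hc => by rw [h5]; exact h2 c hc, h6⟩

/-- who can reach the in-terminal at the end of a strand (`n + 1 ≥ 1`) -/
theorem inT_back (hN : N.Good) {φ : NV N (VT k (n + 1)) → V} {Z : N.X → ℕ → ℕ → Set V}
    (h : NetEmb k (n + 1) N A φ Z)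
    {c : N.C} (hc : N.ok c) {τ : ℕ} (hτ : τ < S k (n + 1)) (t : ℕ) (y : V)
    (hR : R A t y (φ (Sum.inl (N.tgt c,
      inT k (n + 1) (N.tgtS c) (S k (n + 1) - 1 - τ))))) :
    y = φ (Sum.inl (N.tgt c, inT k (n + 1) (N.tgtS c) (S k (n + 1) - 1 - τ))) ∨
    (∃ q, q + 1 < N.len c ∧ N.len c ≤ q + 1 + t ∧ y = φ (Sum.inr (c, τ, q))) ∨
      ∃ t', t' + N.len c ≤ t ∧
        R A t' y (φ (Sum.inl (N.src c, outT k (n + 1) (N.srcS c) τ))) := by
  induction t with
  | zero => exact Or.inl hR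
  | succ t ih =>
    obtain ⟨w, hw, hs⟩ := R_succ_right_iff.1 hR
    rcases hs with hs | hs
    · rw [← hs] at hw
      rcases ih hw with h1 | ⟨q, h1, h2, h3⟩ | ⟨t', h1, h2⟩
      · exact Or.inl h1
      · exact Or.inr (Or.inl ⟨q, h1, by omega, h3⟩)
      · exact Or.inr (Or.inr ⟨t', by omega, h2⟩)
    · rcases inT_in hN h (by omega) hs with ⟨c', τ', h1, h2, h3, h4, h5, h6⟩ | ⟨_, h2, _⟩
      · have e1 : c' = c := hN.tgt_inj c' c h1 hc h3 h4
        subst e1
        have e2 : τ' = τ := by omega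
        subst e2
        have hl := hN.len_ge c' hc
        rw [h6] at hw
        rcases strand_back hN h hc hτ t (N.len c' - 2) y (by omega) hw with
          ⟨q, hq, hq2, hy⟩ | ⟨t', ht', hy⟩
        · exact Or.inr (Or.inl ⟨q, by omega, by omega, hy⟩)
        · exact Or.inr (Or.inr ⟨t', by omega, hy⟩)
      · exact absurd rfl (h2 c hc)

end CR
end
end
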