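import Mathlib
import Pool.Agent.Lib.MP_09393f_co.Strand2

section

section

/-!
# Layout of a network: injectivity, bounds (MP_09393f_co)
-/

namespace CR

variable {k n : ℕ} {N : Net}

theorem lay_real (hN : N.Good) {page : VT k n → VT k n → Bool} {pos : VT k n → ℕ} {w : ℕ}
    (hC : Cert (Real k n) (Adj k n) pos page w) (hT : TermOrd k n pos page) :
    ∀ u v, NAdj N (S k n) (Adj k n) (inT k n) (outT k n) u v →
      RealN N (S k n) (Real k n) u ∧ RealN N (S k n) (Real k n) v := by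
  rintro (⟨x, u⟩ | ⟨c, τ, p⟩) (⟨y, v⟩ | ⟨c', τ', p'⟩) h
  · obtain ⟨rfl, h1, h2⟩ := h
    obtain ⟨h3, h4⟩ := hC.real u v h2
    exact ⟨⟨h1, h3⟩, ⟨h1, h4⟩⟩
  · obtain ⟨h1, h2, rfl, rfl, rfl⟩ := h
    have h3 := hN.len_ge c' h1
    exact ⟨⟨hN.act_src c' h1, hT.rout _ (hN.srcS_lt c' h1) _ h2⟩, ⟨h1, h2, by omega⟩⟩
  · obtain ⟨h1, h2, h3, rfl, rfl⟩ := h
    exact ⟨⟨h1, h2, by omega⟩, ⟨hN.act_tgt c h1, hT.rin _ (hN.tgtS_lt c h1) _ (by omega)⟩⟩
  · obtain ⟨h1, h2, rfl, rfl, rfl, h3⟩ := h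
    exact ⟨⟨h1, h2, by omega⟩, ⟨h1, h2, h3⟩⟩

/-- the position of a real vertex: its block and its offset -/
theorem layInj_off {page : VT k n → VT k n → Bool} {pos : VT k n → ℕ} {w : ℕ}
    (hC : Cert (Real k n) (Adj k n) pos page w) {Y : Lay N} {B W L : ℕ}
    (hY : Y.OK (S k n) B W L w) : ∀ v, RealN N (S k n) (Real k n) v →
      ∃ m y, m < B ∧ y < W ∧ posN N Y W L pos v = m * W + y := by
  rintro (⟨x, u⟩ | ⟨c, τ, p⟩) h
  · obtain ⟨h1, h2⟩ := h
    exact ⟨Y.nb x, pos u, hY.nb_lt x h1, lt_of_lt_of_le (hC.lt u h2) hY.w_le, rfl⟩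
  · obtain ⟨h1, h2, h3⟩ := h
    have h4 := hY.len_le c h1
    have h5 := hY.len_ge c h1
    have h6 := hY.i1_le c τ h1 h2
    have h7 := hY.i2_le c τ h1 h2
    simp only [posN]
    split_ifs with h8
    · exact ⟨Y.g1 c, Y.i1 c τ * L + p, hY.g1_lt c h1, by omega, by omega⟩
    · exact ⟨Y.g2 c, Y.i2 c τ * L, hY.g2_lt c h1, by omega, by omega⟩

theorem lay_lt {page : VT k n → VT k n → Bool} {pos : VT k n → ℕ} {w : ℕ}
    (hC : Cert (Real k n) (Adj k n) pos page w) {Y : Lay N} {B W L : ℕ}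
    (hY : Y.OK (S k n) B W L w) : ∀ v, RealN N (S k n) (Real k n) v →
      posN N Y W L pos v < B * W := by
  intro v hv
  obtain ⟨m, y, h1, h2, h3⟩ := layInj_off hC hY v hv
  rw [h3]
  have h4 : (m + 1) * W ≤ B * W := Nat.mul_le_mul_right _ h1
  rw [Nat.succ_mul] at h4
  omega

theorem layInj_div {L i i' p p' : ℕ} (hp : p < L) (hp' : p' < L) (h : i * L + p = i' * L + p') :
    i = i' ∧ p = p' := (blk_eq hp hp').1 h

theorem lay_inj {page : VT k n → VT k n → Bool} {pos : VT k n → ℕ} {w : ℕ}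
    (hC : Cert (Real k n) (Adj k n) pos page w) {Y : Lay N} {B W L : ℕ}
    (hY : Y.OK (S k n) B W L w) : ∀ u v, RealN N (S k n) (Real k n) u →
      RealN N (S k n) (Real k n) v → posN N Y W L pos u = posN N Y W L pos v → u = v := by
  have key : ∀ (x : N.X) (u : VT k n) (c : N.C) (τ p : ℕ),
      RealN N (S k n) (Real k n) (Sum.inl (x, u)) →
      RealN N (S k n) (Real k n) (Sum.inr (c, τ, p)) →
      posN N Y W L pos (Sum.inl (x, u)) = posN N Y W L pos (Sum.inr (c, τ, p)) → False := by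
    intro x u c τ p hu hv h
    obtain ⟨hu1, hu2⟩ := hu
    obtain ⟨h1, h2, h3⟩ := hv
    have h4 := hY.len_le c h1
    have h5 := hY.len_ge c h1
    have h6 := hY.i1_le c τ h1 h2
    have h7 := hY.i2_le c τ h1 h2
    have hw : pos u < W := lt_of_lt_of_le (hC.lt u hu2) hY.w_le
    simp only [posN] at h
    split_ifs at h with h8
    · rw [add_assoc] at h
      exact hY.nb_g1 x c hu1 h1 ((blk_eq hw (by omega)).1 h).1
    · exact hY.nb_g2 x c hu1 h1 ((blk_eq hw (by omega)).1 h).1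
  rintro (⟨x, u⟩ | ⟨c, τ, p⟩) (⟨y, v⟩ | ⟨c', τ', p'⟩) hu hv h
  · obtain ⟨hu1, hu2⟩ := hu
    obtain ⟨hv1, hv2⟩ := hv
    simp only [posN] at h
    have h1 := (blk_eq (lt_of_lt_of_le (hC.lt u hu2) hY.w_le)
      (lt_of_lt_of_le (hC.lt v hv2) hY.w_le)).1 h
    have h2 := hY.nb_inj x y hu1 hv1 h1.1
    have h3 := hC.inj u v hu2 hv2 h1.2
    rw [h2, h3]
  · exact (key x u c' τ' p' hu hv h).elim
  · exact (key y v c τ p hv hu h.symm).elim
  · obtain ⟨a1, a2, a3⟩ := hu
    obtain ⟨b1, b2, b3⟩ := hv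
    have a4 := hY.len_le c a1
    have a5 := hY.len_ge c a1
    have a6 := hY.i1_le c τ a1 a2
    have a7 := hY.i2_le c τ a1 a2
    have b4 := hY.len_le c' b1
    have b5 := hY.len_ge c' b1
    have b6 := hY.i1_le c' τ' b1 b2
    have b7 := hY.i2_le c' τ' b1 b2
    simp only [posN] at h
    split_ifs at h with h8 h9 h9
    · rw [add_assoc, add_assoc] at h
      have h1 := (blk_eq (by omega) (by omega)).1 h
      have h2 := layInj_div (by omega) (by omega) h1.2
      obtain ⟨rfl, rfl⟩ := hY.g1_inj c c' τ τ' a1 b1 a2 b2 h1.1 h2.1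
      rw [h2.2]
    · rw [add_assoc] at h
      exact (hY.g12 c c' a1 b1 ((blk_eq (by omega) (by omega)).1 h).1).elim
    · rw [add_assoc (Y.g1 c' * W)] at h
      exact (hY.g12 c' c b1 a1 ((blk_eq (by omega) (by omega)).1 h).1.symm).elim
    · have h1 := (blk_eq (by omega) (by omega)).1 h
      have h2 := layInj_div (p := 0) (p' := 0) (by omega) (by omega)
        (show Y.i2 c τ * L + 0 = Y.i2 c' τ' * L + 0 by omega)
      obtain ⟨rfl, rfl⟩ := hY.g2_inj c c' τ τ' a1 b1 a2 b2 h1.1 h2.1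
      have h3 : p = p' := by omega
      rw [h3]

end CR
end

section

/-!
# Layout of the top network (MP_09393f_co)
-/

namespace CR

theorem TopLay_idx {S s s' τ τ' : ℕ} (hτ : τ < S) (hτ' : τ' < S)
    (h : s * S + τ = s' * S + τ') : s = s' ∧ τ = τ' := by
  have h1 : (s * S + τ) / S = s := by
    rw [Nat.mul_comm, Nat.mul_add_div (by omega), Nat.div_eq_of_lt hτ, Nat.add_zero]
  have h2 : (s' * S + τ') / S = s' := by
    rw [Nat.mul_comm, Nat.mul_add_div (by omega), Nat.div_eq_of_lt hτ', Nat.add_zero]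
  have h3 : s = s' := by rw [← h1, ← h2, h]
  subst h3
  exact ⟨rfl, by omega⟩

theorem TopLay_idx_lt {S s τ : ℕ} (hs : s < 3) (hτ : τ < S) : s * S + τ < 3 * S := by
  have : s * S ≤ 2 * S := Nat.mul_le_mul_right _ (by omega)
  omega

theorem topLay_ok (k N : ℕ) {Λ : ℕ} (hΛ : 3 ≤ Λ) :
    (topLay k N Λ).OK (S k N) 6 (WTop k N Λ) Λ (wd k N) where
  nb_inj := by
    intro x x' _ _ h
    cases x <;> cases x' <;> first | rfl | simp [topLay] at h
  nb_g1 := by
    rintro x ⟨c, s⟩ _ _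
    cases x <;> cases c <;> simp [topLay]
  nb_g2 := by
    rintro x ⟨c, s⟩ _ _
    cases x <;> cases c <;> simp [topLay]
  g12 := by
    rintro ⟨c, s⟩ ⟨c', s'⟩ _ _
    cases c <;> cases c' <;> simp [topLay]
  g1_inj := by
    rintro ⟨c, s⟩ ⟨c', s'⟩ τ τ' h h' hτ hτ' h1 h2
    have hs : s < 3 := h
    have hs' : s' < 3 := h'
    have e1 := TopLay_idx_lt hs hτ
    have e2 := TopLay_idx_lt hs' hτ'
    simp only [topLay] at h1 h2
    obtain ⟨rfl, rfl⟩ := TopLay_idx hτ hτ' (show s * S k N + τ = s' * S k N + τ' by omega)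
    cases c <;> cases c' <;> first | exact ⟨rfl, rfl⟩ | simp at h1
  g2_inj := by
    rintro ⟨c, s⟩ ⟨c', s'⟩ τ τ' h h' hτ hτ' h1 h2
    simp only [topLay] at h1 h2
    obtain ⟨rfl, rfl⟩ := TopLay_idx hτ hτ' h2
    cases c <;> cases c' <;> first | exact ⟨rfl, rfl⟩ | simp at h1
  i1_le := by
    rintro ⟨c, s⟩ τ h hτ
    have hs : s < 3 := h
    have e1 := TopLay_idx_lt hs hτ
    simp only [topLay, WTop]
    have : (3 * S k N - 1 - (s * S k N + τ) + 1) * Λ ≤ 3 * S k N * Λ :=
      Nat.mul_le_mul_right _ (by omega)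
    rw [Nat.add_mul, Nat.one_mul] at this
    omega
  i2_le := by
    rintro ⟨c, s⟩ τ h hτ
    have hs : s < 3 := h
    have e1 := TopLay_idx_lt hs hτ
    simp only [topLay, WTop]
    have : (s * S k N + τ + 1) * Λ ≤ 3 * S k N * Λ :=
      Nat.mul_le_mul_right _ (by omega)
    rw [Nat.add_mul, Nat.one_mul] at this
    omega
  len_le _ _ := le_rfl
  len_ge _ _ := hΛ
  w_le := by unfold WTop; omega
  nb_lt := by
    intro x _
    cases x <;> simp [topLay]
  g1_lt := by
    rintro ⟨c, s⟩ _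
    cases c <;> simp [topLay]
  g2_lt := by
    rintro ⟨c, s⟩ _
    cases c <;> simp [topLay]

theorem TopLay_mono {a b L : ℕ} (h : a < b) : a * L + L ≤ b * L := by
  have := Nat.mul_le_mul_right L (Nat.succ_le_of_lt h)
  rwa [Nat.succ_mul] at this

theorem topLay_dn (k N : ℕ) {Λ : ℕ} (hΛ : 3 ≤ Λ) : ∀ a b c d,
    DnSeg k N (topNet Λ) (topLay k N Λ) (WTop k N Λ) Λ a b →
    DnSeg k N (topNet Λ) (topLay k N Λ) (WTop k N Λ) Λ c d → ¬ Crs a b c d := by
  rintro a b c d ⟨⟨β, s⟩, τ, h, hτ, ha, hb⟩ ⟨⟨β', s'⟩, τ', h', hτ', hc, hd⟩ hcr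
  have hs : s < 3 := h
  have hs' : s' < 3 := h'
  have e1 := TopLay_idx_lt hs hτ
  have e2 := TopLay_idx_lt hs' hτ'
  simp only [topLay, topNet] at ha hb hc hd
  set I := s * S k N + τ with hI
  set I' := s' * S k N + τ' with hI'
  have w1 : (3 * S k N - 1 - I) * Λ + (Λ - 3) < WTop k N Λ := by
    have := TopLay_mono (L := Λ) (show 3 * S k N - 1 - I < 3 * S k N by omega)
    unfold WTop
    omega
  have w2 : I * Λ < WTop k N Λ := by
    have := TopLay_mono (L := Λ) (show I < 3 * S k N by omega)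
    unfold WTop
    omega
  have w1' : (3 * S k N - 1 - I') * Λ + (Λ - 3) < WTop k N Λ := by
    have := TopLay_mono (L := Λ) (show 3 * S k N - 1 - I' < 3 * S k N by omega)
    unfold WTop
    omega
  have w2' : I' * Λ < WTop k N Λ := by
    have := TopLay_mono (L := Λ) (show I' < 3 * S k N by omega)
    unfold WTop
    omega
  have htri : ((3 * S k N - 1 - I') * Λ + (Λ - 3) < (3 * S k N - 1 - I) * Λ + (Λ - 3) ∧
      I * Λ < I' * Λ) ∨ I = I' ∨
      ((3 * S k N - 1 - I) * Λ + (Λ - 3) < (3 * S k N - 1 - I') * Λ + (Λ - 3) ∧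
      I' * Λ < I * Λ) := by
    rcases lt_trichotomy I I' with ht | ht | ht
    · left
      have h1 := TopLay_mono (L := Λ) (show 3 * S k N - 1 - I' < 3 * S k N - 1 - I by omega)
      have h2 := TopLay_mono (L := Λ) ht
      omega
    · right; left; exact ht
    · right; right
      have h1 := TopLay_mono (L := Λ) (show 3 * S k N - 1 - I < 3 * S k N - 1 - I' by omega)
      have h2 := TopLay_mono (L := Λ) ht
      omega
  have P : ∀ (m m' x x' : ℕ), x < WTop k N Λ → x' < WTop k N Λ →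
      m * WTop k N Λ + x < m' * WTop k N Λ + x' → m < m' ∨ (m = m' ∧ x < x') :=
    fun m m' x x' hx hx' => (blk_lt hx hx').1
  have Q : ∀ (m m' x x' : ℕ), x < WTop k N Λ → x' < WTop k N Λ → m < m' →
      m * WTop k N Λ + x < m' * WTop k N Λ + x' :=
    fun m m' x x' hx hx' h => (blk_lt hx hx').2 (Or.inl h)
  unfold Crs at hcr
  cases β <;> cases β' <;> simp only [if_true, Bool.false_eq_true, if_false] at ha hb hc hd
  · have q1 := Q 2 3 _ _ w1 w2 (by norm_num)
    have q2 := Q 2 3 _ _ w1' w2' (by norm_num)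
    rw [min_eq_left (by omega), max_eq_right (by omega), min_eq_left (by omega),
      max_eq_right (by omega), ha, hb, hc, hd] at hcr
    rcases htri with ht | ht | ht
    · omega
    · rw [ht] at hcr; omega
    · omega
  · have q1 := Q 2 3 _ _ w1 w2 (by norm_num)
    have q2 := Q 0 5 _ _ w2' w1' (by norm_num)
    have q3 := Q 0 2 _ _ w2' w1 (by norm_num)
    have q4 := Q 3 5 _ _ w2 w1' (by norm_num)
    rw [min_eq_left (by omega), max_eq_right (by omega), min_eq_right (by omega),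
      max_eq_left (by omega), ha, hb, hc, hd] at hcr
    omega
  · have q1 := Q 0 5 _ _ w2 w1 (by norm_num)
    have q2 := Q 2 3 _ _ w1' w2' (by norm_num)
    have q3 := Q 3 5 _ _ w2' w1 (by norm_num)
    rw [min_eq_right (by omega), max_eq_left (by omega), min_eq_left (by omega),
      max_eq_right (by omega), ha, hb, hc, hd] at hcr
    omega
  · have q1 := Q 0 5 _ _ w2 w1 (by norm_num)
    have q2 := Q 0 5 _ _ w2' w1' (by norm_num)
    rw [min_eq_right (by omega), max_eq_left (by omega), min_eq_right (by omega),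
      max_eq_left (by omega), ha, hb, hc, hd] at hcr
    rcases htri with ht | ht | ht
    · omega
    · rw [ht] at hcr; omega
    · omega

/-- the four families of arcs above the spine -/
def TopUpQ (O I R G a x b y : ℕ) : Prop :=
  (a = 1 ∧ x = O ∧ b = 2 ∧ y = R) ∨ (a = 3 ∧ x = G ∧ b = 4 ∧ y = I) ∨
  (a = 4 ∧ x = O ∧ b = 5 ∧ y = R) ∨ (a = 0 ∧ x = G ∧ b = 1 ∧ y = I)

theorem TopUp_arith {O I R G O' I' R' G' : ℕ} (hio : I ≤ O' ∧ I' ≤ O)
    (htri : (O ≤ O' ∧ I' ≤ I ∧ R' < R ∧ G < G') ∨ (O = O' ∧ I' = I ∧ R' = R ∧ G = G') ∨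
      (O' ≤ O ∧ I ≤ I' ∧ R < R' ∧ G' < G)) {a x b y a' x' b' y' : ℕ}
    (h : TopUpQ O I R G a x b y) (h' : TopUpQ O' I' R' G' a' x' b' y')
    (h1 : a < a' ∨ (a = a' ∧ x < x')) (h2 : a' < b ∨ (a' = b ∧ x' < y))
    (h3 : b < b' ∨ (b = b' ∧ y < y')) : False := by
  unfold TopUpQ at h h'
  rcases h with ⟨rfl, rfl, rfl, rfl⟩ | ⟨rfl, rfl, rfl, rfl⟩ | ⟨rfl, rfl, rfl, rfl⟩ |
    ⟨rfl, rfl, rfl, rfl⟩ <;>
  rcases h' with ⟨rfl, rfl, rfl, rfl⟩ | ⟨rfl, rfl, rfl, rfl⟩ | ⟨rfl, rfl, rfl, rfl⟩ |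
    ⟨rfl, rfl, rfl, rfl⟩ <;>
  omega

theorem TopUp_desc {k N Λ : ℕ} (hΛ : 3 ≤ Λ)
    (hC : Cert (Real k N) (Adj k N) (pos k N) (page k N) (wd k N))
    (hT : TermOrd k N (pos k N) (page k N)) {a b : ℕ}
    (h : UpSeg k N (topNet Λ) (topLay k N Λ) (WTop k N Λ) Λ (pos k N) a b) :
    ∃ s τ α x β y, s < 3 ∧ τ < S k N ∧ x < WTop k N Λ ∧ y < WTop k N Λ ∧
      TopUpQ (pos k N (outT k N s τ)) (pos k N (inT k N (3 - s) (S k N - 1 - τ)))
        ((3 * S k N - 1 - (s * S k N + τ)) * Λ) ((s * S k N + τ) * Λ) α x β y ∧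
      a = α * WTop k N Λ + x ∧ b = β * WTop k N Λ + y := by
  obtain ⟨⟨β, s⟩, τ, hok, hτ, h⟩ := h
  have hs : s < 3 := hok
  have e1 := TopLay_idx_lt hs hτ
  have hτ' : S k N - 1 - τ < S k N := by omega
  have w1 : (3 * S k N - 1 - (s * S k N + τ)) * Λ < WTop k N Λ := by
    have := TopLay_mono (L := Λ)
      (show 3 * S k N - 1 - (s * S k N + τ) < 3 * S k N by omega)
    unfold WTop
    omega
  have w2 : (s * S k N + τ) * Λ < WTop k N Λ := by
    have := TopLay_mono (L := Λ) (show (s * S k N + τ) < 3 * S k N by omega)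
    unfold WTop
    omega
  have w3 : pos k N (outT k N s τ) < WTop k N Λ := by
    have := hC.lt _ (hT.rout s hs τ hτ)
    unfold WTop
    omega
  have w4 : pos k N (inT k N (3 - s) (S k N - 1 - τ)) < WTop k N Λ := by
    have := hC.lt _ (hT.rin (3 - s) (by omega) _ hτ')
    unfold WTop
    omega
  cases β <;> rcases h with ⟨h1, h2⟩ | ⟨h1, h2⟩ <;>
    simp only [topNet, topLay, if_true, Bool.false_eq_true, if_false, Bool.not_false,
      Bool.not_true] at h1 h2
  · exact ⟨s, τ, 1, _, 2, _, hs, hτ, w3, w1, by simp [TopUpQ], h1, h2⟩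
  · exact ⟨s, τ, 3, _, 4, _, hs, hτ, w2, w4, by simp [TopUpQ], h1, h2⟩
  · exact ⟨s, τ, 4, _, 5, _, hs, hτ, w3, w1, by simp [TopUpQ], h1, h2⟩
  · exact ⟨s, τ, 0, _, 1, _, hs, hτ, w2, w4, by simp [TopUpQ], h1, h2⟩

theorem topLay_up {k N Λ : ℕ} (hΛ : 3 ≤ Λ)
    (hC : Cert (Real k N) (Adj k N) (pos k N) (page k N) (wd k N))
    (hT : TermOrd k N (pos k N) (page k N)) : ∀ a b c d,
    UpSeg k N (topNet Λ) (topLay k N Λ) (WTop k N Λ) Λ (pos k N) a b →
    UpSeg k N (topNet Λ) (topLay k N Λ) (WTop k N Λ) Λ (pos k N) c d → ¬ Crs a b c d := by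
  intro a b c d h h' hcr
  obtain ⟨s, τ, α, x, β, y, hs, hτ, hx, hy, hQ, e1, e2⟩ := TopUp_desc hΛ hC hT h
  obtain ⟨s', τ', α', x', β', y', hs', hτ', hx', hy', hQ', e1', e2'⟩ := TopUp_desc hΛ hC hT h'
  have hαβ : α < β := by unfold TopUpQ at hQ; omega
  have hαβ' : α' < β' := by unfold TopUpQ at hQ'; omega
  have hab : a < b := by rw [e1, e2]; exact (blk_lt hx hy).2 (Or.inl hαβ)
  have hcd : c < d := by rw [e1', e2']; exact (blk_lt hx' hy').2 (Or.inl hαβ')
  unfold Crs at hcr
  rw [min_eq_left hab.le, max_eq_right hab.le, min_eq_left hcd.le, max_eq_right hcd.le,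
    e1, e2, e1', e2', blk_lt hx hx', blk_lt hx' hy, blk_lt hy hy'] at hcr
  obtain ⟨h1, h2, h3⟩ := hcr
  have g1 := TopLay_idx_lt hs hτ
  have g2 := TopLay_idx_lt hs' hτ'
  have hτ1 : S k N - 1 - τ < S k N := by omega
  have hτ1' : S k N - 1 - τ' < S k N := by omega
  have comp : ∀ {s s' τ τ' : ℕ}, s < 3 → s' < 3 → τ < S k N → τ' < S k N →
      s * S k N + τ < s' * S k N + τ' →
      pos k N (outT k N s τ) ≤ pos k N (outT k N s' τ') ∧
      pos k N (inT k N (3 - s') (S k N - 1 - τ')) ≤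
        pos k N (inT k N (3 - s) (S k N - 1 - τ)) := by
    intro s s' τ τ' hs hs' hτ hτ' hlt
    rcases lt_trichotomy s s' with hss | rfl | hss
    · exact ⟨hT.oo s hs s' hs' τ hτ τ' hτ' hss,
        hT.ii (3 - s') (by omega) (3 - s) (by omega) _ (by omega) _ (by omega) (by omega)⟩
    · exact ⟨(hT.o1 s hs τ' hτ' τ (by omega)).le,
        (hT.i1 (3 - s) (by omega) _ (by omega) _ (by omega)).le⟩
    · exfalso
      have := TopLay_mono (L := S k N) hss
      omega
  refine TopUp_arith ?_ ?_ hQ hQ' h1 h2 h3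
  · exact ⟨hT.io _ (by omega) _ (by omega) _ hs' _ hτ',
      hT.io _ (by omega) _ (by omega) _ hs _ hτ⟩
  · rcases lt_trichotomy (s * S k N + τ) (s' * S k N + τ') with ht | ht | ht
    · left
      obtain ⟨c1, c2⟩ := comp hs hs' hτ hτ' ht
      exact ⟨c1, c2, Nat.mul_lt_mul_of_pos_right (by omega) (by omega),
        Nat.mul_lt_mul_of_pos_right ht (by omega)⟩
    · right; left
      obtain ⟨rfl, rfl⟩ := TopLay_idx hτ hτ' ht
      exact ⟨rfl, rfl, rfl, rfl⟩
    · right; right
      obtain ⟨c1, c2⟩ := comp hs' hs hτ' hτ ht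
      exact ⟨c1, c2, Nat.mul_lt_mul_of_pos_right (by omega) (by omega),
        Nat.mul_lt_mul_of_pos_right ht (by omega)⟩

end CR
end

section

/-!
# Layout of a network: no crossings (MP_09393f_co)
-/

namespace CR

variable {k n : ℕ} {N : Net}

theorem layNc_between {a b c d : ℕ} (h : Crs a b c d ∨ Crs c d a b) :
    (min a b < c ∧ c < max a b) ∨ (min a b < d ∧ d < max a b) := by
  unfold Crs at h
  rcases h with h | h
  · rcases le_total c d with h1 | h1
    · rw [min_eq_left h1] at h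
      left; exact ⟨h.1, h.2.1⟩
    · rw [min_eq_right h1] at h
      right; exact ⟨h.1, h.2.1⟩
  · rcases le_total c d with h1 | h1
    · rw [max_eq_right h1] at h
      right; exact ⟨by omega, h.2.2⟩
    · rw [max_eq_left h1] at h
      left; exact ⟨by omega, h.2.2⟩

theorem layNc_block {W m m' x y z : ℕ} (hx : x < W) (hy : y < W) (hz : z < W)
    (h : min (m * W + x) (m * W + y) < m' * W + z ∧ m' * W + z < max (m * W + x) (m * W + y)) :
    m = m' ∧ min x y < z ∧ z < max x y := by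
  have h1 : min (m * W + x) (m * W + y) = m * W + min x y := by omega
  have h2 : max (m * W + x) (m * W + y) = m * W + max x y := by omega
  rw [h1, h2] at h
  have h3 : min x y < W := by omega
  have h4 : max x y < W := by omega
  have h5 := (blk_lt h3 hz).1 h.1
  have h6 := (blk_lt hz h4).1 h.2
  omega

theorem layNc_class {page : VT k n → VT k n → Bool} {pos : VT k n → ℕ} {w : ℕ}
    {Y : Lay N} {B W L : ℕ} (hY : Y.OK (S k n) B W L w) :
    ∀ u v, NAdj N (S k n) (Adj k n) (inT k n) (outT k n) u v →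
      (∃ x u' v', N.act x ∧ Adj k n u' v' ∧ posN N Y W L pos u = Y.nb x * W + pos u' ∧
        posN N Y W L pos v = Y.nb x * W + pos v' ∧ pageN N page u v = page u' v') ∨
      (UpSeg k n N Y W L pos (posN N Y W L pos u) (posN N Y W L pos v) ∧
        pageN N page u v = true) ∨
      (posN N Y W L pos v = posN N Y W L pos u + 1) ∨
      (DnSeg k n N Y W L (posN N Y W L pos u) (posN N Y W L pos v) ∧
        pageN N page u v = false) := by
  rintro (⟨x, u⟩ | ⟨c, τ, p⟩) (⟨y, v⟩ | ⟨c', τ', p'⟩) h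
  · obtain ⟨rfl, h1, h2⟩ := h
    left
    exact ⟨x, u, v, h1, h2, rfl, rfl, rfl⟩
  · obtain ⟨h1, h2, rfl, rfl, rfl⟩ := h
    right; left
    refine ⟨⟨c', τ', h1, h2, Or.inl ⟨rfl, ?_⟩⟩, rfl⟩
    have h3 := hY.len_ge c' h1
    simp only [posN]
    rw [if_pos (by omega)]
    omega
  · obtain ⟨h1, h2, h3, rfl, rfl⟩ := h
    right; left
    refine ⟨⟨c, τ, h1, h2, Or.inr ⟨?_, rfl⟩⟩, rfl⟩
    simp only [posN]
    rw [if_neg (by omega)]
  · obtain ⟨h1, h2, rfl, rfl, rfl, h3⟩ := h
    right; right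
    have h4 : p + 2 < N.len c' := by omega
    by_cases h5 : p + 1 + 2 < N.len c'
    · left
      simp only [posN]
      rw [if_pos h5, if_pos h4]
      omega
    · right
      have h6 : p = N.len c' - 3 := by omega
      refine ⟨⟨c', τ', h1, h2, ?_, ?_⟩, ?_⟩
      · simp only [posN]
        rw [if_pos h4, ← h6]
      · simp only [posN]
        rw [if_neg h5]
      · simp only [pageN]
        exact decide_eq_false h5

/-- an internal arc does not cross the long arcs above the spine -/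
theorem layNc_IU {page : VT k n → VT k n → Bool} {pos : VT k n → ℕ} {w : ℕ}
    (hN : N.Good)
    (hC : Cert (Real k n) (Adj k n) pos page w) (hT : TermOrd k n pos page) {Y : Lay N}
    {B W L : ℕ} (hY : Y.OK (S k n) B W L w) {x : N.X} {u' v' : VT k n} (hx : N.act x)
    (huv : Adj k n u' v') (hp : page u' v' = true) {c d : ℕ}
    (hU : UpSeg k n N Y W L pos c d) :
    ¬ (Crs (Y.nb x * W + pos u') (Y.nb x * W + pos v') c d ∨
      Crs c d (Y.nb x * W + pos u') (Y.nb x * W + pos v')) := by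
  intro h
  have h1 := layNc_between h
  obtain ⟨hu, hv⟩ := hC.real u' v' huv
  have hu1 : pos u' < W := lt_of_lt_of_le (hC.lt _ hu) hY.w_le
  have hv1 : pos v' < W := lt_of_lt_of_le (hC.lt _ hv) hY.w_le
  obtain ⟨e, τ, he, hτ, hseg⟩ := hU
  have hlen := hY.len_le e he
  have hlen' := hY.len_ge e he
  have hi1 := hY.i1_le e τ he hτ
  have hi2 := hY.i2_le e τ he hτ
  have key1 : ¬ (min (Y.nb x * W + pos u') (Y.nb x * W + pos v') < Y.g1 e * W + Y.i1 e τ * L ∧
      Y.g1 e * W + Y.i1 e τ * L < max (Y.nb x * W + pos u') (Y.nb x * W + pos v')) := by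
    intro h2
    have := layNc_block hu1 hv1 (by omega) h2
    exact hY.nb_g1 x e hx he this.1
  have key2 : ¬ (min (Y.nb x * W + pos u') (Y.nb x * W + pos v') < Y.g2 e * W + Y.i2 e τ * L ∧
      Y.g2 e * W + Y.i2 e τ * L < max (Y.nb x * W + pos u') (Y.nb x * W + pos v')) := by
    intro h2
    have := layNc_block hu1 hv1 (by omega) h2
    exact hY.nb_g2 x e hx he this.1
  rcases hseg with ⟨rfl, rfl⟩ | ⟨rfl, rfl⟩
  · rcases h1 with h1 | h1
    · have hr := hT.rout (N.srcS e) (hN.srcS_lt e he) τ hτ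
      have hr1 : pos (outT k n (N.srcS e) τ) < W := lt_of_lt_of_le (hC.lt _ hr) hY.w_le
      have h2 := layNc_block hu1 hv1 hr1 h1
      exact hT.vout u' v' huv hp (N.srcS e) (hN.srcS_lt e he) τ hτ h2.2
    · exact key1 h1
  · rcases h1 with h1 | h1
    · exact key2 h1
    · have hτ' : S k n - 1 - τ < S k n := by omega
      have hr := hT.rin (N.tgtS e) (hN.tgtS_lt e he) (S k n - 1 - τ) hτ'
      have hr1 : pos (inT k n (N.tgtS e) (S k n - 1 - τ)) < W :=
        lt_of_lt_of_le (hC.lt _ hr) hY.w_le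
      have h2 := layNc_block hu1 hv1 hr1 h1
      exact hT.vin u' v' huv hp (N.tgtS e) (hN.tgtS_lt e he) _ hτ' h2.2

/-- an internal arc does not cross the long arcs below the spine -/
theorem layNc_ID {page : VT k n → VT k n → Bool} {pos : VT k n → ℕ} {w : ℕ}
    (hC : Cert (Real k n) (Adj k n) pos page w) {Y : Lay N}
    {B W L : ℕ} (hY : Y.OK (S k n) B W L w) {x : N.X} {u' v' : VT k n} (hx : N.act x)
    (huv : Adj k n u' v') {c d : ℕ} (hU : DnSeg k n N Y W L c d) :
    ¬ (Crs (Y.nb x * W + pos u') (Y.nb x * W + pos v') c d ∨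
      Crs c d (Y.nb x * W + pos u') (Y.nb x * W + pos v')) := by
  intro h
  have h1 := layNc_between h
  obtain ⟨hu, hv⟩ := hC.real u' v' huv
  have hu1 : pos u' < W := lt_of_lt_of_le (hC.lt _ hu) hY.w_le
  have hv1 : pos v' < W := lt_of_lt_of_le (hC.lt _ hv) hY.w_le
  obtain ⟨e, τ, he, hτ, rfl, rfl⟩ := hU
  have hlen := hY.len_le e he
  have hlen' := hY.len_ge e he
  have hi1 := hY.i1_le e τ he hτ
  have hi2 := hY.i2_le e τ he hτ
  rcases h1 with h1 | h1
  · rw [add_assoc (Y.g1 e * W)] at h1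
    have := layNc_block hu1 hv1 (by omega) h1
    exact hY.nb_g1 x e hx he this.1
  · have := layNc_block hu1 hv1 (by omega) h1
    exact hY.nb_g2 x e hx he this.1

theorem layNc_shift {m a b c d : ℕ} (h : Crs (m + a) (m + b) (m + c) (m + d)) : Crs a b c d := by
  unfold Crs at h ⊢
  omega

theorem layNc_run {a c d : ℕ} : ¬ Crs a (a + 1) c d := by
  unfold Crs
  omega

theorem layNc_run' {a c d : ℕ} : ¬ Crs c d a (a + 1) := by
  unfold Crs
  omega

theorem lay_nc (hN : N.Good) {page : VT k n → VT k n → Bool} {pos : VT k n → ℕ} {w : ℕ}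
    (hC : Cert (Real k n) (Adj k n) pos page w) (hT : TermOrd k n pos page) {Y : Lay N}
    {B W L : ℕ} (hY : Y.OK (S k n) B W L w)
    (hU : ∀ a b c d, UpSeg k n N Y W L pos a b → UpSeg k n N Y W L pos c d → ¬ Crs a b c d)
    (hD : ∀ a b c d, DnSeg k n N Y W L a b → DnSeg k n N Y W L c d → ¬ Crs a b c d) :
    ∀ u v x y, NAdj N (S k n) (Adj k n) (inT k n) (outT k n) u v →
      NAdj N (S k n) (Adj k n) (inT k n) (outT k n) x y →
      pageN N page u v = pageN N page x y →
      ¬ Crs (posN N Y W L pos u) (posN N Y W L pos v) (posN N Y W L pos x)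
        (posN N Y W L pos y) := by
  intro u v x y huv hxy hpg hcr
  rcases layNc_class (page := page) (pos := pos) hY u v huv with
    ⟨x1, u1, v1, hx1, ha1, hp1, hp1', hg1⟩ | ⟨hs1, hg1⟩ | hr1 | ⟨hs1, hg1⟩ <;>
  rcases layNc_class (page := page) (pos := pos) hY x y hxy with
    ⟨x2, u2, v2, hx2, ha2, hp2, hp2', hg2⟩ | ⟨hs2, hg2⟩ | hr2 | ⟨hs2, hg2⟩
  · -- internal, internal
    rw [hp1, hp1', hp2, hp2'] at hcr
    obtain ⟨hu1, hv1⟩ := hC.real u1 v1 ha1
    obtain ⟨hu2, hv2⟩ := hC.real u2 v2 ha2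
    have h1 : pos u1 < W := lt_of_lt_of_le (hC.lt _ hu1) hY.w_le
    have h2 : pos v1 < W := lt_of_lt_of_le (hC.lt _ hv1) hY.w_le
    have h3 : pos u2 < W := lt_of_lt_of_le (hC.lt _ hu2) hY.w_le
    have h4 : pos v2 < W := lt_of_lt_of_le (hC.lt _ hv2) hY.w_le
    by_cases hx : x1 = x2
    · subst hx
      exact hC.nc u1 v1 u2 v2 ha1 ha2 (by rw [← hg1, ← hg2]; exact hpg) (layNc_shift hcr)
    · have hb := layNc_between (Or.inl hcr)
      rcases hb with hb | hb
      · exact hx (hY.nb_inj _ _ hx1 hx2 (layNc_block h1 h2 h3 hb).1)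
      · exact hx (hY.nb_inj _ _ hx1 hx2 (layNc_block h1 h2 h4 hb).1)
  · rw [hp1, hp1'] at hcr
    refine layNc_IU hN hC hT hY hx1 ha1 ?_ hs2 (Or.inl hcr)
    rw [← hg1, hpg, hg2]
  · rw [hr2] at hcr
    exact layNc_run' hcr
  · rw [hp1, hp1'] at hcr
    exact layNc_ID hC hY hx1 ha1 hs2 (Or.inl hcr)
  · rw [hp2, hp2'] at hcr
    refine layNc_IU hN hC hT hY hx2 ha2 ?_ hs1 (Or.inr hcr)
    rw [← hg2, ← hpg, hg1]
  · exact hU _ _ _ _ hs1 hs2 hcr
  · rw [hr2] at hcr
    exact layNc_run' hcr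
  · rw [hg1, hg2] at hpg
    exact absurd hpg (by decide)
  · rw [hr1] at hcr
    exact layNc_run hcr
  · rw [hr1] at hcr
    exact layNc_run hcr
  · rw [hr1] at hcr
    exact layNc_run hcr
  · rw [hr1] at hcr
    exact layNc_run hcr
  · rw [hp2, hp2'] at hcr
    exact layNc_ID hC hY hx2 ha2 hs1 (Or.inr hcr)
  · rw [hg1, hg2] at hpg
    exact absurd hpg (by decide)
  · rw [hr2] at hcr
    exact layNc_run' hcr
  · exact hD _ _ _ _ hs1 hs2 hcr

theorem lay_cert (hN : N.Good) {page : VT k n → VT k n → Bool} {pos : VT k n → ℕ} {w : ℕ}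
    (hC : Cert (Real k n) (Adj k n) pos page w) (hT : TermOrd k n pos page) {Y : Lay N}
    {B W L : ℕ} (hY : Y.OK (S k n) B W L w)
    (hU : ∀ a b c d, UpSeg k n N Y W L pos a b → UpSeg k n N Y W L pos c d → ¬ Crs a b c d)
    (hD : ∀ a b c d, DnSeg k n N Y W L a b → DnSeg k n N Y W L c d → ¬ Crs a b c d) :
    Cert (RealN N (S k n) (Real k n)) (NAdj N (S k n) (Adj k n) (inT k n) (outT k n))
      (posN N Y W L pos) (pageN N page) (B * W) where
  lt := lay_lt hC hY
  inj := lay_inj hC hY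
  real := lay_real hN hC hT
  nc := lay_nc hN hC hT hY hU hD

end CR
end

section

/-!
# Layout of the ladder: order and visibility of the terminals (MP_09393f_co)
-/

namespace CR

theorem termOrd_zero (k : ℕ) : TermOrd k 0 (pos k 0) (page k 0) where
  rin _ _ _ _ := trivial
  rout _ _ _ _ := trivial
  ii _ _ _ _ _ _ _ _ _ := le_rfl
  i1 i _ σ' h' σ h := by simp only [S] at h'; omega
  oo _ _ _ _ _ _ _ _ _ := le_rfl
  o1 s _ τ' h' τ h := by simp only [S] at h'; omega
  io _ _ _ _ _ _ _ _ := le_rfl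
  vin _ _ h := h.elim
  vout _ _ h := h.elim

private theorem ladTerm_not_between {W a b M x y z : ℕ} (hx : x < W) (hy : y < W) (hz : z < W)
    (h : ¬ ((a < M ∨ (a = M ∧ x < z)) ∧ (M < b ∨ (M = b ∧ z < y))))
    (h' : ¬ ((b < M ∨ (b = M ∧ y < z)) ∧ (M < a ∨ (M = a ∧ z < x)))) :
    ¬ (min (a * W + x) (b * W + y) < M * W + z ∧ M * W + z < max (a * W + x) (b * W + y)) := by
  rintro ⟨h1, h2⟩
  rcases min_lt_iff.1 h1 with h1 | h1 <;> rcases lt_max_iff.1 h2 with h2 | h2
  · omega
  · exact h ⟨(blk_lt hx hz).1 h1, (blk_lt hz hy).1 h2⟩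
  · exact h' ⟨(blk_lt hy hz).1 h1, (blk_lt hz hx).1 h2⟩
  · omega

/-- visibility from above: everything except the arithmetic of the blocks -/
private theorem ladTerm_vis {k n : ℕ}
    (hC : Cert (Real k n) (Adj k n) (pos k n) (page k n) (wd k n))
    (hT : TermOrd k n (pos k n) (page k n)) {M z : ℕ} (hz : z < Wd k n)
    (hin : ∀ u v, Adj k n u v → page k n u v = true →
      ¬ (min (pos k n u) (pos k n v) < z ∧ z < max (pos k n u) (pos k n v)))
    (h1 : ∀ (c : Cn) (j τ : ℕ), c.okAt k n j → τ < S k n → ∀ t < Wd k n,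
      ¬ (((15 * j + kcode c.srcK < M ∨
        (15 * j + kcode c.srcK = M ∧ pos k n (outT k n c.srcS τ) < z)) ∧
          (M < 15 * j + g1code c ∨ (M = 15 * j + g1code c ∧ z < t)))) ∧
      ¬ (((15 * j + g1code c < M ∨ (15 * j + g1code c = M ∧ t < z)) ∧
        (M < 15 * j + kcode c.srcK ∨
          (M = 15 * j + kcode c.srcK ∧ z < pos k n (outT k n c.srcS τ))))))
    (h2 : ∀ (c : Cn) (j τ : ℕ), c.okAt k n j → τ < S k n → ∀ t < Wd k n,
      ¬ (((15 * j + g2code c < M ∨ (15 * j + g2code c = M ∧ t < z)) ∧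
        (M < 15 * (j + c.dj) + kcode c.tgtK ∨
          (M = 15 * (j + c.dj) + kcode c.tgtK ∧
            z < pos k n (inT k n c.tgtS (S k n - 1 - τ)))))) ∧
      ¬ (((15 * (j + c.dj) + kcode c.tgtK < M ∨
        (15 * (j + c.dj) + kcode c.tgtK = M ∧
          pos k n (inT k n c.tgtS (S k n - 1 - τ)) < z)) ∧
            (M < 15 * j + g2code c ∨ (M = 15 * j + g2code c ∧ z < t))))) :
    ∀ u v, Adj k (n + 1) u v → page k (n + 1) u v = true →
      ¬ (min (pos k (n + 1) u) (pos k (n + 1) v) < M * Wd k n + z ∧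
        M * Wd k n + z < max (pos k (n + 1) u) (pos k (n + 1) v)) := by
  have hwW : wd k n ≤ Wd k n := Nat.le_add_right _ _
  have hU := U_ge k n
  have hrun : ∀ τ < S k n, ∀ p < 5 * U k n, τ * (5 * U k n) + p < Wd k n := by
    intro τ hτ p hp
    have h3 : (τ + 1) * (5 * U k n) ≤ S k n * (5 * U k n) := Nat.mul_le_mul_right _ hτ
    have h4 : S k n * (5 * U k n) ≤ Wd k n := Nat.le_add_left _ _
    rw [Nat.add_mul, Nat.one_mul] at h3
    omega
  intro u v huv hpg
  rcases u with ⟨x, u⟩ | ⟨c, τ, p⟩ <;> rcases v with ⟨y, v⟩ | ⟨c', τ', p'⟩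
  · -- inner arcs of a node
    obtain ⟨rfl, hact, ha⟩ := huv
    obtain ⟨hu, hv⟩ := hC.real _ _ ha
    have hu' := (hC.lt _ hu).trans_le hwW
    have hv' := (hC.lt _ hv).trans_le hwW
    have h3 := hin u v ha hpg
    show ¬ (min (_ * Wd k n + pos k n u) (_ * Wd k n + pos k n v) < M * Wd k n + z ∧
      M * Wd k n + z < max (_ * Wd k n + pos k n u) (_ * Wd k n + pos k n v))
    rw [min_lt_iff, lt_max_iff] at h3
    apply ladTerm_not_between hu' hv' hz
    · rintro ⟨h4, h5⟩
      exact h3 ⟨Or.inl (by omega), Or.inr (by omega)⟩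
    · rintro ⟨h4, h5⟩
      exact h3 ⟨Or.inr (by omega), Or.inl (by omega)⟩
  · -- first arc of a strand
    obtain ⟨hok, hτ, rfl, rfl, rfl⟩ := huv
    obtain ⟨c, j⟩ := c'
    have hlen := ladder_len_ge k n (c, j)
    have hsl := hT.rout _ ((ladder_good k n).srcS_lt _ hok) _ hτ
    have e2 : pos k (n + 1) (Sum.inr ((c, j), τ', 0)) =
        (15 * j + g1code c) * Wd k n + ((S k n - 1 - τ') * (5 * U k n) + 0) := by
      show (if 0 + 2 < (ladder k n).len (c, j) then _ else _) = _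
      rw [if_pos (by omega)]
      rfl
    have ht := hrun (S k n - 1 - τ') (by omega) 0 (by omega)
    rw [e2]
    have h3 := h1 c j τ' hok hτ _ ht
    exact ladTerm_not_between ((hC.lt _ hsl).trans_le hwW) ht hz h3.1 h3.2
  · -- last arc of a strand
    obtain ⟨hok, hτ, hp, rfl, rfl⟩ := huv
    obtain ⟨c, j⟩ := c
    have hsl := hT.rin _ ((ladder_good k n).tgtS_lt _ hok) (S k n - 1 - τ) (by omega)
    have e2 : pos k (n + 1) (Sum.inr ((c, j), τ, p)) =
        (15 * j + g2code c) * Wd k n + (τ * (5 * U k n) + 0) := by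
      show (if p + 2 < (ladder k n).len (c, j) then _ else _) = _
      rw [if_neg (by omega)]
      rfl
    have ht := hrun τ hτ 0 (by omega)
    rw [e2]
    have h3 := h2 c j τ hok hτ _ ht
    exact ladTerm_not_between ht ((hC.lt _ hsl).trans_le hwW) hz h3.1 h3.2
  · -- arcs of a run
    obtain ⟨hok, hτ, e1, e2, e3, hp⟩ := huv
    subst e1 e2 e3
    obtain ⟨c', j⟩ := c'
    have hpg' : p + 1 + 2 < (ladder k n).len (c', j) := by
      have : decide (p + 1 + 2 < (ladder k n).len (c', j)) = true := hpg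
      simpa using this
    have e1 : pos k (n + 1) (Sum.inr ((c', j), τ', p)) =
        (15 * j + g1code c') * Wd k n + (S k n - 1 - τ') * (5 * U k n) + p := by
      show (if p + 2 < (ladder k n).len (c', j) then _ else _) = _
      rw [if_pos (by omega)]
      rfl
    have e2 : pos k (n + 1) (Sum.inr ((c', j), τ', p + 1)) =
        (15 * j + g1code c') * Wd k n + (S k n - 1 - τ') * (5 * U k n) + (p + 1) := by
      show (if p + 1 + 2 < (ladder k n).len (c', j) then _ else _) = _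
      rw [if_pos hpg']
      rfl
    rw [e1, e2]
    omega

theorem termOrd_succ {k n : ℕ}
    (hC : Cert (Real k n) (Adj k n) (pos k n) (page k n) (wd k n))
    (hT : TermOrd k n (pos k n) (page k n)) :
    TermOrd k (n + 1) (pos k (n + 1)) (page k (n + 1)) := by
  have hwW : wd k n ≤ Wd k n := Nat.le_add_right _ _
  have hS := S_pos k n
  have hS' : S k (n + 1) = ee k * S k n := rfl
  have hzi : pos k n (inT k n 0 0) < Wd k n :=
    (hC.lt _ (hT.rin 0 (by omega) 0 hS)).trans_le hwW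
  have hzo : ∀ t, pos k n (outT k n 0 (t % S k n)) < Wd k n := fun t =>
    (hC.lt _ (hT.rout 0 (by omega) _ (Nat.mod_lt _ hS))).trans_le hwW
  have hdiv : ∀ t < S k (n + 1), t / S k n < ee k := fun t ht =>
    Nat.div_lt_of_lt_mul (by rw [hS', Nat.mul_comm] at ht; exact ht)
  have hcin : ∀ i < 4, ∀ σ < S k (n + 1), i * S k (n + 1) + σ < 4 * S k (n + 1) := by
    intro i hi σ hσ
    have : (i + 1) * S k (n + 1) ≤ 4 * S k (n + 1) := Nat.mul_le_mul_right _ hi
    rw [Nat.add_mul, Nat.one_mul] at this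
    omega
  have hcout : ∀ s < 3, ∀ t < S k (n + 1), s * ee k + t / S k n < 3 * ee k := by
    intro s hs t ht
    have h1 : (s + 1) * ee k ≤ 3 * ee k := Nat.mul_le_mul_right _ hs
    have h2 := hdiv t ht
    rw [Nat.add_mul, Nat.one_mul] at h1
    omega
  have ein : ∀ i σ, pos k (n + 1) (inT k (n + 1) i σ) =
      (15 * (i * S k (n + 1) + σ) + 8) * Wd k n + pos k n (inT k n 0 0) := fun i σ => rfl
  have eout : ∀ s t, pos k (n + 1) (outT k (n + 1) s t) =
      (15 * (4 * S k (n + 1) + s * ee k + t / S k n) + 4) * Wd k n +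
        pos k n (outT k n 0 (t % S k n)) := fun s t => rfl
  refine ⟨?_, ?_, ?_, ?_, ?_, ?_, ?_, ?_, ?_⟩
  · intro i hi σ hσ
    refine ⟨?_, hT.rin 0 (by omega) 0 hS⟩
    have h1 := hcin i hi σ hσ
    have h2 := J_ge k n
    show i * S k (n + 1) + σ < J k n
    omega
  · intro s hs t ht
    refine ⟨?_, hT.rout 0 (by omega) _ (Nat.mod_lt _ hS)⟩
    have h1 := hcout s hs t ht
    show 4 * S k (n + 1) + s * ee k + t / S k n < J k n
    unfold J
    omega
  · intro i hi i' hi' σ hσ σ' hσ' hii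
    rw [ein, ein]
    have h1 : (i + 1) * S k (n + 1) ≤ i' * S k (n + 1) := Nat.mul_le_mul_right _ hii
    rw [Nat.add_mul, Nat.one_mul] at h1
    exact ((blk_lt hzi hzi).2 (Or.inl (by omega))).le
  · intro i hi σ' hσ' σ hσ
    rw [ein, ein]
    exact (blk_lt hzi hzi).2 (Or.inl (by omega))
  · intro s hs s' hs' t ht t' ht' hss
    rw [eout, eout]
    have h1 : (s + 1) * ee k ≤ s' * ee k := Nat.mul_le_mul_right _ hss
    rw [Nat.add_mul, Nat.one_mul] at h1
    have h2 := hdiv t ht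
    have h3 : 4 * S k (n + 1) + s * ee k + t / S k n <
        4 * S k (n + 1) + s' * ee k + t' / S k n := by
      generalize t / S k n = q at *
      generalize t' / S k n = q' at *
      omega
    exact ((blk_lt (hzo t) (hzo t')).2 (Or.inl (by omega))).le
  · intro s hs t' ht' t ht
    rw [eout, eout]
    have h1 : t / S k n ≤ t' / S k n := Nat.div_le_div_right ht.le
    rcases h1.lt_or_eq with h2 | h2
    · exact (blk_lt (hzo t) (hzo t')).2 (Or.inl (by omega))
    · refine (blk_lt (hzo t) (hzo t')).2 (Or.inr ⟨by omega, ?_⟩)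
      apply hT.o1 0 (by omega) _ (Nat.mod_lt _ hS)
      have h3 := Nat.div_add_mod t (S k n)
      have h4 := Nat.div_add_mod t' (S k n)
      rw [h2] at h3
      omega
  · intro i hi σ hσ s hs t ht
    rw [ein, eout]
    have h1 := hcin i hi σ hσ
    have h3 : i * S k (n + 1) + σ < 4 * S k (n + 1) + s * ee k + t / S k n :=
      h1.trans_le ((Nat.le_add_right _ _).trans (Nat.le_add_right _ _))
    exact ((blk_lt hzi (hzo t)).2 (Or.inl (by omega))).le
  · intro u v huv hpg i hi σ hσ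
    rw [ein]
    refine ladTerm_vis hC hT hzi
      (fun u v h h' => hT.vin u v h h' 0 (by omega) 0 hS) ?_ ?_ u v huv hpg
    · intro c j τ hok hτ t ht
      cases c with
      | A => simp only [Cn.srcK, Cn.srcS, kcode, g1code]; omega
      | B => simp only [Cn.srcK, Cn.srcS, kcode, g1code]; omega
      | C => simp only [Cn.srcK, Cn.srcS, kcode, g1code]; omega
      | D => simp only [Cn.srcK, Cn.srcS, kcode, g1code]; omega
      | Er =>
        have h1 := hT.io 0 (by omega) 0 hS 0 (by omega) τ hτ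
        simp only [Cn.srcK, Cn.srcS, kcode, g1code]; omega
      | El =>
        have h1 := hT.io 0 (by omega) 0 hS 1 (by omega) τ hτ
        simp only [Cn.srcK, Cn.srcS, kcode, g1code]; omega
    · intro c j τ hok hτ t ht
      cases c <;> simp only [Cn.dj, Cn.tgtK, Cn.tgtS, kcode, g2code] <;> omega
  · intro u v huv hpg s hs t0 ht0
    rw [eout]
    have hm := Nat.mod_lt t0 hS
    refine ladTerm_vis hC hT (hzo t0)
      (fun u v h h' => hT.vout u v h h' 0 (by omega) _ hm) ?_ ?_ u v huv hpg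
    · intro c j τ hok hτ t ht
      cases c with
      | A => simp only [Cn.srcK, Cn.srcS, kcode, g1code]; omega
      | B => simp only [Cn.srcK, Cn.srcS, kcode, g1code]; omega
      | C =>
        have h1 := hT.oo 0 (by omega) 1 (by omega) _ hm τ hτ (by omega)
        simp only [Cn.srcK, Cn.srcS, kcode, g1code]; omega
      | D =>
        have h1 := hT.oo 0 (by omega) 2 (by omega) _ hm τ hτ (by omega)
        simp only [Cn.srcK, Cn.srcS, kcode, g1code]; omega
      | Er => simp only [Cn.srcK, Cn.srcS, kcode, g1code]; omega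
      | El => simp only [Cn.srcK, Cn.srcS, kcode, g1code]; omega
    · intro c j τ hok hτ t ht
      have hτ' : S k n - 1 - τ < S k n := by omega
      cases c with
      | A =>
        have h1 := hT.io 0 (by omega) _ hτ' 0 (by omega) _ hm
        simp only [Cn.dj, Cn.tgtK, Cn.tgtS, kcode, g2code]; omega
      | B => simp only [Cn.dj, Cn.tgtK, Cn.tgtS, kcode, g2code]; omega
      | C =>
        have h1 := hT.io 1 (by omega) _ hτ' 0 (by omega) _ hm
        simp only [Cn.dj, Cn.tgtK, Cn.tgtS, kcode, g2code]; omega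
      | D => simp only [Cn.dj, Cn.tgtK, Cn.tgtS, kcode, g2code]; omega
      | Er =>
        have h1 := hT.io 2 (by omega) _ hτ' 0 (by omega) _ hm
        simp only [Cn.dj, Cn.tgtK, Cn.tgtS, kcode, g2code]; omega
      | El =>
        have h1 : j < 4 * S k (n + 1) := hok
        have h3 : j < 4 * S k (n + 1) + s * ee k + t0 / S k n :=
          h1.trans_le ((Nat.le_add_right _ _).trans (Nat.le_add_right _ _))
        simp only [Cn.dj, Cn.tgtK, Cn.tgtS, kcode, g2code]; omega

end CR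
end
end

section

section

/-!
# Tents (MP_09393f_co)
-/

namespace CR

/-- the tent over the interval `[lo, hi]` with (signed) slope `h` -/
noncomputable def tent (lo hi h X : ℝ) : ℝ := h * min (X - lo) (hi - X)

/-- sign of a page -/
def sgn (up : Bool) : ℝ := if up then 1 else -1

theorem tent_zero {lo hi X : ℝ} (h : min (X - lo) (hi - X) = 0) : X = lo ∨ X = hi := by
  rcases min_choice (X - lo) (hi - X) with h1 | h1
  · left; rw [h1] at h; linarith
  · right; rw [h1] at h; linarith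

theorem tent_nest {lo hi lo' hi' : ℕ} (h2 : lo' < hi') {e e' : ℝ} (he : 0 ≤ e)
    (he' : 0 ≤ e') (he1' : e' < 1) (hl : lo ≤ lo') (hh : hi' ≤ hi)
    (hne : lo = lo' → hi = hi' → e ≠ e') {X : ℝ} (hX : (lo : ℝ) ≤ X)
    (hX1 : X ≤ hi) (hX' : (lo' : ℝ) ≤ X) (hX1' : X ≤ hi')
    (heq : ((hi - lo : ℝ) + e) * min (X - lo) (hi - X) =
      ((hi' - lo' : ℝ) + e') * min (X - lo') (hi' - X)) :
    min (X - lo) (hi - X) = 0 ∧ min (X - (lo' : ℝ)) (hi' - X) = 0 := by
  have hm : 0 ≤ min (X - lo) (hi - X) := le_min (by linarith) (by linarith)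
  have hm' : 0 ≤ min (X - (lo' : ℝ)) (hi' - X) := le_min (by linarith) (by linarith)
  have hl' : (lo : ℝ) ≤ lo' := by exact_mod_cast hl
  have hh' : (hi' : ℝ) ≤ hi := by exact_mod_cast hh
  have hd : (lo' : ℝ) + 1 ≤ hi' := by exact_mod_cast h2
  by_cases hsame : lo = lo' ∧ hi = hi'
  · obtain ⟨rfl, rfl⟩ := hsame
    have h3 := hne rfl rfl
    have h4 : (e - e') * min (X - lo) (hi - X) = 0 := by linarith
    rcases mul_eq_zero.1 h4 with h5 | h5
    · exact absurd (by linarith) h3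
    · exact ⟨h5, h5⟩
  · have hgap : (hi' : ℝ) - lo' + 1 ≤ hi - lo := by
      have h3 : hi' + lo + 1 ≤ hi + lo' := by omega
      have h4 : (hi' : ℝ) + lo + 1 ≤ hi + lo' := by exact_mod_cast h3
      linarith
    have hle : min (X - (lo' : ℝ)) (hi' - X) ≤ min (X - lo) (hi - X) :=
      le_min ((min_le_left _ _).trans (by linarith)) ((min_le_right _ _).trans (by linarith))
    set m := min (X - lo) (hi - X)
    set m' := min (X - (lo' : ℝ)) (hi' - X)
    have hs : (hi' - lo' : ℝ) + e' < (hi - lo : ℝ) + e := by linarith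
    have hs' : 0 < (hi' - lo' : ℝ) + e' := by linarith
    have hm0 : m' = 0 := by
      by_contra hne0
      have hpos : 0 < m' := lt_of_le_of_ne hm' (Ne.symm hne0)
      have h3 : ((hi' - lo' : ℝ) + e') * m' < ((hi - lo : ℝ) + e) * m' :=
        mul_lt_mul_of_pos_right hs hpos
      have h4 : ((hi - lo : ℝ) + e) * m' ≤ ((hi - lo : ℝ) + e) * m :=
        mul_le_mul_of_nonneg_left hle (by linarith)
      linarith
    refine ⟨?_, hm0⟩
    rw [hm0, mul_zero] at heq
    rcases mul_eq_zero.1 heq with h5 | h5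
    · linarith
    · exact h5

theorem tent_key {lo hi lo' hi' : ℕ} (h1 : lo < hi) (h2 : lo' < hi') {e e' : ℝ} (he : 0 ≤ e)
    (he1 : e < 1) (he' : 0 ≤ e') (he1' : e' < 1) {up up' : Bool}
    (hnc : up = up' → ¬ (lo < lo' ∧ lo' < hi ∧ hi < hi') ∧ ¬ (lo' < lo ∧ lo < hi' ∧ hi' < hi))
    (hne : up = up' → lo = lo' → hi = hi' → e ≠ e') {X : ℝ} (hX : (lo : ℝ) ≤ X)
    (hX1 : X ≤ hi) (hX' : (lo' : ℝ) ≤ X) (hX1' : X ≤ hi')
    (heq : tent lo hi (sgn up * ((hi - lo : ℝ) + e)) X =
      tent lo' hi' (sgn up' * ((hi' - lo' : ℝ) + e')) X) :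
    (X = lo ∨ X = hi) ∧ (X = lo' ∨ X = hi') := by
  have hd : (lo : ℝ) + 1 ≤ hi := by exact_mod_cast h1
  have hd' : (lo' : ℝ) + 1 ≤ hi' := by exact_mod_cast h2
  have hm : 0 ≤ min (X - lo) (hi - X) := le_min (by linarith) (by linarith)
  have hm' : 0 ≤ min (X - (lo' : ℝ)) (hi' - X) := le_min (by linarith) (by linarith)
  have hs : 0 < (hi - lo : ℝ) + e := by linarith
  have hs' : 0 < (hi' - lo' : ℝ) + e' := by linarith
  unfold tent at heq
  suffices h : min (X - lo) (hi - X) = 0 ∧ min (X - (lo' : ℝ)) (hi' - X) = 0 from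
    ⟨tent_zero h.1, tent_zero h.2⟩
  by_cases hup : up = up'
  · subst hup
    have heq' : ((hi - lo : ℝ) + e) * min (X - lo) (hi - X) =
        ((hi' - lo' : ℝ) + e') * min (X - lo') (hi' - X) := by
      rw [mul_assoc, mul_assoc] at heq
      refine mul_left_cancel₀ ?_ heq
      unfold sgn
      split_ifs <;> norm_num
    obtain ⟨hn1, hn2⟩ := hnc rfl
    rcases (show hi ≤ lo' ∨ hi' ≤ lo ∨ (lo ≤ lo' ∧ hi' ≤ hi) ∨ (lo' ≤ lo ∧ hi ≤ hi') by omega)
      with h | h | h | h
    · have h3 : (hi : ℝ) ≤ lo' := by exact_mod_cast h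
      have h4 : X = hi := by linarith
      have h5 : X = lo' := by linarith
      constructor
      · rw [min_eq_right (by linarith)]; linarith
      · rw [min_eq_left (by linarith)]; linarith
    · have h3 : (hi' : ℝ) ≤ lo := by exact_mod_cast h
      have h4 : X = hi' := by linarith
      have h5 : X = lo := by linarith
      constructor
      · rw [min_eq_left (by linarith)]; linarith
      · rw [min_eq_right (by linarith)]; linarith
    · exact tent_nest h2 he he' he1' h.1 h.2 (hne rfl) hX hX1 hX' hX1' heq'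
    · have := tent_nest h1 he' he he1 h.1 h.2
        (fun h3 h4 h5 => hne rfl h3.symm h4.symm h5.symm) hX' hX1' hX hX1 heq'.symm
      exact ⟨this.2, this.1⟩
  · have h3 : 0 ≤ ((hi - lo : ℝ) + e) * min (X - lo) (hi - X) := mul_nonneg hs.le hm
    have h4 : 0 ≤ ((hi' - lo' : ℝ) + e') * min (X - lo') (hi' - X) := mul_nonneg hs'.le hm'
    have h5 : ((hi - lo : ℝ) + e) * min (X - lo) (hi - X) = 0 ∧
        ((hi' - lo' : ℝ) + e') * min (X - lo') (hi' - X) = 0 := by
      rw [mul_assoc, mul_assoc] at heq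
      unfold sgn at heq
      cases up <;> cases up'
      · exact absurd rfl hup
      · simp only [Bool.false_eq_true, if_false, if_true] at heq
        constructor <;> linarith
      · simp only [Bool.false_eq_true, if_false, if_true] at heq
        constructor <;> linarith
      · exact absurd rfl hup
    constructor
    · rcases mul_eq_zero.1 h5.1 with h6 | h6
      · linarith
      · exact h6
    · rcases mul_eq_zero.1 h5.2 with h6 | h6
      · linarith
      · exact h6

end CR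
end

section

/-!
# Drawing a two-page book embedding with parallel paths (MP_09393f_co)

In this Mathlib `Sym2.mk` is curried, so `Sym2.mk (u, v) ≠ Sym2.mk (x, y)` only says
`(u, v) ≠ (x, y)`: the two curves `γ u v` and `γ v u` of one edge have to be internally disjoint.
We therefore draw every edge twice.
-/

namespace CR

/-- a two-page book embedding of a digraph: `page` tells whether the arc is drawn above -/
structure Book {V : Type} (A : V → V → Prop) (pos : V → ℕ) (page : V → V → Bool) : Prop where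
  inj : Function.Injective pos
  nc : ∀ u v x y, A u v → A x y → page u v = page x y →
    ¬ (min (pos u) (pos v) < min (pos x) (pos y) ∧ min (pos x) (pos y) < max (pos u) (pos v) ∧
      max (pos u) (pos v) < max (pos x) (pos y))

/-- a point of the plane -/
noncomputable def bpPt (x y : ℝ) : EuclideanSpace ℝ (Fin 2) := !₂[x, y]

theorem bpPt_inj {x y x' y' : ℝ} (h : bpPt x y = bpPt x' y') : x = x' ∧ y = y' := by
  constructor
  · have := congrArg (fun p : EuclideanSpace ℝ (Fin 2) => p 0) h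
    simpa [bpPt] using this
  · have := congrArg (fun p : EuclideanSpace ℝ (Fin 2) => p 1) h
    simpa [bpPt] using this

theorem bpPt_cont {α : Type} [TopologicalSpace α] {g h : α → ℝ} (hg : Continuous g)
    (hh : Continuous h) : Continuous (fun s => bpPt (g s) (h s)) := by
  unfold bpPt
  refine (PiLp.continuous_toLp 2 _).comp ?_
  refine continuous_pi ?_
  intro i
  fin_cases i
  · simpa using hg
  · simpa using hh

/-- levels of the roads -/
noncomputable def bpC (k : ℕ) : ℝ := (k : ℝ) / ((k : ℝ) + 1)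

theorem bpC_nonneg (k : ℕ) : 0 ≤ bpC k := by unfold bpC; positivity

theorem bpC_lt_one (k : ℕ) : bpC k < 1 := by
  unfold bpC
  rw [div_lt_one (by positivity)]
  linarith

theorem bpC_mono {j k : ℕ} (h : j < k) : bpC j < bpC k := by
  unfold bpC
  rw [div_lt_div_iff₀ (by positivity) (by positivity)]
  have : (j : ℝ) < k := by exact_mod_cast h
  nlinarith

theorem bpC_mono' {j k : ℕ} (h : j ≤ k) : bpC j ≤ bpC k := by
  rcases h.lt_or_eq with h | h
  · exact (bpC_mono h).le
  · rw [h]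

/-- profile of a road -/
noncomputable def bpP (lo hi : ℝ) (k : ℕ) (d : Bool) (X : ℝ) : ℝ :=
  bpC k + if d then (bpC (k + 1) - bpC k) / 2 * (if k = 0 then 1 else |2 * X - lo - hi| / (hi - lo))
    else 0

theorem bpP_bounds {lo hi : ℝ} (h : lo < hi) (k : ℕ) (d : Bool) {X : ℝ} (h1 : lo ≤ X)
    (h2 : X ≤ hi) : bpC k ≤ bpP lo hi k d X ∧ bpP lo hi k d X < bpC (k + 1) := by
  have hc : bpC k < bpC (k + 1) := bpC_mono (Nat.lt_succ_self k)
  unfold bpP
  rcases d with _ | _
  · simp only [Bool.false_eq_true, if_false, add_zero]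
    exact ⟨le_rfl, hc⟩
  · simp only [if_true]
    have hf0 : 0 ≤ (if k = 0 then (1 : ℝ) else |2 * X - lo - hi| / (hi - lo)) := by
      split_ifs
      · norm_num
      · exact div_nonneg (abs_nonneg _) (by linarith)
    have hf1 : (if k = 0 then (1 : ℝ) else |2 * X - lo - hi| / (hi - lo)) ≤ 1 := by
      split_ifs
      · norm_num
      · rw [div_le_one (by linarith), abs_le]
        constructor <;> linarith
    constructor
    · have := mul_nonneg (a := (bpC (k + 1) - bpC k) / 2) (by linarith) hf0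
      linarith
    · have := mul_le_mul_of_nonneg_left hf1 (a := (bpC (k + 1) - bpC k) / 2) (by linarith)
      linarith

theorem bpP_eq {lo hi : ℝ} (h : lo < hi) {k k' : ℕ} {d d' : Bool} {X : ℝ} (h1 : lo ≤ X)
    (h2 : X ≤ hi) (he : bpP lo hi k d X = bpP lo hi k' d' X) :
    k = k' ∧ (d = d' ∨ (k ≠ 0 ∧ X = (lo + hi) / 2)) := by
  have b := bpP_bounds h k d h1 h2
  have b' := bpP_bounds h k' d' h1 h2
  have hk : k = k' := by
    rcases lt_trichotomy k k' with hlt | heq | hgt
    · exfalso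
      have := bpC_mono' (show k + 1 ≤ k' from hlt)
      linarith
    · exact heq
    · exfalso
      have := bpC_mono' (show k' + 1 ≤ k from hgt)
      linarith
  subst hk
  refine ⟨rfl, ?_⟩
  by_cases hd : d = d'
  · left; exact hd
  right
  have hc : bpC k < bpC (k + 1) := bpC_mono (Nat.lt_succ_self k)
  have key : (bpC (k + 1) - bpC k) / 2 * (if k = 0 then (1 : ℝ) else
      |2 * X - lo - hi| / (hi - lo)) = 0 := by
    unfold bpP at he
    rcases d with _ | _ <;> rcases d' with _ | _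
    · exact absurd rfl hd
    · simp only [Bool.false_eq_true, if_false, if_true, add_zero] at he
      linarith
    · simp only [Bool.false_eq_true, if_false, if_true, add_zero] at he
      linarith
    · exact absurd rfl hd
  rcases mul_eq_zero.mp key with h3 | h3
  · exfalso; linarith
  · by_cases hk0 : k = 0
    · rw [if_pos hk0] at h3
      norm_num at h3
    · rw [if_neg hk0] at h3
      refine ⟨hk0, ?_⟩
      rcases div_eq_zero_iff.mp h3 with h4 | h4
      · have := abs_eq_zero.mp h4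
        linarith
      · exfalso; linarith

/-- lower end -/
def bpLo {V : Type} (pos : V → ℕ) (r : V × V × ℕ) : ℕ := min (pos r.1) (pos r.2.1)
/-- upper end -/
def bpHi {V : Type} (pos : V → ℕ) (r : V × V × ℕ) : ℕ := max (pos r.1) (pos r.2.1)

/-- heights of the road over the arc `r.1 → r.2.1` of level `r.2.2`, copy `d` -/
noncomputable def bpF {V : Type} (pos : V → ℕ) (page : V → V → Bool) (r : V × V × ℕ) (d : Bool)
    (X : ℝ) : ℝ :=
  tent (bpLo pos r : ℝ) (bpHi pos r : ℝ) (sgn (page r.1 r.2.1) * (((bpHi pos r : ℝ) -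
    (bpLo pos r : ℝ)) + bpP (bpLo pos r : ℝ) (bpHi pos r : ℝ) r.2.2 d X)) X

/-- road of a new vertex -/
def bpR {V : Type} {A : V → V → Prop} {m : V → V → ℕ} (q : EVert A m) : V × V × ℕ :=
  (q.1.1, q.1.2.1, q.1.2.2 + 1)

theorem bpR_inj {V : Type} {A : V → V → Prop} {m : V → V → ℕ} {q q' : EVert A m}
    (h : bpR q = bpR q') : q = q' := by
  simp only [bpR, Prod.mk.injEq] at h
  exact Subtype.ext (Prod.ext h.1 (Prod.ext h.2.1 (by omega)))

theorem bpR_ne {V : Type} {A : V → V → Prop} {m : V → V → ℕ} (q : EVert A m) :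
    (bpR q).2.2 ≠ 0 := by
  simp [bpR]

/-- midpoint of a road -/
noncomputable def bpMid {V : Type} (pos : V → ℕ) (r : V × V × ℕ) : ℝ :=
  ((bpLo pos r : ℝ) + (bpHi pos r : ℝ)) / 2

/-- first coordinate of a vertex -/
noncomputable def bpX {V : Type} {A : V → V → Prop} {m : V → V → ℕ} (pos : V → ℕ) :
    V ⊕ EVert A m → ℝ
  | Sum.inl v => (pos v : ℝ)
  | Sum.inr q => bpMid pos (bpR q)

/-- second coordinate of a vertex -/
noncomputable def bpY {V : Type} {A : V → V → Prop} {m : V → V → ℕ} (pos : V → ℕ)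
    (page : V → V → Bool) : V ⊕ EVert A m → ℝ
  | Sum.inl _ => 0
  | Sum.inr q => bpF pos page (bpR q) false (bpMid pos (bpR q))

open Classical in
/-- road of an edge -/
noncomputable def bpRd {V : Type} {A : V → V → Prop} {m : V → V → ℕ} :
    V ⊕ EVert A m → V ⊕ EVert A m → V × V × ℕ
  | Sum.inl u, Sum.inl v => if A u v then (u, v, 0) else (v, u, 0)
  | Sum.inl _, Sum.inr q => bpR q
  | Sum.inr q, Sum.inl _ => bpR q
  | Sum.inr q, Sum.inr _ => bpR q

open Classical in
/-- copy of an edge -/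
noncomputable def bpD {V : Type} {A : V → V → Prop} {m : V → V → ℕ} :
    V ⊕ EVert A m → V ⊕ EVert A m → Bool
  | Sum.inl u, Sum.inl v => if A u v then false else true
  | Sum.inl _, Sum.inr _ => true
  | Sum.inr _, Sum.inl _ => false
  | Sum.inr _, Sum.inr _ => false

/-- an ordered edge lies on a copy of a road -/
def bpOn {V : Type} {A : V → V → Prop} {m : V → V → ℕ} (a b : V ⊕ EVert A m)
    (r : V × V × ℕ) (d : Bool) : Prop :=
  A r.1 r.2.1 ∧ ((r.2.2 = 0 ∧ ((a = Sum.inl r.1 ∧ b = Sum.inl r.2.1 ∧ d = false) ∨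
      (a = Sum.inl r.2.1 ∧ b = Sum.inl r.1 ∧ d = true))) ∨
    ∃ q : EVert A m, r = bpR q ∧
      ((a = Sum.inr q ∧ d = false ∧ (b = Sum.inl r.1 ∨ b = Sum.inl r.2.1)) ∨
        (b = Sum.inr q ∧ d = true ∧ (a = Sum.inl r.1 ∨ a = Sum.inl r.2.1))))

theorem bpOn_rd {V : Type} {A : V → V → Prop} {m : V → V → ℕ} {a b : V ⊕ EVert A m}
    (h : (SimpleGraph.fromRel (EAdj A m)).Adj a b) : bpOn a b (bpRd a b) (bpD a b) := by
  rw [SimpleGraph.fromRel_adj] at h
  obtain ⟨hne, h⟩ := h
  rcases a with u | q <;> rcases b with v | q'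
  · simp only [EAdj] at h
    by_cases hA : A u v
    · have e : bpRd (Sum.inl u : V ⊕ EVert A m) (Sum.inl v) = (u, v, 0) := by
        simp only [bpRd, hA, if_true]
      have e' : bpD (Sum.inl u : V ⊕ EVert A m) (Sum.inl v) = false := by
        simp only [bpD, hA, if_true]
      rw [e, e']
      exact ⟨hA, Or.inl ⟨rfl, Or.inl ⟨rfl, rfl, rfl⟩⟩⟩
    · have hA' : A v u := by tauto
      have e : bpRd (Sum.inl u : V ⊕ EVert A m) (Sum.inl v) = (v, u, 0) := by
        simp only [bpRd, hA, if_false]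
      have e' : bpD (Sum.inl u : V ⊕ EVert A m) (Sum.inl v) = true := by
        simp only [bpD, hA, if_false]
      rw [e, e']
      exact ⟨hA', Or.inl ⟨rfl, Or.inr ⟨rfl, rfl, rfl⟩⟩⟩
  · simp only [EAdj] at h
    refine ⟨q'.2.1, Or.inr ⟨q', rfl, Or.inr ⟨rfl, rfl, ?_⟩⟩⟩
    rcases h with h | h
    · left; rw [h]; rfl
    · right; rw [h]; rfl
  · simp only [EAdj] at h
    refine ⟨q.2.1, Or.inr ⟨q, rfl, Or.inl ⟨rfl, rfl, ?_⟩⟩⟩
    rcases h with h | h
    · right; rw [h]; rfl
    · left; rw [h]; rfl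
  · simp only [EAdj] at h
    tauto

theorem bp_lo_lt {V : Type} {A : V → V → Prop} {pos : V → ℕ} {page : V → V → Bool}
    (hB : Book A pos page) (hA : ∀ u v, A u v → ¬ A v u) {r : V × V × ℕ} (hr : A r.1 r.2.1) :
    bpLo pos r < bpHi pos r := by
  unfold bpLo bpHi
  have hne : pos r.1 ≠ pos r.2.1 := by
    intro h
    have := hB.inj h
    rw [this] at hr
    exact hA _ _ hr hr
  rcases lt_or_gt_of_ne hne with h | h
  · rw [min_eq_left h.le, max_eq_right h.le]; exact h
  · rw [min_eq_right h.le, max_eq_left h.le]; exact h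

/-- the key fact -/
theorem bp_key {V : Type} {A : V → V → Prop} {pos : V → ℕ} {page : V → V → Bool}
    (hB : Book A pos page) (hA : ∀ u v, A u v → ¬ A v u) {r r' : V × V × ℕ} {d d' : Bool}
    (hr : A r.1 r.2.1) (hr' : A r'.1 r'.2.1) {X : ℝ} (h1 : (bpLo pos r : ℝ) ≤ X)
    (h2 : X ≤ bpHi pos r) (h1' : (bpLo pos r' : ℝ) ≤ X) (h2' : X ≤ bpHi pos r')
    (heq : bpF pos page r d X = bpF pos page r' d' X) :
    (r = r' ∧ (d = d' ∨ (r.2.2 ≠ 0 ∧ X = bpMid pos r))) ∨
      ((X = bpLo pos r ∨ X = bpHi pos r) ∧ (X = bpLo pos r' ∨ X = bpHi pos r')) := by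
  by_cases hrr : r = r' ∧ (d = d' ∨ (r.2.2 ≠ 0 ∧ X = bpMid pos r))
  · left; exact hrr
  right
  have hlt : (bpLo pos r : ℝ) < bpHi pos r := by exact_mod_cast bp_lo_lt hB hA hr
  have hlt' : (bpLo pos r' : ℝ) < bpHi pos r' := by exact_mod_cast bp_lo_lt hB hA hr'
  have b := bpP_bounds hlt r.2.2 d h1 h2
  have b' := bpP_bounds hlt' r'.2.2 d' h1' h2'
  have c1 := bpC_nonneg r.2.2
  have c1' := bpC_nonneg r'.2.2
  have c2 := bpC_lt_one (r.2.2 + 1)
  have c2' := bpC_lt_one (r'.2.2 + 1)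
  refine tent_key (bp_lo_lt hB hA hr) (bp_lo_lt hB hA hr')
    (e := bpP (bpLo pos r : ℝ) (bpHi pos r : ℝ) r.2.2 d X)
    (e' := bpP (bpLo pos r' : ℝ) (bpHi pos r' : ℝ) r'.2.2 d' X)
    (c1.trans b.1) (b.2.trans c2) (c1'.trans b'.1) (b'.2.trans c2')
    (up := page r.1 r.2.1) (up' := page r'.1 r'.2.1) ?_ ?_ h1 h2 h1' h2' heq
  · intro hp
    exact ⟨hB.nc _ _ _ _ hr hr' hp, hB.nc _ _ _ _ hr' hr hp.symm⟩
  · intro hp hlo hhi hee
    apply hrr
    have hcases : (pos r.1 = pos r'.1 ∧ pos r.2.1 = pos r'.2.1) ∨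
        (pos r.1 = pos r'.2.1 ∧ pos r.2.1 = pos r'.1) := by
      unfold bpLo at hlo
      unfold bpHi at hhi
      omega
    rcases hcases with ⟨h3, h4⟩ | ⟨h3, h4⟩
    · rw [← hlo, ← hhi] at hee
      obtain ⟨h5, h6⟩ := bpP_eq hlt h1 h2 hee
      exact ⟨Prod.ext (hB.inj h3) (Prod.ext (hB.inj h4) h5), h6⟩
    · exfalso
      have h3 := hB.inj h3
      have h4 := hB.inj h4
      rw [h3, h4] at hr
      exact hA _ _ hr' hr

theorem bpF_lo {V : Type} {pos : V → ℕ} {page : V → V → Bool} (r : V × V × ℕ) (d : Bool) :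
    bpF pos page r d (bpLo pos r) = 0 := by
  have h : ((bpLo pos r : ℕ) : ℝ) ≤ ((bpHi pos r : ℕ) : ℝ) := by
    exact_mod_cast min_le_max
  unfold bpF tent
  rw [sub_self, min_eq_left (by linarith), mul_zero]

theorem bpF_hi {V : Type} {pos : V → ℕ} {page : V → V → Bool} (r : V × V × ℕ) (d : Bool) :
    bpF pos page r d (bpHi pos r) = 0 := by
  have h : ((bpLo pos r : ℕ) : ℝ) ≤ ((bpHi pos r : ℕ) : ℝ) := by
    exact_mod_cast min_le_max
  unfold bpF tent
  rw [sub_self, min_eq_right (by linarith), mul_zero]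

/-- the two copies meet over the midpoint (new vertices only) -/
theorem bpF_mid {V : Type} {pos : V → ℕ} {page : V → V → Bool} {r : V × V × ℕ}
    (hr : r.2.2 ≠ 0) (d : Bool) :
    bpF pos page r d (bpMid pos r) = bpF pos page r false (bpMid pos r) := by
  unfold bpF
  congr 3
  unfold bpP bpMid
  rcases d with _ | _
  · rfl
  · simp only [if_true, hr, if_false, Bool.false_eq_true]
    have : 2 * (((bpLo pos r : ℝ) + (bpHi pos r : ℝ)) / 2) - (bpLo pos r : ℝ) -
        (bpHi pos r : ℝ) = 0 := by ring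
    rw [this]
    simp

theorem bpF_zero {V : Type} {A : V → V → Prop} {pos : V → ℕ} {page : V → V → Bool}
    (hB : Book A pos page) (hA : ∀ u v, A u v → ¬ A v u) {r : V × V × ℕ} (hr : A r.1 r.2.1)
    {d : Bool} {X : ℝ} (h1 : (bpLo pos r : ℝ) ≤ X) (h2 : X ≤ bpHi pos r)
    (h : bpF pos page r d X = 0) : X = bpLo pos r ∨ X = bpHi pos r := by
  have hlt : (bpLo pos r : ℝ) < bpHi pos r := by exact_mod_cast bp_lo_lt hB hA hr
  have b := bpP_bounds hlt r.2.2 d h1 h2
  have c1 := bpC_nonneg r.2.2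
  unfold bpF tent at h
  rcases mul_eq_zero.mp h with h | h
  · exfalso
    rcases mul_eq_zero.mp h with h | h
    · unfold sgn at h
      split_ifs at h <;> norm_num at h
    · linarith
  · rcases le_total (X - bpLo pos r) (bpHi pos r - X) with h3 | h3
    · rw [min_eq_left h3] at h
      left; linarith
    · rw [min_eq_right h3] at h
      right; linarith

theorem bp_mid {V : Type} {A : V → V → Prop} {pos : V → ℕ} {page : V → V → Bool}
    (hB : Book A pos page) (hA : ∀ u v, A u v → ¬ A v u) {r : V × V × ℕ} (hr : A r.1 r.2.1) :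
    (bpLo pos r : ℝ) < bpMid pos r ∧ bpMid pos r < bpHi pos r := by
  have hlt : (bpLo pos r : ℝ) < bpHi pos r := by exact_mod_cast bp_lo_lt hB hA hr
  unfold bpMid
  constructor <;> linarith

theorem bp_ends {V : Type} {pos : V → ℕ} (r : V × V × ℕ) :
    ((pos r.1 : ℝ) = bpLo pos r ∧ (pos r.2.1 : ℝ) = bpHi pos r) ∨
    ((pos r.1 : ℝ) = bpHi pos r ∧ (pos r.2.1 : ℝ) = bpLo pos r) := by
  unfold bpLo bpHi
  rcases le_total (pos r.1) (pos r.2.1) with h | h
  · left
    rw [min_eq_left h, max_eq_right h]; exact ⟨rfl, rfl⟩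
  · right
    rw [min_eq_right h, max_eq_left h]; exact ⟨rfl, rfl⟩

/-- the data of one edge on its road -/
theorem bp_edge {V : Type} {A : V → V → Prop} {pos : V → ℕ} {page : V → V → Bool}
    {m : V → V → ℕ}
    (hB : Book A pos page) (hA : ∀ u v, A u v → ¬ A v u) {a b : V ⊕ EVert A m}
    {r : V × V × ℕ} {d : Bool} (h : bpOn a b r d) :
    (bpLo pos r : ℝ) ≤ bpX pos a ∧ bpX pos a ≤ bpHi pos r ∧
    (bpLo pos r : ℝ) ≤ bpX pos b ∧ bpX pos b ≤ bpHi pos r ∧ bpX pos a ≠ bpX pos b ∧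
    bpF pos page r d (bpX pos a) = bpY pos page a ∧
    bpF pos page r d (bpX pos b) = bpY pos page b := by
  obtain ⟨hr, h⟩ := h
  have hlt : (bpLo pos r : ℝ) < bpHi pos r := by exact_mod_cast bp_lo_lt hB hA hr
  have hm := bp_mid hB hA hr
  have hE := bp_ends (pos := pos) r
  have hF1 : bpF pos page r d (pos r.1) = 0 := by
    rcases hE with ⟨h1, h2⟩ | ⟨h1, h2⟩
    · rw [h1]; exact bpF_lo r d
    · rw [h1]; exact bpF_hi r d
  have hF2 : bpF pos page r d (pos r.2.1) = 0 := by
    rcases hE with ⟨h1, h2⟩ | ⟨h1, h2⟩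
    · rw [h2]; exact bpF_hi r d
    · rw [h2]; exact bpF_lo r d
  have hE1 : (bpLo pos r : ℝ) ≤ pos r.1 ∧ (pos r.1 : ℝ) ≤ bpHi pos r := by
    rcases hE with ⟨h1, h2⟩ | ⟨h1, h2⟩ <;> rw [h1] <;> constructor <;> linarith
  have hE2 : (bpLo pos r : ℝ) ≤ pos r.2.1 ∧ (pos r.2.1 : ℝ) ≤ bpHi pos r := by
    rcases hE with ⟨h1, h2⟩ | ⟨h1, h2⟩ <;> rw [h2] <;> constructor <;> linarith
  have hE3 : (pos r.1 : ℝ) ≠ pos r.2.1 := by
    rcases hE with ⟨h1, h2⟩ | ⟨h1, h2⟩ <;> rw [h1, h2]
    · exact hlt.ne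
    · exact hlt.ne'
  have hE4 : bpMid pos r ≠ pos r.1 := by
    rcases hE with ⟨h1, h2⟩ | ⟨h1, h2⟩ <;> rw [h1]
    · exact hm.1.ne'
    · exact hm.2.ne
  have hE5 : bpMid pos r ≠ pos r.2.1 := by
    rcases hE with ⟨h1, h2⟩ | ⟨h1, h2⟩ <;> rw [h2]
    · exact hm.2.ne
    · exact hm.1.ne'
  rcases h with ⟨_, ⟨rfl, rfl, _⟩ | ⟨rfl, rfl, _⟩⟩ |
    ⟨q, hq, ⟨rfl, _, rfl | rfl⟩ | ⟨rfl, _, rfl | rfl⟩⟩
  · exact ⟨hE1.1, hE1.2, hE2.1, hE2.2, hE3, hF1, hF2⟩
  · exact ⟨hE2.1, hE2.2, hE1.1, hE1.2, hE3.symm, hF2, hF1⟩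
  · have hne : r.2.2 ≠ 0 := by rw [hq]; exact bpR_ne q
    simp only [bpX, bpY, ← hq]
    exact ⟨hm.1.le, hm.2.le, hE1.1, hE1.2, hE4, bpF_mid hne d, hF1⟩
  · have hne : r.2.2 ≠ 0 := by rw [hq]; exact bpR_ne q
    simp only [bpX, bpY, ← hq]
    exact ⟨hm.1.le, hm.2.le, hE2.1, hE2.2, hE5, bpF_mid hne d, hF2⟩
  · have hne : r.2.2 ≠ 0 := by rw [hq]; exact bpR_ne q
    simp only [bpX, bpY, ← hq]
    exact ⟨hE1.1, hE1.2, hm.1.le, hm.2.le, hE4.symm, hF1, bpF_mid hne d⟩
  · have hne : r.2.2 ≠ 0 := by rw [hq]; exact bpR_ne q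
    simp only [bpX, bpY, ← hq]
    exact ⟨hE2.1, hE2.2, hm.1.le, hm.2.le, hE5.symm, hF2, bpF_mid hne d⟩

/-- a point of the edge over an end of the road is an end of the edge -/
theorem bp_edge_end {V : Type} {A : V → V → Prop} {pos : V → ℕ} {page : V → V → Bool}
    {m : V → V → ℕ}
    (hB : Book A pos page) (hA : ∀ u v, A u v → ¬ A v u) {a b : V ⊕ EVert A m}
    {r : V × V × ℕ} {d : Bool} (h : bpOn a b r d) {X s : ℝ} (hs0 : 0 ≤ s) (hs1 : s ≤ 1)
    (hX : X = (1 - s) * bpX pos a + s * bpX pos b)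
    (hXe : X = bpLo pos r ∨ X = bpHi pos r) :
    ∃ z, (z = a ∨ z = b) ∧ X = bpX pos z ∧ bpF pos page r d X = bpY pos page z := by
  obtain ⟨h1, h2, h3, h4, h5, h6, h7⟩ := bp_edge (page := page) hB hA h
  have key : X = bpX pos a ∨ X = bpX pos b := by
    by_cases hs : s = 0
    · left; rw [hX, hs]; ring
    by_cases hs' : s = 1
    · right; rw [hX, hs']; ring
    exfalso
    have hs0' : 0 < s := lt_of_le_of_ne hs0 (Ne.symm hs)
    have hs1' : s < 1 := lt_of_le_of_ne hs1 hs'
    rcases hXe with he | he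
    · have ha : bpX pos a = bpLo pos r := by
        by_contra hne
        have : (bpLo pos r : ℝ) < bpX pos a := lt_of_le_of_ne h1 (Ne.symm hne)
        nlinarith
      have hb : bpX pos b = bpLo pos r := by
        by_contra hne
        have : (bpLo pos r : ℝ) < bpX pos b := lt_of_le_of_ne h3 (Ne.symm hne)
        nlinarith
      exact h5 (ha.trans hb.symm)
    · have ha : bpX pos a = bpHi pos r := by
        by_contra hne
        have : bpX pos a < (bpHi pos r : ℝ) := lt_of_le_of_ne h2 hne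
        nlinarith
      have hb : bpX pos b = bpHi pos r := by
        by_contra hne
        have : bpX pos b < (bpHi pos r : ℝ) := lt_of_le_of_ne h4 hne
        nlinarith
      exact h5 (ha.trans hb.symm)
  rcases key with k | k
  · exact ⟨a, Or.inl rfl, k, by rw [k]; exact h6⟩
  · exact ⟨b, Or.inr rfl, k, by rw [k]; exact h7⟩

/-- the embedding is injective -/
theorem bp_inj {V : Type} {A : V → V → Prop} {pos : V → ℕ} {page : V → V → Bool}
    {m : V → V → ℕ}
    (hB : Book A pos page) (hA : ∀ u v, A u v → ¬ A v u) {a b : V ⊕ EVert A m}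
    (hX : bpX pos a = bpX pos b) (hY : bpY pos page a = bpY pos page b) : a = b := by
  have hne : ∀ (u : V) (q : EVert A m), bpY pos page (Sum.inl u : V ⊕ EVert A m) ≠
      bpY pos page (Sum.inr q : V ⊕ EVert A m) := by
    intro u q h
    simp only [bpY] at h
    have hq : A (bpR q).1 (bpR q).2.1 := q.2.1
    have hm := bp_mid hB hA hq
    rcases bpF_zero hB hA hq hm.1.le hm.2.le h.symm with h' | h'
    · exact hm.1.ne' h'
    · exact hm.2.ne h'
  rcases a with u | q <;> rcases b with v | q'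
  · simp only [bpX] at hX
    have : pos u = pos v := by exact_mod_cast hX
    rw [hB.inj this]
  · exact absurd hY (hne u q')
  · exact absurd hY.symm (hne v q)
  · have hq : A (bpR q).1 (bpR q).2.1 := q.2.1
    have hq' : A (bpR q').1 (bpR q').2.1 := q'.2.1
    have hm := bp_mid hB hA hq
    have hm' := bp_mid hB hA hq'
    simp only [bpX, bpY] at hX hY
    rw [← hX] at hY hm'
    rcases bp_key hB hA hq hq' hm.1.le hm.2.le hm'.1.le hm'.2.le hY with ⟨h, _⟩ | ⟨h | h, _⟩
    · rw [bpR_inj h]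
    · exact absurd h hm.1.ne'
    · exact absurd h hm.2.ne

theorem book_planar {V : Type} {A : V → V → Prop} {pos : V → ℕ} {page : V → V → Bool}
    (m : V → V → ℕ) (hB : Book A pos page) (hA : ∀ u v, A u v → ¬ A v u) :
    ∃ f : V ⊕ EVert A m → EuclideanSpace ℝ (Fin 2), Function.Injective f ∧
      ∃ γ : V ⊕ EVert A m → V ⊕ EVert A m → (unitInterval → EuclideanSpace ℝ (Fin 2)),
        (∀ u v, (SimpleGraph.fromRel (EAdj A m)).Adj u v →
          Continuous (γ u v) ∧ Function.Injective (γ u v) ∧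
          γ u v 0 = f u ∧ γ u v 1 = f v) ∧
        (∀ u v w, (SimpleGraph.fromRel (EAdj A m)).Adj u v →
          ∀ s, γ u v s = f w → w = u ∨ w = v) ∧
        (∀ u v x y, (SimpleGraph.fromRel (EAdj A m)).Adj u v →
          (SimpleGraph.fromRel (EAdj A m)).Adj x y →
          Sym2.mk (u, v) ≠ Sym2.mk (x, y) →
          ∀ s t, γ u v s = γ x y t →
            ∃ z, (z = u ∨ z = v) ∧ (z = x ∨ z = y) ∧ γ u v s = f z) := by
  classical
  refine ⟨fun a => bpPt (bpX pos a) (bpY pos page a), ?_,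
    fun a b s => bpPt ((1 - (s : ℝ)) * bpX pos a + (s : ℝ) * bpX pos b)
      (bpF pos page (bpRd a b) (bpD a b) ((1 - (s : ℝ)) * bpX pos a + (s : ℝ) * bpX pos b)),
      ?_, ?_, ?_⟩
  · intro a b h
    obtain ⟨h1, h2⟩ := bpPt_inj h
    exact bp_inj hB hA h1 h2
  · intro a b hab
    have hon := bpOn_rd hab
    obtain ⟨h1, h2, h3, h4, h5, h6, h7⟩ := bp_edge (page := page) hB hA hon
    have hXc : Continuous (fun s : unitInterval =>
        (1 - (s : ℝ)) * bpX pos a + (s : ℝ) * bpX pos b) := by fun_prop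
    refine ⟨?_, ?_, ?_, ?_⟩
    · refine bpPt_cont hXc ?_
      unfold bpF tent bpP
      split_ifs <;> fun_prop
    · intro s t hst
      obtain ⟨hx, _⟩ := bpPt_inj hst
      have : ((s : ℝ) - t) * (bpX pos b - bpX pos a) = 0 := by linarith
      rcases mul_eq_zero.mp this with h | h
      · exact Subtype.ext (by linarith)
      · exact absurd (by linarith) h5
    · have e0 : (1 - ((0 : unitInterval) : ℝ)) * bpX pos a + ((0 : unitInterval) : ℝ) * bpX pos b
          = bpX pos a := by simp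
      simp only [e0, h6]
    · have e1 : (1 - ((1 : unitInterval) : ℝ)) * bpX pos a + ((1 : unitInterval) : ℝ) * bpX pos b
          = bpX pos b := by simp
      simp only [e1, h7]
  · intro a b w hab s hs
    have hon := bpOn_rd hab
    obtain ⟨h1, h2, h3, h4, h5, h6, h7⟩ := bp_edge (page := page) hB hA hon
    obtain ⟨hx, hy⟩ := bpPt_inj hs
    have hs0 : 0 ≤ (s : ℝ) := s.2.1
    have hs1 : (s : ℝ) ≤ 1 := s.2.2
    set X := (1 - (s : ℝ)) * bpX pos a + (s : ℝ) * bpX pos b with hXdef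
    have hXlo : (bpLo pos (bpRd a b) : ℝ) ≤ X := by nlinarith
    have hXhi : X ≤ bpHi pos (bpRd a b) := by nlinarith
    have fin : (X = bpLo pos (bpRd a b) ∨ X = bpHi pos (bpRd a b)) → w = a ∨ w = b := by
      intro hX
      obtain ⟨z, hz, hz1, hz2⟩ := bp_edge_end (page := page) hB hA hon hs0 hs1 hXdef hX
      have : w = z := bp_inj hB hA (page := page) (hx.symm.trans hz1) (hy.symm.trans hz2)
      rw [this]; exact hz
    rcases w with w | q
    · simp only [bpY] at hy
      exact fin (bpF_zero hB hA hon.1 hXlo hXhi hy)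
    · have hq : A (bpR q).1 (bpR q).2.1 := q.2.1
      have hm := bp_mid hB hA hq
      simp only [bpX, bpY] at hx hy
      rw [← hx] at hm hy
      rcases bp_key hB hA hon.1 hq hXlo hXhi hm.1.le hm.2.le hy with ⟨h, _⟩ | ⟨h, _⟩
      · obtain ⟨_, ⟨h0, _⟩ | ⟨q', hq', h8⟩⟩ := hon
        · exfalso
          rw [h] at h0
          exact bpR_ne q h0
        · have : q = q' := bpR_inj (h.symm.trans hq')
          subst this
          rcases h8 with ⟨h8, _⟩ | ⟨h8, _⟩
          · left; exact h8.symm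
          · right; exact h8.symm
      · exact fin h
  · intro a b x y hab hxy hne s t hst
    have hne : ¬ (a = x ∧ b = y) := by
      rintro ⟨rfl, rfl⟩
      exact hne rfl
    have hon := bpOn_rd hab
    have hon' := bpOn_rd hxy
    obtain ⟨h1, h2, h3, h4, h5, h6, h7⟩ := bp_edge (page := page) hB hA hon
    obtain ⟨h1', h2', h3', h4', h5', h6', h7'⟩ := bp_edge (page := page) hB hA hon'
    obtain ⟨hx, hy⟩ := bpPt_inj hst
    have hs0 : 0 ≤ (s : ℝ) := s.2.1
    have hs1 : (s : ℝ) ≤ 1 := s.2.2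
    have ht0 : 0 ≤ (t : ℝ) := t.2.1
    have ht1 : (t : ℝ) ≤ 1 := t.2.2
    show ∃ z, (z = a ∨ z = b) ∧ (z = x ∨ z = y) ∧
      bpPt ((1 - (s : ℝ)) * bpX pos a + (s : ℝ) * bpX pos b)
        (bpF pos page (bpRd a b) (bpD a b) ((1 - (s : ℝ)) * bpX pos a + (s : ℝ) * bpX pos b)) =
      bpPt (bpX pos z) (bpY pos page z)
    rw [← hx] at hy
    set X := (1 - (s : ℝ)) * bpX pos a + (s : ℝ) * bpX pos b with hXdef
    have hXlo : (bpLo pos (bpRd a b) : ℝ) ≤ X := by nlinarith
    have hXhi : X ≤ bpHi pos (bpRd a b) := by nlinarith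
    have hXlo' : (bpLo pos (bpRd x y) : ℝ) ≤ X := by rw [hx]; nlinarith
    have hXhi' : X ≤ bpHi pos (bpRd x y) := by rw [hx]; nlinarith
    rcases bp_key hB hA hon.1 hon'.1 hXlo hXhi hXlo' hXhi' hy with ⟨h, hdd⟩ | ⟨h, h'⟩
    · rw [← h] at hon' hXlo' hXhi' hy
      generalize bpD x y = d' at hon' hy hdd
      generalize bpD a b = d at hon hy hdd ⊢
      generalize bpRd a b = r at *
      obtain ⟨hr, hc⟩ := hon
      obtain ⟨_, hc'⟩ := hon'
      have hE := bp_ends (pos := pos) r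
      have hm := bp_mid hB hA hr
      rcases hc with ⟨h0, hc⟩ | ⟨q, hq, hc⟩
      · exfalso
        have hdd : d = d' := by
          rcases hdd with hdd | ⟨hdd, _⟩
          · exact hdd
          · exact absurd h0 hdd
        rcases hc' with ⟨_, hc'⟩ | ⟨q', hq', _⟩
        · apply hne
          rcases hc with ⟨ha, hb, hd⟩ | ⟨ha, hb, hd⟩ <;>
            rcases hc' with ⟨hx', hy', hd'⟩ | ⟨hx', hy', hd'⟩
          · exact ⟨ha.trans hx'.symm, hb.trans hy'.symm⟩
          · rw [hd, hd'] at hdd; exact absurd hdd (by decide)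
          · rw [hd, hd'] at hdd; exact absurd hdd (by decide)
          · exact ⟨ha.trans hx'.symm, hb.trans hy'.symm⟩
        · rw [hq'] at h0
          exact bpR_ne q' h0
      · rcases hc' with ⟨h0, _⟩ | ⟨q', hq', hc'⟩
        · exfalso
          rw [hq] at h0
          exact bpR_ne q h0
        · have hqq : q = q' := bpR_inj (hq.symm.trans hq')
          subst hqq
          have hr0 : r.2.2 ≠ 0 := by rw [hq]; exact bpR_ne q
          have hmid : bpX pos (Sum.inr q : V ⊕ EVert A m) = bpMid pos r := by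
            simp only [bpX]; rw [← hq]
          have hmidY : bpY pos page (Sum.inr q : V ⊕ EVert A m) =
              bpF pos page r d (bpMid pos r) := by
            rw [bpF_mid hr0 d]
            simp only [bpY]; rw [← hq]
          have fin : X = bpMid pos r → bpPt X (bpF pos page r d X) =
              bpPt (bpX pos (Sum.inr q : V ⊕ EVert A m))
                (bpY pos page (Sum.inr q : V ⊕ EVert A m)) := by
            intro hXm
            rw [hmid, hmidY, ← hXm]
          have hza : (Sum.inr q : V ⊕ EVert A m) = a ∨ (Sum.inr q : V ⊕ EVert A m) = b := by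
            rcases hc with ⟨hc, _⟩ | ⟨hc, _⟩
            · left; exact hc.symm
            · right; exact hc.symm
          have hzx : (Sum.inr q : V ⊕ EVert A m) = x ∨ (Sum.inr q : V ⊕ EVert A m) = y := by
            rcases hc' with ⟨hc', _⟩ | ⟨hc', _⟩
            · left; exact hc'.symm
            · right; exact hc'.symm
          rcases hdd with hdd | ⟨_, hXm⟩
          swap
          · exact ⟨Sum.inr q, hza, hzx, fin hXm⟩
          have hmain : ∀ σ σ' : ℝ, 0 ≤ σ → 0 ≤ σ' →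
              X = (1 - σ) * bpMid pos r + σ * pos r.1 →
              X = (1 - σ') * bpMid pos r + σ' * pos r.2.1 → X = bpMid pos r := by
            intro σ σ' hσ hσ' e1 e2
            have e3 : X - bpMid pos r = σ * (pos r.1 - bpMid pos r) := by rw [e1]; ring
            have e4 : X - bpMid pos r = σ' * (pos r.2.1 - bpMid pos r) := by rw [e2]; ring
            rcases hE with ⟨h8, h9⟩ | ⟨h8, h9⟩
            · have a1 : (pos r.1 : ℝ) - bpMid pos r < 0 := by rw [h8]; linarith
              have a2 : 0 < (pos r.2.1 : ℝ) - bpMid pos r := by rw [h9]; linarith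
              have b1 : X - bpMid pos r ≤ 0 := by
                rw [e3]; exact mul_nonpos_of_nonneg_of_nonpos hσ a1.le
              have b2 : 0 ≤ X - bpMid pos r := by
                rw [e4]; exact mul_nonneg hσ' a2.le
              linarith
            · have a1 : 0 < (pos r.1 : ℝ) - bpMid pos r := by rw [h8]; linarith
              have a2 : (pos r.2.1 : ℝ) - bpMid pos r < 0 := by rw [h9]; linarith
              have b1 : 0 ≤ X - bpMid pos r := by
                rw [e3]; exact mul_nonneg hσ a1.le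
              have b2 : X - bpMid pos r ≤ 0 := by
                rw [e4]; exact mul_nonpos_of_nonneg_of_nonpos hσ' a2.le
              linarith
          refine ⟨Sum.inr q, hza, hzx, fin ?_⟩
          rcases hc with ⟨hc1, hc2, hc3⟩ | ⟨hc1, hc2, hc3⟩ <;>
            rcases hc' with ⟨hc1', hc2', hc3'⟩ | ⟨hc1', hc2', hc3'⟩
          · have e1 : X = (1 - (s : ℝ)) * bpMid pos r + (s : ℝ) * bpX pos b := by
              rw [hXdef, hc1, hmid]
            have e2 : X = (1 - (t : ℝ)) * bpMid pos r + (t : ℝ) * bpX pos y := by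
              rw [hx, hc1', hmid]
            rcases hc3 with hb | hb <;> rcases hc3' with hb' | hb'
            · exact absurd ⟨hc1.trans hc1'.symm, hb.trans hb'.symm⟩ hne
            · rw [hb] at e1; rw [hb'] at e2
              exact hmain s t hs0 ht0 e1 e2
            · rw [hb] at e1; rw [hb'] at e2
              exact hmain t s ht0 hs0 e2 e1
            · exact absurd ⟨hc1.trans hc1'.symm, hb.trans hb'.symm⟩ hne
          · rw [hc2, hc2'] at hdd; exact absurd hdd (by decide)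
          · rw [hc2, hc2'] at hdd; exact absurd hdd (by decide)
          · have e1 : X = (1 - (1 - (s : ℝ))) * bpMid pos r + (1 - (s : ℝ)) * bpX pos a := by
              rw [hXdef, hc1, hmid]; ring
            have e2 : X = (1 - (1 - (t : ℝ))) * bpMid pos r + (1 - (t : ℝ)) * bpX pos x := by
              rw [hx, hc1', hmid]; ring
            rcases hc3 with hb | hb <;> rcases hc3' with hb' | hb'
            · exact absurd ⟨hb.trans hb'.symm, hc1.trans hc1'.symm⟩ hne
            · rw [hb] at e1; rw [hb'] at e2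
              exact hmain (1 - s) (1 - t) (by linarith) (by linarith) e1 e2
            · rw [hb] at e1; rw [hb'] at e2
              exact hmain (1 - t) (1 - s) (by linarith) (by linarith) e2 e1
            · exact absurd ⟨hb.trans hb'.symm, hc1.trans hc1'.symm⟩ hne
    · obtain ⟨z, hz, hz1, hz2⟩ := bp_edge_end (page := page) hB hA hon hs0 hs1 hXdef h
      obtain ⟨z', hz', hz1', hz2'⟩ := bp_edge_end (page := page) hB hA hon' ht0 ht1 hx h'
      have : z = z' := bp_inj hB hA (page := page) (hz1.symm.trans hz1')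
        (hz2.symm.trans (hy.trans hz2'))
      refine ⟨z, hz, this ▸ hz', ?_⟩
      rw [← hz1, ← hz2]

end CR
end
end
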