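import Pool.Agent.Lib.MP_09393f_co.Game

/-!
# The hierarchical networks `M_n` (MP_09393f_co)

All index types are `ℕ`; only finitely many vertices carry arcs.
-/

namespace CR

/-! ### Networks of modules -/

/-- A network: nodes `X` (places for copies of a module), connections `C` (bundles of strands)
from side `srcS` of node `src` to side `tgtS` of node `tgt`, each strand of length `len`. -/
structure Net where
  X : Type
  C : Type
  act : X → Prop
  ok : C → Prop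
  src : C → X
  srcS : C → ℕ
  tgt : C → X
  tgtS : C → ℕ
  len : C → ℕ

/-- the rules a network has to obey -/
structure Net.Good (N : Net) : Prop where
  len_ge : ∀ c, N.ok c → 2 ≤ N.len c
  act_src : ∀ c, N.ok c → N.act (N.src c)
  act_tgt : ∀ c, N.ok c → N.act (N.tgt c)
  srcS_lt : ∀ c, N.ok c → N.srcS c < 3
  tgtS_lt : ∀ c, N.ok c → N.tgtS c < 4
  src_inj : ∀ c c', N.ok c → N.ok c' → N.src c = N.src c' → N.srcS c = N.srcS c' → c = c'
  tgt_inj : ∀ c c', N.ok c → N.ok c' → N.tgt c = N.tgt c' → N.tgtS c = N.tgtS c' → c = c'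

/-- vertices of the network in which every node is replaced by a copy of `W`;
`inr (c, τ, p)` is the inner vertex number `p` of the strand `τ` of the connection `c` -/
abbrev NV (N : Net) (W : Type) : Type := (N.X × W) ⊕ (N.C × ℕ × ℕ)

/-- arcs of the network -/
def NAdj (N : Net) {W : Type} (m : ℕ) (A : W → W → Prop) (inn outt : ℕ → ℕ → W) :
    NV N W → NV N W → Prop
  | Sum.inl (x, u), Sum.inl (y, v) => x = y ∧ N.act x ∧ A u v
  | Sum.inl (x, u), Sum.inr (c, τ, p) =>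
      N.ok c ∧ τ < m ∧ p = 0 ∧ x = N.src c ∧ u = outt (N.srcS c) τ
  | Sum.inr (c, τ, p), Sum.inr (c', τ', p') =>
      N.ok c ∧ τ < m ∧ c' = c ∧ τ' = τ ∧ p' = p + 1 ∧ p' + 1 < N.len c
  | Sum.inr (c, τ, p), Sum.inl (y, v) =>
      N.ok c ∧ τ < m ∧ p + 2 = N.len c ∧ y = N.tgt c ∧ v = inn (N.tgtS c) (m - 1 - τ)

/-! ### The ladder -/

inductive Kind
  | a | b | E
  deriving DecidableEq

inductive Cn
  | A | B | C | D | Er | El
  deriving DecidableEq

/-- cells per out-sector -/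
def ee (k : ℕ) : ℕ := 4 * (k + 1)

/-- number of strands of `M_n` per side -/
def S (k : ℕ) : ℕ → ℕ
  | 0 => 1
  | n + 1 => ee k * S k n

/-- number of cells of `M_{n+1}` -/
def J (k n : ℕ) : ℕ := 4 * S k (n + 1) + 3 * ee k

/-- bound for the number of passes in `M_{n+1}` -/
def Bd (k n : ℕ) : ℕ := 2 * J k n + 20

/-- time bound for leaving `M_n` -/
def T (k : ℕ) : ℕ → ℕ
  | 0 => 0
  | n + 1 => (Bd k n + 1) * (T k n + 5 * (2 * ((Bd k n + 1) * T k n) + 6))

/-- unit of length in `M_{n+1}` -/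
def U (k n : ℕ) : ℕ := 2 * ((Bd k n + 1) * T k n) + 6

/-- clearance required at an arrival in `M_n` -/
def Rr (k : ℕ) : ℕ → ℕ
  | 0 => 0
  | n + 1 => (Bd k n + 1) * T k n

/-- separation distance of the in-terminals of `M_n` as seen from outside -/
def Ln (k : ℕ) : ℕ → ℕ
  | 0 => 0
  | n + 1 => U k n

def Cn.srcK : Cn → Kind
  | .A => .a | .B => .a | .C => .b | .D => .b | .Er => .E | .El => .E
def Cn.srcS : Cn → ℕ
  | .A => 0 | .B => 1 | .C => 1 | .D => 2 | .Er => 0 | .El => 1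
def Cn.tgtK : Cn → Kind
  | .A => .b | .B => .a | .C => .b | .D => .a | .Er => .b | .El => .b
def Cn.tgtS : Cn → ℕ
  | .A => 0 | .B => 0 | .C => 1 | .D => 1 | .Er => 2 | .El => 3
/-- shift of the cell index -/
def Cn.dj : Cn → ℕ
  | .A => 0 | .B => 1 | .C => 1 | .D => 1 | .Er => 1 | .El => 0
/-- length in units -/
def Cn.mul : Cn → ℕ
  | .A => 5 | .B => 1 | .C => 4 | .D => 2 | .Er => 1 | .El => 1

/-- which connections exist -/
def Cn.okAt (k n : ℕ) (c : Cn) (j : ℕ) : Prop :=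
  match c with
  | .A => j < J k n
  | .B => j + 1 < J k n
  | .C => j + 1 < J k n
  | .D => j + 1 < J k n
  | .Er => j < 4 * S k (n + 1)
  | .El => j < 4 * S k (n + 1)

/-- the ladder network of `M_{n+1}` -/
def ladder (k n : ℕ) : Net where
  X := ℕ × Kind
  C := Cn × ℕ
  act x := x.1 < J k n
  ok c := c.1.okAt k n c.2
  src c := (c.2, c.1.srcK)
  srcS c := c.1.srcS
  tgt c := (c.2 + c.1.dj, c.1.tgtK)
  tgtS c := c.1.tgtS
  len c := c.1.mul * U k n

/-- vertices of `M_n` -/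
def VT (k : ℕ) : ℕ → Type
  | 0 => Unit
  | n + 1 => NV (ladder k n) (VT k n)

/-- in-terminals -/
def inT (k : ℕ) : (n : ℕ) → ℕ → ℕ → VT k n
  | 0, _, _ => ()
  | n + 1, i, σ => Sum.inl ((i * S k (n + 1) + σ, Kind.E), inT k n 0 0)

/-- out-terminals -/
def outT (k : ℕ) : (n : ℕ) → ℕ → ℕ → VT k n
  | 0, _, _ => ()
  | n + 1, s, τ =>
      Sum.inl ((4 * S k (n + 1) + s * ee k + τ / S k n, Kind.b), outT k n 0 (τ % S k n))

/-- arcs of `M_n` -/
def Adj (k : ℕ) : (n : ℕ) → VT k n → VT k n → Prop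
  | 0 => fun _ _ => False
  | n + 1 => NAdj (ladder k n) (S k n) (Adj k n) (inT k n) (outT k n)

/-- the private entry part belonging to an in-terminal -/
def Priv (k : ℕ) : (n : ℕ) → ℕ → ℕ → Set (VT k n)
  | 0, _, _ => ∅
  | n + 1, i, σ => {w | ∃ v, w = Sum.inl ((i * S k (n + 1) + σ, Kind.E), v)}

/-! ### The top network: two copies of `M_N` -/

/-- two nodes; connection `(β, s)` goes from side `s` of copy `β` to side `3 - s` of the other -/
def topNet (Λ : ℕ) : Net where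
  X := Bool
  C := Bool × ℕ
  act _ := True
  ok c := c.2 < 3
  src c := c.1
  srcS c := c.2
  tgt c := !c.1
  tgtS c := 3 - c.2
  len _ := Λ

/-- vertices of the top digraph -/
abbrev VTop (k N Λ : ℕ) : Type := NV (topNet Λ) (VT k N)

/-- arcs of the top digraph -/
def AdjTop (k N Λ : ℕ) : VTop k N Λ → VTop k N Λ → Prop :=
  NAdj (topNet Λ) (S k N) (Adj k N) (inT k N) (outT k N)

/-! ### Embedded modules and networks -/

section Emb

variable {V : Type}

/-- `φ` embeds `M_n` into the digraph `A`, exit regions `Z`, return distance `> Λ`. -/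
structure ModEmb (k n : ℕ) (A : V → V → Prop) (φ : VT k n → V) (Z : ℕ → ℕ → Set V) (Λ : ℕ) :
    Prop where
  inj : Function.Injective φ
  adj : ∀ u v, A (φ u) (φ v) ↔ Adj k n u v
  out : ∀ u w, A (φ u) w → w ∉ Set.range φ →
    ∃ s < 3, ∃ τ < S k n, u = outT k n s τ ∧ w ∈ Z s τ
  into : ∀ w v, A w (φ v) → w ∉ Set.range φ → ∃ i < 4, ∃ σ < S k n, v = inT k n i σ
  Zin : ∀ s < 3, ∀ τ < S k n, ∀ w ∈ Z s τ, ∀ u, A u w → u ∈ Z s τ ∨ u = φ (outT k n s τ)
  Zdisj : ∀ s < 3, ∀ τ < S k n, ∀ τ' < S k n, τ ≠ τ' → Disjoint (Z s τ) (Z s τ')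
  far : ∀ s < 3, ∀ τ < S k n, ∀ w ∈ Z s τ, ∀ v, ¬ R A Λ w (φ v)
  sep : ∀ w, w ∉ Set.range φ → ∀ i < 4, ∀ σ < S k n, ∀ i' < 4, ∀ σ' < S k n,
    R A (Ln k n) w (φ (inT k n i σ)) → R A (Ln k n) w (φ (inT k n i' σ')) →
    inT k n i σ = inT k n i' σ'

/-- `φ` embeds the network `N` with modules `M_n` into the digraph `A`;
`Z x s τ` are the exit regions of the unused out-terminals. -/
structure NetEmb (k n : ℕ) (N : Net) (A : V → V → Prop) (φ : NV N (VT k n) → V)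
    (Z : N.X → ℕ → ℕ → Set V) : Prop where
  inj : Function.Injective φ
  adj : ∀ u v, A (φ u) (φ v) ↔ NAdj N (S k n) (Adj k n) (inT k n) (outT k n) u v
  out : ∀ u w, A (φ u) w → w ∉ Set.range φ →
    ∃ x, N.act x ∧ ∃ s < 3, (∀ c, N.ok c → ¬ (N.src c = x ∧ N.srcS c = s)) ∧
      ∃ τ < S k n, u = Sum.inl (x, outT k n s τ) ∧ w ∈ Z x s τ
  into : ∀ w v, A w (φ v) → w ∉ Set.range φ →
    ∃ x, N.act x ∧ (∀ c, N.ok c → N.tgt c ≠ x) ∧ v = Sum.inl (x, inT k n 0 0)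
  Zin : ∀ x, N.act x → ∀ s < 3, ∀ τ < S k n, ∀ w ∈ Z x s τ, ∀ u, A u w →
    u ∈ Z x s τ ∨ u = φ (Sum.inl (x, outT k n s τ))
  Zdisj : ∀ x, N.act x → ∀ s < 3, ∀ τ < S k n, ∀ τ' < S k n, τ ≠ τ' →
    Disjoint (Z x s τ) (Z x s τ')
  Zrange : ∀ x, N.act x → ∀ s < 3, ∀ τ < S k n, ∀ w ∈ Z x s τ, w ∉ Set.range φ

/-- exit regions of the copy at the node `x` -/
def Zsub (k n : ℕ) (N : Net) (φ : NV N (VT k n) → V) (Z : N.X → ℕ → ℕ → Set V) (x : N.X)
    (s τ : ℕ) : Set V :=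
  {w | ∃ c, N.ok c ∧ N.src c = x ∧ N.srcS c = s ∧
      ((∃ p, p + 1 < N.len c ∧ w = φ (Sum.inr (c, τ, p))) ∨
        ∃ v ∈ Priv k n (N.tgtS c) (S k n - 1 - τ), w = φ (Sum.inl (N.tgt c, v)))} ∪
  {w | (∀ c, N.ok c → ¬ (N.src c = x ∧ N.srcS c = s)) ∧ w ∈ Z x s τ}

/-- the cop at `y` is directly behind the robber at `r` (with respect to the module `φ`) -/
def Behind (k n : ℕ) (A : V → V → Prop) (φ : VT k n → V) (r y : V) : Prop :=
  ∀ z m, R A m y (φ z) → ∃ m', m' + 1 ≤ m ∧ R A m' r (φ z)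

/-- the robber has just arrived at an in-terminal of the module `φ` -/
def Arr (k n : ℕ) (A : V → V → Prop) (φ : VT k n → V) (c : Fin k → V) (r : V) : Prop :=
  ∃ i < 4, ∃ σ < S k n, r = φ (inT k n i σ) ∧ (∀ j, c j ≠ r) ∧
    (∀ j, c j ∉ φ '' Priv k n i σ) ∧ ∀ j, Behind k n A φ r (c j) ∨ ¬ R A (Rr k n) (c j) r

/-- `y` reaches the node `x` within time `t` -/
def RN (k n : ℕ) (N : Net) (A : V → V → Prop) (φ : NV N (VT k n) → V) (t : ℕ) (y : V)
    (x : N.X) : Prop :=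
  ∃ v, R A t y (φ (Sum.inl (x, v)))

/-- `y` lies in the node `x` or on a strand into `x` -/
def Cl (k n : ℕ) (N : Net) (φ : NV N (VT k n) → V) (y : V) (x : N.X) : Prop :=
  (∃ v, y = φ (Sum.inl (x, v))) ∨
    ∃ c τ p, N.ok c ∧ τ < S k n ∧ N.tgt c = x ∧ p + 1 < N.len c ∧ y = φ (Sum.inr (c, τ, p))

/-- the copy of `M_n` at the node `x` -/
def nodeEmb (k n : ℕ) (N : Net) (φ : NV N (VT k n) → V) (x : N.X) : VT k n → V :=
  fun v => φ (Sum.inl (x, v))

/-- exit regions of the nodes of the ladder `M_{n+1}` which come from the exit regions of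
`M_{n+1}` itself -/
def Zlad (k n : ℕ) (Z : ℕ → ℕ → Set V) (x : (ladder k n).X) (s τ : ℕ) : Set V :=
  {w | x.2 = Kind.b ∧ s = 0 ∧ 4 * S k (n + 1) ≤ x.1 ∧
    w ∈ Z ((x.1 - 4 * S k (n + 1)) / ee k) ((x.1 - 4 * S k (n + 1)) % ee k * S k n + τ)}

/-- the cops within distance `t` of the module -/
def near (k n : ℕ) (A : V → V → Prop) (φ : VT k n → V) (t : ℕ) (c : Fin k → V) : Set (Fin k) :=
  {j | ∃ v, R A t (c j) (φ v)}

end Emb

/-- **the main statement**: the robber can leave `M_n` through every side although `n` cops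
are near -/
def NE (k n : ℕ) : Prop :=
  ∀ (V : Type) (A : V → V → Prop) (φ : VT k n → V) (Z : ℕ → ℕ → Set V) (Λ : ℕ),
    ModEmb k n A φ Z Λ → 2 * T k n ≤ Λ →
    ∀ (c : Fin k → V) (r : V) (s : ℕ), s < 3 → Arr k n A φ c r →
      (near k n A φ (T k n) c).ncard ≤ n →
      (n = 0 → ∀ j, ∀ τ < S k n, c j ∉ Z s τ) →
      Safe A (fun c' r' => ∃ τ < S k n, r' = φ (outT k n s τ) ∧ ∀ j, c' j ∉ Z s τ)
        (T k n) c r

end CR
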