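import Pool.Agent.Lib.MP_09393f_co.Neigh
import Pool.Agent.Lib.MP_09393f_co.BookPlanar

section

/-!
# Passing from one node to the next (MP_09393f_co)
-/

namespace CR

theorem pass {k n : ℕ} {N : Net} {V : Type} {A : V → V → Prop} {φ : NV N (VT k n) → V}
    {Z : N.X → ℕ → ℕ → Set V} (hNE : NE k n) (hN : N.Good) (h : NetEmb k n N A φ Z)
    {c0 : N.C} (hc : N.ok c0) (hlen : Rr k n < N.len c0) {Λ : ℕ}
    (hsub : ModEmb k n A (nodeEmb k n N φ (N.src c0)) (Zsub k n N φ Z (N.src c0)) Λ)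
    (hΛ : 2 * T k n ≤ Λ) (c : Fin k → V) (r : V)
    (hArr : Arr k n A (nodeEmb k n N φ (N.src c0)) c r)
    (hnear : (near k n A (nodeEmb k n N φ (N.src c0)) (T k n) c).ncard ≤ n)
    (h0 : n = 0 → ∀ j v, ¬ R A (N.len c0) (c j) (φ (Sum.inl (N.tgt c0, v)))) :
    Safe A (fun c' r' => Arr k n A (nodeEmb k n N φ (N.tgt c0)) c' r' ∧
      ∀ j, R A (T k n + N.len c0) (c j) (c' j)) (T k n + N.len c0) c r := by
  have hs := hN.srcS_lt c0 hc
  have hZ0 : n = 0 → ∀ j, ∀ τ < S k n, c j ∉ Zsub k n N φ Z (N.src c0) (N.srcS c0) τ := by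
    intro hn j τ hτ hmem
    have hbad := h0 hn j
    rcases hmem with ⟨c', hok, hsrc, hside, h1 | h1⟩ | h1
    · obtain ⟨p, hp, hw⟩ := h1
      obtain rfl : c' = c0 := hN.src_inj c' c0 hok hc hsrc hside
      have hstep := strandPath_step hN h hc hτ
      have hw2 := R_of_walk (A := A) (fun q => strandPath k n N φ c' τ (p + 1 + q))
        (N.len c' - (p + 1)) (fun q hq => Or.inr (hstep (p + 1 + q) (by omega)))
      have ha : strandPath k n N φ c' τ (p + 1 + 0) = φ (Sum.inr (c', τ, p)) := by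
        unfold strandPath
        rw [if_neg (by omega), if_pos (by omega)]
        simp
      have hb : strandPath k n N φ c' τ (p + 1 + (N.len c' - (p + 1))) =
          φ (Sum.inl (N.tgt c', inT k n (N.tgtS c') (S k n - 1 - τ))) := by
        unfold strandPath
        rw [if_neg (by omega), if_neg (by omega)]
      simp only [ha, hb] at hw2
      rw [← hw] at hw2
      exact hbad _ (R_mono (Nat.sub_le _ (p + 1)) hw2)
    · obtain ⟨v, hv, _⟩ := h1
      subst hn
      exact hv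
    · exact h1.1 c0 hc ⟨rfl, rfl⟩
  have hmain := hNE V A _ _ Λ hsub hΛ c r (N.srcS c0) hs hArr hnear hZ0
  refine Safe.comp hmain.disp ?_
  rintro c' r' hne ⟨⟨τ, hτ, hr', hZ'⟩, hR⟩
  have hfl := flight hN h hc hlen hτ c'
    (fun j hj => hne j (by rw [hr']; exact hj)) (fun j => hZ' j) (by
      intro hn j v hRv
      subst hn
      have hj : c j = c' j := hR j
      rw [← hj] at hRv
      exact h0 rfl j v hRv)
  rw [hr']
  refine Safe.mono_goal hfl ?_
  rintro c'' r'' _ ⟨hA, hR'⟩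
  exact ⟨hA, fun j => R_trans (hR j) (hR' j)⟩

end CR
end

section

/-!
# Acyclicity of the ladder (MP_09393f_co)
-/

namespace CR

/-- rank of a node; it increases by at least `2` along every connection -/
def rkN : ℕ × Kind → ℕ
  | (j, Kind.a) => 4 * j
  | (j, Kind.E) => 4 * j
  | (j, Kind.b) => 4 * j + 2

/-- rank of a vertex of `M_{n+1}` -/
def rk (k n : ℕ) : NV (ladder k n) (VT k n) → ℕ
  | Sum.inl (x, _) => rkN x
  | Sum.inr (c, _, _) => rkN ((ladder k n).tgt c) - 1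

theorem Rank_conn (k n : ℕ) (c : (ladder k n).C) :
    rkN ((ladder k n).src c) + 2 ≤ rkN ((ladder k n).tgt c) := by
  obtain ⟨c, j⟩ := c
  cases c <;> simp only [ladder, Cn.srcK, Cn.tgtK, Cn.dj, rkN] <;> omega

theorem Rank_even (x : ℕ × Kind) : 2 ∣ rkN x := by
  obtain ⟨j, K⟩ := x
  cases K <;> simp only [rkN] <;> omega

theorem Rank_arc {k n : ℕ} : ∀ (u v : NV (ladder k n) (VT k n)),
    NAdj (ladder k n) (S k n) (Adj k n) (inT k n) (outT k n) u v → rk k n u ≤ rk k n v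
  | Sum.inl (x, u), Sum.inl (y, v), h => by
      obtain ⟨h, _⟩ := h
      simp [rk, h]
  | Sum.inl (x, u), Sum.inr (c, τ, p), h => by
      obtain ⟨_, _, _, hx, _⟩ := h
      have := Rank_conn k n c
      simp only [rk, hx]
      omega
  | Sum.inr (c, τ, p), Sum.inr (c', τ', p'), h => by
      obtain ⟨_, _, hc, _⟩ := h
      simp [rk, hc]
  | Sum.inr (c, τ, p), Sum.inl (y, v), h => by
      obtain ⟨_, _, _, hy, _⟩ := h
      simp only [rk, hy]
      omega

theorem rk_mono {k n : ℕ} : ∀ (t : ℕ) (u v : NV (ladder k n) (VT k n)),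
    R (Adj k (n + 1)) t u v → rk k n u ≤ rk k n v := by
  intro t
  induction t with
  | zero =>
    intro u v h
    have h1 : u = v := h
    rw [h1]
  | succ t ih =>
    intro u v h
    obtain ⟨w, hw, hR⟩ := h
    rcases hw with hw | hw
    · have h1 : w = u := hw
      rw [← h1]
      exact ih _ _ hR
    · exact (Rank_arc _ _ hw).trans (ih _ _ hR)

variable {k n : ℕ} {V : Type} {A : V → V → Prop} {φ : VT k (n + 1) → V} {Z : ℕ → ℕ → Set V}
  {Λ : ℕ}

theorem ladder_far (h : ModEmb k (n + 1) A φ Z Λ) {x : ℕ × Kind} (hx : x.1 < J k n) :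
    ∀ s < 3, ∀ τ < S k n, ∀ w ∈ Zsub k n (ladder k n) φ (Zlad k n Z) x s τ, ∀ v,
      ¬ R A Λ w (φ (Sum.inl (x, v))) := by
  intro s hs τ hτ w hw v hR
  rcases hw with ⟨c, hc, hsrc, hcs, hw⟩ | ⟨_, hw⟩
  · have hconn := Rank_conn k n c
    rw [hsrc] at hconn
    rcases hw with ⟨p, hp, rfl⟩ | ⟨v', hv', rfl⟩
    · have h1 := rk_mono _ _ _ (modEmb_stay h Λ _ _ le_rfl hR)
      simp only [rk] at h1
      omega
    · have h1 := rk_mono _ _ _ (modEmb_stay h Λ _ _ le_rfl hR)
      simp only [rk] at h1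
      omega
  · obtain ⟨_, _, h4, hw⟩ := hw
    have he : 0 < ee k := by have := ee_pos k; omega
    refine h.far _ ?_ _ ?_ w hw _ hR
    · rw [Nat.div_lt_iff_lt_mul he]
      unfold J at hx
      omega
    · have h5 := Nat.mod_lt (x.1 - 4 * S k (n + 1)) he
      rw [S_succ]
      calc (x.1 - 4 * (ee k * S k n)) % ee k * S k n + τ
          < (x.1 - 4 * (ee k * S k n)) % ee k * S k n + S k n := by omega
        _ = ((x.1 - 4 * (ee k * S k n)) % ee k + 1) * S k n := by ring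
        _ ≤ ee k * S k n := by
            apply Nat.mul_le_mul_right
            rw [S_succ] at h5
            omega

theorem ladder_sub (h : ModEmb k (n + 1) A φ Z Λ) {x : ℕ × Kind} (hx : x.1 < J k n) :
    ModEmb k n A (nodeEmb k n (ladder k n) φ x) (Zsub k n (ladder k n) φ (Zlad k n Z) x) Λ :=
  sub_emb (ladder_good k n) (netEmb_of_modEmb h) hx
    (fun c _ => (Ln_lt_U k n).trans_le (ladder_len_ge k n c)) (ladder_far h hx)

theorem Rank_toE {k n : ℕ} : ∀ (t : ℕ) (u : NV (ladder k n) (VT k n)) (x : ℕ × Kind)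
    (v : VT k n), x.2 = Kind.E →
    R (NAdj (ladder k n) (S k n) (Adj k n) (inT k n) (outT k n)) t u (Sum.inl (x, v)) →
    ∃ v', u = Sum.inl (x, v') := by
  intro t
  induction t with
  | zero =>
    intro u x v _ h
    exact ⟨v, h⟩
  | succ t ih =>
    intro u x v hE h
    obtain ⟨w, hw, hR⟩ := h
    obtain ⟨v', rfl⟩ := ih _ _ _ hE hR
    rcases hw with hw | hw
    · exact ⟨v', hw.symm⟩
    · rcases u with ⟨y, u⟩ | ⟨c, τ, p⟩
      · obtain ⟨h1, _⟩ := hw
        exact ⟨u, by rw [h1]; rfl⟩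
      · obtain ⟨_, _, _, hy, _⟩ := hw
        exfalso
        rw [hy] at hE
        obtain ⟨c, j⟩ := c
        cases c <;> simp [ladder, Cn.tgtK] at hE

/-- if `y` is in (or on a strand into) the node `x` and reaches `x'` in time, then `x'` is not
before `x`; entry nodes are reached only from themselves -/
theorem Cl_order (h : ModEmb k (n + 1) A φ Z Λ) {x x' : ℕ × Kind} {y : V} {t : ℕ} (ht : t ≤ Λ)
    (hy : Cl k n (ladder k n) φ y x) (hR : RN k n (ladder k n) A φ t y x') :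
    rkN x ≤ rkN x' ∧ (x'.2 = Kind.E → x = x') := by
  obtain ⟨v, hR⟩ := hR
  rcases hy with ⟨v', rfl⟩ | ⟨c, τ, p, hc, hτ, hcx, hp, rfl⟩
  · have h0 := modEmb_stay h t _ _ ht hR
    refine ⟨?_, fun hE => ?_⟩
    · exact rk_mono _ _ _ h0
    · obtain ⟨v'', h2⟩ := Rank_toE _ _ _ _ hE h0
      have h3 := Sum.inl.inj h2
      exact congrArg Prod.fst h3
  · have h0 := modEmb_stay h t _ _ ht hR
    refine ⟨?_, fun hE => ?_⟩
    · have h1 := rk_mono _ _ _ h0
      simp only [rk] at h1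
      rw [hcx] at h1
      have h2 := Rank_even x
      have h3 := Rank_even x'
      omega
    · obtain ⟨v'', h2⟩ := Rank_toE _ _ _ _ hE h0
      exact absurd h2 (by simp)

end CR
end

section

/-!
# All certificates (MP_09393f_co)
-/

namespace CR

theorem cert_zero (k : ℕ) : Cert (Real k 0) (Adj k 0) (pos k 0) (page k 0) (wd k 0) where
  lt _ _ := Nat.one_pos
  inj _ _ _ _ _ := rfl
  real _ _ h := h.elim
  nc _ _ _ _ h := h.elim

theorem cert_all (k : ℕ) : ∀ n, Cert (Real k n) (Adj k n) (pos k n) (page k n) (wd k n) ∧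
    TermOrd k n (pos k n) (page k n)
  | 0 => ⟨cert_zero k, termOrd_zero k⟩
  | n + 1 => by
    obtain ⟨hC, hT⟩ := cert_all k n
    exact ⟨lay_cert (ladder_good k n) hC hT (ladLay_ok k n) (ladLay_up hC hT) (ladLay_dn k n),
      termOrd_succ hC hT⟩

theorem cert_top (k N : ℕ) {Λ : ℕ} (hΛ : 3 ≤ Λ) :
    Cert (RealTop k N Λ) (AdjTop k N Λ) (posTop k N Λ) (pageTop k N Λ) (6 * WTop k N Λ) := by
  obtain ⟨hC, hT⟩ := cert_all k N
  exact lay_cert (topNet_good (by omega)) hC hT (topLay_ok k N hΛ) (topLay_up hΛ hC hT)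
    (topLay_dn k N hΛ)

end CR
end

section

/-!
# In-neighbours in the ladder (MP_09393f_co)
-/

namespace CR

variable {k n : ℕ} {V : Type} {A : V → V → Prop} {φ : VT k (n + 1) → V} {Z : ℕ → ℕ → Set V}
  {Λ : ℕ}

private theorem ladNeigh_into (h : ModEmb k (n + 1) A φ Z Λ) {x : ℕ × Kind} {w : V} {v : VT k n}
    (hA : A w (φ (Sum.inl (x, v)))) (hw : w ∉ Set.range φ) :
    ∃ i < 4, ∃ σ < S k (n + 1), x = (i * S k (n + 1) + σ, Kind.E) ∧
      (Sum.inl (x, v) : VT k (n + 1)) = inT k (n + 1) i σ := by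
  obtain ⟨i, hi, σ, hσ, he⟩ := h.into w _ hA hw
  refine ⟨i, hi, σ, hσ, ?_, he⟩
  have h1 := Sum.inl.inj he
  exact (Prod.mk.inj h1).1

private theorem ladNeigh_E (k n : ℕ) : ∀ (t j : ℕ) (v : VT k n) (u : VT k (n + 1)),
    R (Adj k (n + 1)) t u (Sum.inl ((j, Kind.E), v)) → ∃ v', u = Sum.inl ((j, Kind.E), v')
  | 0, j, v, u, hR => ⟨v, hR⟩
  | t + 1, j, v, u, ⟨w, hw, hR⟩ => by
    obtain ⟨v'', hv''⟩ := ladNeigh_E k n t j v w hR
    rcases hw with hw | hw
    · exact ⟨v'', by rw [← hw]; exact hv''⟩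
    · rw [hv''] at hw
      rcases u with ⟨x, u'⟩ | ⟨⟨c, j'⟩, τ, p⟩
      · obtain ⟨h1, -, -⟩ := hw
        subst h1
        exact ⟨u', rfl⟩
      · obtain ⟨-, -, -, h1, -⟩ := hw
        cases c <;> simp [ladder, Cn.tgtK] at h1

theorem LA (h : ModEmb k (n + 1) A φ Z Λ) {t j : ℕ} {y : V}
    (hR : RN k n (ladder k n) A φ t y (j + 1, Kind.a)) :
    Cl k n (ladder k n) φ y (j + 1, Kind.a) ∨
    (∃ t', t' + U k n ≤ t ∧ RN k n (ladder k n) A φ t' y (j, Kind.a)) ∨
    (∃ t', t' + 2 * U k n ≤ t ∧ RN k n (ladder k n) A φ t' y (j, Kind.b)) := by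
  obtain ⟨v, hv⟩ := hR
  rcases in_neigh (ladder_good k n) (netEmb_of_modEmb h) t y (j + 1, Kind.a) v hv with
    h1 | ⟨⟨c, j'⟩, hc, hx, t', ht', hR'⟩ | ⟨w, hw, v', hA, -⟩
  · exact Or.inl h1
  · right
    cases c
    · simp [ladder, Cn.tgtK] at hx
    · left
      simp only [ladder, Cn.tgtK, Cn.dj, Prod.mk.injEq, Nat.add_right_cancel_iff] at hx
      obtain ⟨rfl, -⟩ := hx
      simp only [ladder, Cn.mul, Cn.srcK] at ht' hR'
      exact ⟨t', by omega, hR'⟩
    · simp [ladder, Cn.tgtK] at hx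
    · right
      simp only [ladder, Cn.tgtK, Cn.dj, Prod.mk.injEq, Nat.add_right_cancel_iff] at hx
      obtain ⟨rfl, -⟩ := hx
      simp only [ladder, Cn.mul, Cn.srcK] at ht' hR'
      exact ⟨t', by omega, hR'⟩
    · simp [ladder, Cn.tgtK] at hx
    · simp [ladder, Cn.tgtK] at hx
  · obtain ⟨i, -, σ, -, hx, -⟩ := ladNeigh_into h hA hw
    simp at hx

theorem LA0 (h : ModEmb k (n + 1) A φ Z Λ) {t : ℕ} {y : V}
    (hR : RN k n (ladder k n) A φ t y (0, Kind.a)) :
    Cl k n (ladder k n) φ y (0, Kind.a) := by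
  obtain ⟨v, hv⟩ := hR
  rcases in_neigh (ladder_good k n) (netEmb_of_modEmb h) t y (0, Kind.a) v hv with
    h1 | ⟨⟨c, j'⟩, hc, hx, t', ht', hR'⟩ | ⟨w, hw, v', hA, -⟩
  · exact h1
  · exfalso
    cases c <;> simp [ladder, Cn.tgtK, Cn.dj] at hx
  · obtain ⟨i, -, σ, -, hx, -⟩ := ladNeigh_into h hA hw
    simp at hx

theorem LB (h : ModEmb k (n + 1) A φ Z Λ) {t j : ℕ} {y : V}
    (hR : RN k n (ladder k n) A φ t y (j, Kind.b)) :
    Cl k n (ladder k n) φ y (j, Kind.b) ∨
    (∃ t', t' + 5 * U k n ≤ t ∧ RN k n (ladder k n) A φ t' y (j, Kind.a)) ∨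
    (∃ j', j = j' + 1 ∧ ∃ t', t' + 4 * U k n ≤ t ∧
      RN k n (ladder k n) A φ t' y (j', Kind.b)) ∨
    (∃ j', j = j' + 1 ∧ j' < 4 * S k (n + 1) ∧ ∃ t', t' + U k n ≤ t ∧
      RN k n (ladder k n) A φ t' y (j', Kind.E)) ∨
    (j < 4 * S k (n + 1) ∧ ∃ t', t' + U k n ≤ t ∧
      RN k n (ladder k n) A φ t' y (j, Kind.E)) := by
  obtain ⟨v, hv⟩ := hR
  rcases in_neigh (ladder_good k n) (netEmb_of_modEmb h) t y (j, Kind.b) v hv with
    h1 | ⟨⟨c, j'⟩, hc, hx, t', ht', hR'⟩ | ⟨w, hw, v', hA, -⟩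
  · exact Or.inl h1
  · right
    cases c
    · left
      simp only [ladder, Cn.tgtK, Cn.dj, Prod.mk.injEq, Nat.add_zero] at hx
      obtain ⟨rfl, -⟩ := hx
      simp only [ladder, Cn.mul, Cn.srcK] at ht' hR'
      exact ⟨t', by omega, hR'⟩
    · simp [ladder, Cn.tgtK] at hx
    · right; left
      simp only [ladder, Cn.tgtK, Cn.dj, Prod.mk.injEq] at hx
      obtain ⟨rfl, -⟩ := hx
      simp only [ladder, Cn.mul, Cn.srcK] at ht' hR'
      exact ⟨j', rfl, t', by omega, hR'⟩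
    · simp [ladder, Cn.tgtK] at hx
    · right; right; left
      simp only [ladder, Cn.tgtK, Cn.dj, Prod.mk.injEq] at hx
      obtain ⟨rfl, -⟩ := hx
      simp only [ladder, Cn.mul, Cn.srcK] at ht' hR'
      simp only [ladder, Cn.okAt] at hc
      exact ⟨j', rfl, hc, t', by omega, hR'⟩
    · right; right; right
      simp only [ladder, Cn.tgtK, Cn.dj, Prod.mk.injEq, Nat.add_zero] at hx
      obtain ⟨rfl, -⟩ := hx
      simp only [ladder, Cn.mul, Cn.srcK] at ht' hR'
      simp only [ladder, Cn.okAt] at hc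
      exact ⟨hc, t', by omega, hR'⟩
  · obtain ⟨i, -, σ, -, hx, -⟩ := ladNeigh_into h hA hw
    simp at hx

theorem LE (h : ModEmb k (n + 1) A φ Z Λ) {t j : ℕ} {y : V} (ht : t ≤ Λ)
    (hR : RN k n (ladder k n) A φ t y (j, Kind.E)) :
    (∃ v, y = φ (Sum.inl ((j, Kind.E), v))) ∨
    (y ∉ Set.range φ ∧ ∃ i < 4, ∃ σ < S k (n + 1), i * S k (n + 1) + σ = j ∧
      R A t y (φ (inT k (n + 1) i σ))) := by
  obtain ⟨v, hv⟩ := hR
  by_cases hy : y ∈ Set.range φ
  · left
    obtain ⟨u, rfl⟩ := hy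
    obtain ⟨v', hv'⟩ := ladNeigh_E k n t j v u (modEmb_stay h t u _ ht hv)
    exact ⟨v', congrArg φ hv'⟩
  · right
    refine ⟨hy, ?_⟩
    rcases in_neigh (ladder_good k n) (netEmb_of_modEmb h) t y (j, Kind.E) v hv with
      h1 | ⟨⟨c, j'⟩, hc, hx, t', ht', hR'⟩ | ⟨w, hw, v', hA, t', ht', hR'⟩
    · exfalso
      apply hy
      rcases h1 with ⟨v, hv⟩ | ⟨c, τ, p, -, -, -, -, hv⟩
      · exact ⟨_, hv.symm⟩
      · exact ⟨_, hv.symm⟩
    · exfalso
      cases c <;> simp [ladder, Cn.tgtK] at hx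
    · obtain ⟨i, hi, σ, hσ, hx, he⟩ := ladNeigh_into h hA hw
      refine ⟨i, hi, σ, hσ, ?_, ?_⟩
      · exact (Prod.mk.inj hx).1.symm
      · rw [← he]
        exact R_mono ht' (R_succ_right hR' (Or.inr hA))

end CR
end

section

/-!
# The four facts on the ladder (MP_09393f_co)
-/

namespace CR

variable {k n : ℕ} {V : Type} {A : V → V → Prop} {φ : VT k (n + 1) → V} {Z : ℕ → ℕ → Set V}
  {Λ : ℕ}

theorem GFacts_RN_mono {s t : ℕ} (hst : s ≤ t) {y : V} {x : ℕ × Kind}
    (hR : RN k n (ladder k n) A φ s y x) : RN k n (ladder k n) A φ t y x := by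
  obtain ⟨v, hv⟩ := hR
  exact ⟨v, R_mono hst hv⟩

/-- (LX) -/
theorem GFacts_LX (h : ModEmb k (n + 1) A φ Z Λ) {y : V} : ∀ (j t : ℕ), t < 2 * U k n →
    RN k n (ladder k n) A φ t y (j, Kind.a) → ∃ j0, Cl k n (ladder k n) φ y (j0, Kind.a)
  | 0, t, _, hR => ⟨0, LA0 h hR⟩
  | j + 1, t, ht, hR => by
    rcases LA h hR with hCl | ⟨t', ht', hR'⟩ | ⟨t', ht', hR'⟩
    · exact ⟨j + 1, hCl⟩
    · exact GFacts_LX h j t' (by omega) hR'
    · exfalso; omega

/-- (G1) -/
theorem G1 (h : ModEmb k (n + 1) A φ Z Λ) {κ j : ℕ} {y : V} (hκ : κ < U k n)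
    (hΛ : 6 * U k n ≤ Λ) (hy : ¬ RN k n (ladder k n) A φ κ y (j, Kind.a)) :
    ¬ RN k n (ladder k n) A φ (U k n + κ) y (j + 1, Kind.a) ∨
    ¬ RN k n (ladder k n) A φ (5 * U k n + κ) y (j, Kind.b) := by
  by_contra hcon
  rw [not_or, not_not, not_not] at hcon
  obtain ⟨h1, h2⟩ := hcon
  rcases LA h h1 with hCl | ⟨t', ht', hR'⟩ | ⟨t', ht', hR'⟩
  · have := (Cl_order h (by omega) hCl h2).1
    simp only [rkN] at this
    omega
  · exact hy (GFacts_RN_mono (by omega) hR')
  · omega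

/-- (G2) -/
theorem G2 (h : ModEmb k (n + 1) A φ Z Λ) {κ j : ℕ} {y : V} (hκ : κ < U k n)
    (hΛ : 6 * U k n ≤ Λ) (hy : ¬ RN k n (ladder k n) A φ κ y (j, Kind.b)) :
    ¬ RN k n (ladder k n) A φ (2 * U k n + κ) y (j + 1, Kind.a) ∨
    ¬ RN k n (ladder k n) A φ (4 * U k n + κ) y (j + 1, Kind.b) := by
  by_contra hcon
  rw [not_or, not_not, not_not] at hcon
  obtain ⟨h1, h2⟩ := hcon
  have key : ∀ j0, Cl k n (ladder k n) φ y (j0, Kind.a) →
      Cl k n (ladder k n) φ y (j + 1, Kind.b) := by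
    intro j0 hCl0
    rcases LB h h2 with hCl | ⟨t', ht', hR'⟩ | ⟨j', hj', t', ht', hR'⟩ |
      ⟨j', hj', hj'', t', ht', hR'⟩ | ⟨hj'', t', ht', hR'⟩
    · exact hCl
    · exfalso; omega
    · exfalso
      obtain rfl : j = j' := by omega
      exact hy (GFacts_RN_mono (by omega) hR')
    · exfalso
      have := (Cl_order h (by omega) hCl0 hR').2 rfl
      simp at this
    · exfalso
      have := (Cl_order h (by omega) hCl0 hR').2 rfl
      simp at this
  rcases LA h h1 with hCl | ⟨t', ht', hR'⟩ | ⟨t', ht', hR'⟩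
  · have := (Cl_order h (by omega) (key _ hCl) h1).1
    simp only [rkN] at this
    omega
  · obtain ⟨j0, hCl0⟩ := GFacts_LX h j t' (by omega) hR'
    have := (Cl_order h (by omega) (key _ hCl0) hR').1
    simp only [rkN] at this
    omega
  · exact hy (GFacts_RN_mono (by omega) hR')

/-- (G3) -/
theorem G3 (h : ModEmb k (n + 1) A φ Z Λ) {κ j : ℕ} {y : V} (hκ : κ < U k n)
    (hΛ : 6 * U k n ≤ Λ) (hy : ¬ RN k n (ladder k n) A φ κ y (j, Kind.E)) :
    ¬ RN k n (ladder k n) A φ (U k n + κ) y (j, Kind.b) ∨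
    ¬ RN k n (ladder k n) A φ (U k n + κ) y (j + 1, Kind.b) := by
  by_contra hcon
  rw [not_or, not_not, not_not] at hcon
  obtain ⟨h1, h2⟩ := hcon
  rcases LB h h2 with hCl | ⟨t', ht', hR'⟩ | ⟨j', hj', t', ht', hR'⟩ |
      ⟨j', hj', hj'', t', ht', hR'⟩ | ⟨hj'', t', ht', hR'⟩
  · have := (Cl_order h (by omega) hCl h1).1
    simp only [rkN] at this
    omega
  · omega
  · omega
  · obtain rfl : j = j' := by omega
    exact hy (GFacts_RN_mono (by omega) hR')
  · rcases LB h h1 with hCl | ⟨t1, ht1, hR1⟩ | ⟨j1, hj1, t1, ht1, hR1⟩ |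
      ⟨j1, hj1, hj1', t1, ht1, hR1⟩ | ⟨hj1', t1, ht1, hR1⟩
    · have := (Cl_order h (by omega) hCl hR').2 rfl
      simp at this
    · omega
    · omega
    · rcases LE h (by omega) hR' with ⟨v, hv⟩ | ⟨hr, i, hi, σ, hσ, hiσ, hRi⟩
      · rcases LE h (by omega) hR1 with ⟨v1, hv1⟩ | ⟨hr1, i1, hi1, σ1, hσ1, hiσ1, hRi1⟩
        · have h3 : (Sum.inl ((j + 1, Kind.E), v) : NV (ladder k n) (VT k n)) =
              Sum.inl ((j1, Kind.E), v1) := h.inj (hv.symm.trans hv1)
          have h4 : j + 1 = j1 := congrArg (fun q => q.1.1) (Sum.inl.inj h3)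
          omega
        · exact hr1 ⟨_, hv.symm⟩
      · rcases LE h (by omega) hR1 with ⟨v1, hv1⟩ | ⟨hr1, i1, hi1, σ1, hσ1, hiσ1, hRi1⟩
        · exact hr ⟨_, hv1.symm⟩
        · have hL : Ln k (n + 1) = U k n := rfl
          have h3 : (Sum.inl ((i * S k (n + 1) + σ, Kind.E), inT k n 0 0) :
              NV (ladder k n) (VT k n)) = Sum.inl ((i1 * S k (n + 1) + σ1, Kind.E), inT k n 0 0) :=
            h.sep y hr i hi σ hσ i1 hi1 σ1 hσ1 (R_mono (by omega) hRi) (R_mono (by omega) hRi1)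
          have h4 : i * S k (n + 1) + σ = i1 * S k (n + 1) + σ1 :=
            congrArg (fun q => q.1.1) (Sum.inl.inj h3)
          omega
    · exact hy (GFacts_RN_mono (by omega) hR1)

/-- (G4) -/
theorem G4 (h : ModEmb k (n + 1) A φ Z Λ) {s t j : ℕ} {y : V} (hj : 4 * S k (n + 1) ≤ j)
    (hs : s ≤ Λ) (hy : RN k n (ladder k n) A φ s y (j, Kind.b))
    (hR : RN k n (ladder k n) A φ t y (j + 1, Kind.b)) :
    (∃ t', t' + 4 * U k n ≤ t ∧ RN k n (ladder k n) A φ t' y (j, Kind.b)) ∨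
    (∃ t', t' + 6 * U k n ≤ t ∧ RN k n (ladder k n) A φ t' y (j, Kind.a)) := by
  rcases LB h hR with hCl | ⟨t1, ht1, hR1⟩ | ⟨j', hj', t', ht', hR'⟩ |
      ⟨j', hj', hj'', t', ht', hR'⟩ | ⟨hj'', t', ht', hR'⟩
  · exfalso
    have := (Cl_order h hs hCl hy).1
    simp only [rkN] at this
    omega
  · rcases LA h hR1 with hCl | ⟨t2, ht2, hR2⟩ | ⟨t2, ht2, hR2⟩
    · exfalso
      have := (Cl_order h hs hCl hy).1
      simp only [rkN] at this
      omega
    · exact Or.inr ⟨t2, by omega, hR2⟩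
    · exact Or.inl ⟨t2, by omega, hR2⟩
  · obtain rfl : j = j' := by omega
    exact Or.inl ⟨t', ht', hR'⟩
  · exfalso; omega
  · exfalso; omega

end CR
end

section

/-!
# States of the exit game in the ladder (MP_09393f_co)
-/

namespace CR

/-- first cell of the `g`-th group of four cells of the out-sector `s` -/
def cellK (k n s g : ℕ) : ℕ := 4 * S k (n + 1) + s * ee k + 4 * g

/-- **State** of the exit game: the robber has just arrived at the node `x` of the ladder,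
at most `M` more passes will be used, `b` is the designated cop, `F` the set of the cops which
are far away. `s` is the side of the exit, `g` the chosen group of four cells. -/
structure St (k n : ℕ) {V : Type} (A : V → V → Prop) (φ : VT k (n + 1) → V)
    (Z : ℕ → ℕ → Set V) (s g : ℕ) (b : Fin k) (F : Set (Fin k)) (M : ℕ) (x : ℕ × Kind)
    (c : Fin k → V) (r : V) : Prop where
  le : M ≤ Bd k n
  act : x.1 < J k n
  arr : Arr k n A (nodeEmb k n (ladder k n) φ x) c r
  clear : ¬ RN k n (ladder k n) A φ ((M + 1) * T k n) (c b) x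
  bF : b ∉ F
  far : ∀ j ∈ F, ∀ u, ¬ R A ((M + 1) * (T k n + 5 * U k n)) (c j) (φ u)
  few : {j | j ∉ F ∧ j ≠ b}.ncard ≤ n
  zero : n = 0 → ∀ j ∈ F, ∀ d < 4, c j ∉ Z s (4 * g + d)

/-- the goal of the exit game -/
def GoalZ (k n : ℕ) {V : Type} (φ : VT k (n + 1) → V) (Z : ℕ → ℕ → Set V) (s : ℕ)
    (c : Fin k → V) (r : V) : Prop :=
  ∃ τ < S k (n + 1), r = φ (outT k (n + 1) s τ) ∧ ∀ j, c j ∉ Z s τ

section

variable {k n : ℕ} {V : Type} {A : V → V → Prop} {φ : VT k (n + 1) → V} {Z : ℕ → ℕ → Set V}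
  {Λ s g M : ℕ} {b : Fin k} {F : Set (Fin k)} {x : ℕ × Kind} {c : Fin k → V} {r : V}

theorem St.mono (h : St k n A φ Z s g b F (M + 1) x c r) : St k n A φ Z s g b F M x c r where
  le := by have := h.le; omega
  act := h.act
  arr := h.arr
  clear := fun ⟨v, hv⟩ => h.clear ⟨v, R_mono (Nat.mul_le_mul_right _ (by omega)) hv⟩
  bF := h.bF
  far := fun j hj u hR => h.far j hj u (R_mono (Nat.mul_le_mul_right _ (by omega)) hR)
  few := h.few
  zero := h.zero

/-- at most `n` cops are near the node of the robber -/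
theorem St.near_le (h : St k n A φ Z s g b F M x c r) :
    (near k n A (nodeEmb k n (ladder k n) φ x) (T k n) c).ncard ≤ n := by
  have e1 : T k n ≤ (M + 1) * T k n := Nat.le_mul_of_pos_left _ (by omega)
  have e2 : T k n ≤ (M + 1) * (T k n + 5 * U k n) :=
    (Nat.le_add_right _ _).trans (Nat.le_mul_of_pos_left _ (by omega))
  refine (Set.ncard_le_ncard ?_ (Set.toFinite _)).trans h.few
  rintro j ⟨v, hv⟩
  refine ⟨fun hj => ?_, fun hj => ?_⟩
  · exact h.far j hj _ (R_mono e2 hv)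
  · subst hj
    exact h.clear ⟨v, R_mono e1 hv⟩

/-- **one pass** -/
theorem St.step (hNE : NE k n) (hM : ModEmb k (n + 1) A φ Z Λ) (hΛ : 2 * T k (n + 1) ≤ Λ)
    (hs : s < 3) (hg : g ≤ k) {c0 : (ladder k n).C} (hc : (ladder k n).ok c0)
    (h : St k n A φ Z s g b F (M + 1) ((ladder k n).src c0) c r)
    (hclear : ¬ RN k n (ladder k n) A φ ((ladder k n).len c0 + (M + 2) * T k n) (c b)
      ((ladder k n).tgt c0)) :
    Safe A (fun c' r' => St k n A φ Z s g b F M ((ladder k n).tgt c0) c' r' ∧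
      ∀ j, R A (T k n + (ladder k n).len c0) (c j) (c' j)) (T k n + 5 * U k n) c r := by
  have hlen1 := ladder_len_ge k n c0
  have hlen2 := ladder_len_le k n c0
  have hT := T_le_T_succ k n
  have hU := Rr_lt_U k n
  have e1 : (M + 1 + 1) * (T k n + 5 * U k n) =
      (M + 1) * (T k n + 5 * U k n) + (T k n + 5 * U k n) := by ring
  have e2 : (M + 2) * T k n = (M + 1) * T k n + T k n := by ring
  have h0 : n = 0 → ∀ j v, ¬ R A ((ladder k n).len c0) (c j)
      (φ (Sum.inl ((ladder k n).tgt c0, v))) := by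
    intro hn j v hR
    by_cases hjF : j ∈ F
    · exact h.far j hjF _ (R_mono (by omega) hR)
    by_cases hjb : j = b
    · subst hjb
      exact hclear ⟨v, R_mono (by omega) hR⟩
    · have hfew := h.few
      have hz : ({j | j ∉ F ∧ j ≠ b} : Set (Fin k)).ncard = 0 := by omega
      rw [Set.ncard_eq_zero (Set.toFinite _)] at hz
      have hmem : j ∈ ({j | j ∉ F ∧ j ≠ b} : Set (Fin k)) := ⟨hjF, hjb⟩
      rw [hz] at hmem
      exact hmem
  have hp := pass hNE (ladder_good k n) (netEmb_of_modEmb hM) hc (by omega) (Λ := Λ)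
    (ladder_sub hM h.act) (by omega) c r h.arr h.near_le h0
  refine (Safe.mono_goal hp ?_).mono_time (by omega)
  rintro c' r' _ ⟨hA, hR⟩
  refine ⟨⟨by have := h.le; omega, (ladder_good k n).act_tgt c0 hc, hA, ?_, h.bF, ?_, h.few, ?_⟩,
    hR⟩
  · rintro ⟨v, hv⟩
    exact hclear ⟨v, R_mono (by omega) (R_trans (hR b) hv)⟩
  · intro j hj u hu
    exact h.far j hj u (R_mono (by omega) (R_trans (hR j) hu))
  · intro hn j hj d hd hmem
    have hτ : 4 * g + d < S k (n + 1) := by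
      subst hn
      rw [S_succ]
      have : S k 0 = 1 := rfl
      rw [this]
      unfold ee
      omega
    obtain ⟨t', ht', hR'⟩ := Z_back hM hs hτ _ (c j) (c' j) hmem (h.zero hn j hj d hd) (hR j)
    exact h.far j hj _ (R_mono (by omega) hR')

end

end CR
end

section

/-!
# Leaving the ladder from a node `b` of the chosen group (MP_09393f_co)
-/

namespace CR

variable {k n : ℕ} {V : Type} {A : V → V → Prop} {φ : VT k (n + 1) → V} {Z : ℕ → ℕ → Set V}
  {Λ s g M : ℕ} {b : Fin k} {F : Set (Fin k)} {c : Fin k → V} {r : V}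

private theorem exitB_lt {k g d : ℕ} (hg : g ≤ k) (hd : d < 3) : 4 * g + d + 1 < ee k := by
  unfold ee; omega

private theorem exitB_outT {k n s g d τ : ℕ} (hτ : τ < S k n) :
    outT k (n + 1) s ((4 * g + d) * S k n + τ) =
      Sum.inl ((cellK k n s g + d, Kind.b), outT k n 0 τ) := by
  have hS := S_pos k n
  have h1 : ((4 * g + d) * S k n + τ) / S k n = 4 * g + d := by
    rw [mul_comm, Nat.mul_add_div hS, Nat.div_eq_of_lt hτ, add_zero]
  have h2 : ((4 * g + d) * S k n + τ) % S k n = τ := by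
    rw [mul_comm, Nat.mul_add_mod, Nat.mod_eq_of_lt hτ]
  simp only [outT]
  rw [h1, h2]
  have h3 : 4 * S k (n + 1) + s * ee k + (4 * g + d) = cellK k n s g + d := by
    unfold cellK; ring
  rw [h3]
  rfl

theorem exit_b (hNE : NE k n) (hM : ModEmb k (n + 1) A φ Z Λ) (hΛ : 2 * T k (n + 1) ≤ Λ)
    (hs : s < 3) (hg : g ≤ k) {d : ℕ} (hd : d < 3)
    (h : St k n A φ Z s g b F (M + 1) (cellK k n s g + d, Kind.b) c r) :
    Safe A (GoalZ k n φ Z s) ((M + 2) * (T k n + 5 * U k n)) c r := by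
  have hlt := exitB_lt (k := k) hg hd
  cases n with
  | succ m =>
    have hsub := ladder_sub hM (x := (cellK k (m + 1) s g + d, Kind.b)) h.act
    have hT1 := T_le_T_succ k (m + 1)
    have h1 := hNE V A _ _ Λ hsub (by omega) c r 0 (by norm_num) h.arr h.near_le
      (fun h0 => absurd h0 (Nat.succ_ne_zero m))
    refine (h1.mono_time ?_).mono_goal ?_
    · calc T k (m + 1) ≤ T k (m + 1) + 5 * U k (m + 1) := Nat.le_add_right _ _
        _ ≤ (M + 2) * (T k (m + 1) + 5 * U k (m + 1)) := Nat.le_mul_of_pos_left _ (by omega)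
    · rintro c' r' - ⟨τ, hτ, hr, hZ⟩
      refine ⟨(4 * g + d) * S k (m + 1) + τ, ?_, ?_, ?_⟩
      · calc (4 * g + d) * S k (m + 1) + τ < (4 * g + d) * S k (m + 1) + S k (m + 1) := by omega
          _ = (4 * g + d + 1) * S k (m + 1) := by ring
          _ ≤ ee k * S k (m + 1) := Nat.mul_le_mul_right _ hlt.le
      · rw [hr, exitB_outT hτ]; rfl
      · intro j hj
        apply hZ j
        right
        refine ⟨?_, rfl, rfl, ?_, ?_⟩
        · rintro ⟨cn, i⟩ - ⟨h2, h3⟩
          cases cn <;> simp_all [ladder, Cn.srcK, Cn.srcS]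
        · show 4 * S k (m + 1 + 1) ≤ cellK k (m + 1) s g + d
          unfold cellK; omega
        · have h4 : cellK k (m + 1) s g + d - 4 * S k (m + 1 + 1) = ee k * s + (4 * g + d) := by
            have h5 : cellK k (m + 1) s g + d =
                4 * S k (m + 1 + 1) + (ee k * s + (4 * g + d)) := by unfold cellK; ring
            rw [h5]; omega
          have h6 : 4 * g + d < ee k := by omega
          have h7 : (ee k * s + (4 * g + d)) / ee k = s := by
            rw [Nat.mul_add_div (by omega), Nat.div_eq_of_lt h6, add_zero]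
          have h8 : (ee k * s + (4 * g + d)) % ee k = 4 * g + d := by
            rw [Nat.mul_add_mod, Nat.mod_eq_of_lt h6]
          show c' j ∈ Z ((cellK k (m + 1) s g + d - 4 * S k (m + 1 + 1)) / ee k)
            ((cellK k (m + 1) s g + d - 4 * S k (m + 1 + 1)) % ee k * S k (m + 1) + τ)
          rw [h4, h7, h8]
          exact hj
  | zero =>
    have hS1 : S k (0 + 1) = ee k := by rw [S_succ]; simp [S]
    have hout : ∀ d', outT k (0 + 1) s (4 * g + d') = Sum.inl ((cellK k 0 s g + d', Kind.b), ()) := by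
      intro d'
      have := exitB_outT (k := k) (n := 0) (s := s) (g := g) (d := d') (τ := 0) (S_pos k 0)
      have e : (4 * g + d') * S k 0 + 0 = 4 * g + d' := by simp [S]
      rw [e] at this
      exact this
    have hr : r = φ (outT k (0 + 1) s (4 * g + d)) := by
      obtain ⟨i, -, σ, -, h1, -⟩ := h.arr
      rw [h1, hout]; rfl
    have hne : ∀ j, c j ≠ r := by
      obtain ⟨i, -, σ, -, -, h1, -⟩ := h.arr
      exact h1
    have hemp : ∀ j, j ∉ F → j = b := by
      intro j hj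
      by_contra hjb
      have h1 : {j | j ∉ F ∧ j ≠ b}.ncard = 0 := Nat.le_zero.1 h.few
      rw [Set.ncard_eq_zero (Set.toFinite _)] at h1
      have h2 : j ∈ {j | j ∉ F ∧ j ≠ b} := ⟨hj, hjb⟩
      rw [h1] at h2
      exact h2
    by_cases hc : ∀ j, c j ∉ Z s (4 * g + d)
    · exact Safe.done ⟨4 * g + d, by rw [hS1]; omega, hr, hc⟩ hne
    · push Not at hc
      obtain ⟨j, hj⟩ := hc
      have hjF : j ∉ F := fun hF => h.zero rfl j hF d (by omega) hj
      obtain rfl := hemp j hjF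
      have hfar := hM.far s hs (4 * g + d) (by rw [hS1]; omega) (c j) hj
      have hUT := U_le_T_succ k 0
      have hT0 : T k 0 = 0 := rfl
      have hok : (ladder k 0).ok (Cn.C, cellK k 0 s g + d) := by
        show cellK k 0 s g + d + 1 < J k 0
        unfold cellK J
        have : s * ee k ≤ 2 * ee k := Nat.mul_le_mul_right _ (by omega)
        omega
      have hlen : (ladder k 0).len (Cn.C, cellK k 0 s g + d) = 4 * U k 0 := rfl
      have hstep := St.step (k := k) (n := 0) (c0 := (Cn.C, cellK k 0 s g + d)) hNE hM hΛ hs hg hok h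
        (by
          rintro ⟨v, hv⟩
          refine hfar _ (R_mono ?_ hv)
          rw [hlen, hT0]
          omega)
      have hfin := hstep.comp (goal' := GoalZ k 0 φ Z s) (t' := 0) (by
        rintro c' r' hne' ⟨hSt, hR⟩
        refine Safe.done ⟨4 * g + d + 1, by rw [hS1]; omega, ?_, ?_⟩ hne'
        · obtain ⟨i, -, σ, -, h1, -⟩ := hSt.arr
          rw [h1, show 4 * g + d + 1 = 4 * g + (d + 1) from rfl, hout]
          rfl
        · intro i hi
          by_cases hiF : i ∈ F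
          · exact hSt.zero rfl i hiF (d + 1) (by omega) hi
          · obtain rfl := hemp i hiF
            have hd1 : Disjoint (Z s (4 * g + d)) (Z s (4 * g + d + 1)) :=
              hM.Zdisj s hs _ (by rw [hS1]; omega) _ (by rw [hS1]; omega) (by omega)
            have hnot : c i ∉ Z s (4 * g + d + 1) := fun hh => Set.disjoint_left.1 hd1 hj hh
            obtain ⟨t', ht', hR'⟩ := Z_back hM hs (by rw [hS1]; omega : 4 * g + d + 1 < S k (0 + 1))
              _ _ _ hi hnot (hR i)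
            refine hfar _ (R_mono ?_ hR')
            rw [hlen, hT0] at ht'
            omega)
      refine hfin.mono_time ?_
      rw [add_zero]
      exact Nat.le_mul_of_pos_left _ (by omega)

end CR
end

section

/-!
# The crossing argument (MP_09393f_co)
-/

namespace CR

variable {k n : ℕ} {V : Type} {A : V → V → Prop} {φ : VT k (n + 1) → V} {Z : ℕ → ℕ → Set V}
  {Λ s g M : ℕ} {b : Fin k} {F : Set (Fin k)} {c : Fin k → V} {r : V}

private theorem Cross_RN_trans {t1 t2 : ℕ} {y y' : V} {x : (ladder k n).X}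
    (h : R A t1 y y') (h' : RN k n (ladder k n) A φ t2 y' x) :
    RN k n (ladder k n) A φ (t1 + t2) y x := by
  obtain ⟨v, hv⟩ := h'
  exact ⟨v, R_trans h hv⟩

private theorem Cross_RN_mono {t1 t2 : ℕ} {y : V} {x : (ladder k n).X} (ht : t1 ≤ t2)
    (h : RN k n (ladder k n) A φ t1 y x) : RN k n (ladder k n) A φ t2 y x := by
  obtain ⟨v, hv⟩ := h
  exact ⟨v, R_mono ht hv⟩

theorem exit_a (hNE : NE k n) (hM : ModEmb k (n + 1) A φ Z Λ) (hΛ : 2 * T k (n + 1) ≤ Λ)
    (hs : s < 3) (hg : g ≤ k)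
    (h : St k n A φ Z s g b F (M + 4) (cellK k n s g, Kind.a) c r) :
    Safe A (GoalZ k n φ Z s) ((M + 5) * (T k n + 5 * U k n)) c r := by
  -- numerical facts
  have hL : 6 * U k n ≤ Λ := by
    have := U_le_T_succ k n
    omega
  have hκ : (M + 5) * T k n < U k n := by
    have h1 : (M + 5) * T k n ≤ (Bd k n + 1) * T k n :=
      Nat.mul_le_mul_right _ (by have := h.le; omega)
    exact h1.trans_lt (BT_lt_U k n)
  have hk0 : 4 * S k (n + 1) ≤ cellK k n s g := by unfold cellK; omega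
  have hk3 : cellK k n s g + 3 < J k n := by
    unfold cellK J
    have h1 : s * ee k ≤ 2 * ee k := Nat.mul_le_mul_right _ (by omega)
    have h2 : ee k = 4 * (k + 1) := rfl
    omega
  set k0 := cellK k n s g with hk0def
  have e1 : (M + 5) * T k n = (M + 4) * T k n + T k n := by ring
  have e2 : (M + 4) * T k n = (M + 3) * T k n + T k n := by ring
  -- time bookkeeping
  have tm : ∀ {a d : ℕ} {c' : Fin k → V} {r' : V}, a + 1 ≤ d →
      ∀ {P : (Fin k → V) → V → Prop},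
      Safe A P (T k n + 5 * U k n) c' r' →
      (∀ c'' r'', (∀ i, c'' i ≠ r'') → P c'' r'' →
        Safe A (GoalZ k n φ Z s) (a * (T k n + 5 * U k n)) c'' r'') →
      Safe A (GoalZ k n φ Z s) (d * (T k n + 5 * U k n)) c' r' := by
    intro a d c' r' had P h1 h2
    have h3 := h1.comp h2
    refine h3.mono_time ?_
    calc T k n + 5 * U k n + a * (T k n + 5 * U k n) = (a + 1) * (T k n + 5 * U k n) := by ring
      _ ≤ d * (T k n + 5 * U k n) := Nat.mul_le_mul_right _ had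
  by_cases c1 : RN k n (ladder k n) A φ (5 * U k n + (M + 5) * T k n) (c b) (k0, Kind.b)
  swap
  · -- case (1)
    have hst := St.step (c0 := (Cn.A, k0)) (M := M + 3) hNE hM hΛ hs hg
      (by simp only [ladder, Cn.okAt]; omega) h
      (by simpa [ladder, Cn.mul, Cn.dj, Cn.tgtK] using c1)
    refine tm (a := M + 4) (by omega) hst ?_
    intro c' r' _ hP
    exact exit_b (M := M + 2) hNE hM hΛ hs hg (d := 0) (by omega)
      (by simpa [ladder, Cn.dj, Cn.tgtK] using hP.1)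
  · -- case (2)
    have hG := (G1 hM hκ hL h.clear).resolve_right (not_not.2 c1)
    have hst := St.step (c0 := (Cn.B, k0)) (M := M + 3) hNE hM hΛ hs hg
      (by simp only [ladder, Cn.okAt]; omega) h
      (by simpa [ladder, Cn.mul, Cn.dj, Cn.tgtK] using hG)
    refine tm (a := M + 4) (by omega) hst ?_
    intro c' r' _ hP
    obtain ⟨h', hR'⟩ := hP
    have hR1 : R A (T k n + U k n) (c b) (c' b) := by
      simpa [ladder, Cn.mul] using hR' b
    replace h' : St k n A φ Z s g b F (M + 3) (k0 + 1, Kind.a) c' r' := by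
      simpa [ladder, Cn.dj, Cn.tgtK] using h'
    have hκ' : (M + 4) * T k n < U k n := by omega
    by_cases c2 : RN k n (ladder k n) A φ (5 * U k n + (M + 4) * T k n) (c' b) (k0 + 1, Kind.b)
    swap
    · -- case (2a)
      have hst := St.step (c0 := (Cn.A, k0 + 1)) (M := M + 2) hNE hM hΛ hs hg
        (by simp only [ladder, Cn.okAt]; omega) h'
        (by simpa [ladder, Cn.mul, Cn.dj, Cn.tgtK] using c2)
      refine tm (a := M + 3) (by omega) hst ?_
      intro c'' r'' _ hP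
      exact exit_b (M := M + 1) hNE hM hΛ hs hg (d := 1) (by omega)
        (by simpa [ladder, Cn.dj, Cn.tgtK] using hP.1)
    · -- case (2b)
      have hG := (G1 hM hκ' hL h'.clear).resolve_right (not_not.2 c2)
      have hst := St.step (c0 := (Cn.B, k0 + 1)) (M := M + 2) hNE hM hΛ hs hg
        (by simp only [ladder, Cn.okAt]; omega) h'
        (by simpa [ladder, Cn.mul, Cn.dj, Cn.tgtK] using hG)
      refine tm (a := M + 3) (by omega) hst ?_
      intro c'' r'' _ hP
      obtain ⟨h'', hR''⟩ := hP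
      have hR2 : R A (T k n + U k n) (c' b) (c'' b) := by
        simpa [ladder, Cn.mul] using hR'' b
      replace h'' : St k n A φ Z s g b F (M + 2) (k0 + 2, Kind.a) c'' r'' := by
        simpa [ladder, Cn.dj, Cn.tgtK] using h''
      -- the claim
      have claim : ¬ RN k n (ladder k n) A φ (5 * U k n + (M + 3) * T k n) (c'' b)
          (k0 + 2, Kind.b) := by
        intro hc
        have h1 : RN k n (ladder k n) A φ (6 * U k n + (M + 4) * T k n) (c' b)
            (k0 + 1 + 1, Kind.b) :=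
          Cross_RN_mono (by omega) (Cross_RN_trans hR2 hc)
        rcases G4 hM (by omega) (by omega) c2 h1 with ⟨t', ht', h2⟩ | ⟨t', ht', h2⟩
        · have h3 := Cross_RN_trans hR1 h2
          rcases G4 hM hk0 (by omega) c1 h3 with ⟨t'', ht'', _⟩ | ⟨t'', ht'', _⟩
          · omega
          · omega
        · exact h'.clear (Cross_RN_mono (by
            have : (M + 3 + 1) * T k n = (M + 4) * T k n := by ring
            omega) h2)
      have hst := St.step (c0 := (Cn.A, k0 + 2)) (M := M + 1) hNE hM hΛ hs hg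
        (by simp only [ladder, Cn.okAt]; omega) h''
        (by simpa [ladder, Cn.mul, Cn.dj, Cn.tgtK] using claim)
      refine tm (a := M + 2) (by omega) hst ?_
      intro c3 r3 _ hP
      exact exit_b (M := M) hNE hM hΛ hs hg (d := 2) (by omega)
        (by simpa [ladder, Cn.dj, Cn.tgtK] using hP.1)

end CR
end

section

/-!
# Approaching the exit (MP_09393f_co)
-/

namespace CR

variable {k n : ℕ} {V : Type} {A : V → V → Prop} {φ : VT k (n + 1) → V} {Z : ℕ → ℕ → Set V}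
  {Λ s g M : ℕ} {b : Fin k} {F : Set (Fin k)} {c : Fin k → V} {r : V}

theorem Approach_cell_lt {k n s g : ℕ} (hs : s < 3) (hg : g ≤ k) :
    cellK k n s g + 3 < J k n := by
  unfold cellK J ee
  interval_cases s <;> omega

theorem Approach_kap_lt {k n M : ℕ} (h : M ≤ Bd k n) : (M + 1) * T k n < U k n :=
  (Nat.mul_le_mul_right _ (by omega)).trans_lt (BT_lt_U k n)

theorem Approach_six {k n Λ : ℕ} (hΛ : 2 * T k (n + 1) ≤ Λ) : 6 * U k n ≤ Λ := by
  have := U_le_T_succ k n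
  omega

theorem Approach_aux (hNE : NE k n) (hM : ModEmb k (n + 1) A φ Z Λ) (hΛ : 2 * T k (n + 1) ≤ Λ)
    (hs : s < 3) (hg : g ≤ k) : ∀ (d : ℕ),
      (∀ (j M : ℕ) (c : Fin k → V) (r : V), j + d = cellK k n s g → 2 * d + 4 ≤ M →
        St k n A φ Z s g b F M (j, Kind.b) c r →
        Safe A (GoalZ k n φ Z s) ((M + 1) * (T k n + 5 * U k n)) c r) ∧
      (∀ (j M : ℕ) (c : Fin k → V) (r : V), j + d = cellK k n s g → 2 * d + 5 ≤ M →
        St k n A φ Z s g b F M (j, Kind.a) c r →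
        Safe A (GoalZ k n φ Z s) ((M + 1) * (T k n + 5 * U k n)) c r) := by
  intro d
  have hcell := Approach_cell_lt (k := k) (n := n) hs hg
  have h6 := Approach_six hΛ
  induction d with
  | zero =>
    constructor
    · intro j M c r hj hMd h
      obtain ⟨M1, rfl⟩ : ∃ M1, M = M1 + 1 := ⟨M - 1, by omega⟩
      obtain rfl : j = cellK k n s g := by omega
      exact exit_b hNE hM hΛ hs hg (d := 0) (by omega) h
    · intro j M c r hj hMd h
      obtain ⟨M1, rfl⟩ : ∃ M1, M = M1 + 4 := ⟨M - 4, by omega⟩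
      obtain rfl : j = cellK k n s g := by omega
      exact exit_a hNE hM hΛ hs hg h
  | succ d ih =>
    have hb : ∀ (j M : ℕ) (c : Fin k → V) (r : V), j + (d + 1) = cellK k n s g →
        2 * (d + 1) + 4 ≤ M → St k n A φ Z s g b F M (j, Kind.b) c r →
        Safe A (GoalZ k n φ Z s) ((M + 1) * (T k n + 5 * U k n)) c r := by
      intro j M c r hj hMd h
      obtain ⟨M1, rfl⟩ : ∃ M1, M = M1 + 1 := ⟨M - 1, by omega⟩
      have hjJ : j + 1 < J k n := by omega
      have htime : (T k n + 5 * U k n) + (M1 + 1) * (T k n + 5 * U k n) =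
          (M1 + 1 + 1) * (T k n + 5 * U k n) := by ring
      rw [← htime]
      rcases G2 hM (Approach_kap_lt h.le) h6 h.clear with h1 | h1
      · have hst := St.step hNE hM hΛ hs hg (c0 := ((Cn.D, j) : Cn × ℕ)) (M := M1)
          (show (ladder k n).ok ((Cn.D, j) : Cn × ℕ) from hjJ) h h1
        refine hst.comp fun c' r' _ hg' => ?_
        exact ih.2 (j + 1) M1 c' r' (by omega) (by omega) hg'.1
      · have hst := St.step hNE hM hΛ hs hg (c0 := ((Cn.C, j) : Cn × ℕ)) (M := M1)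
          (show (ladder k n).ok ((Cn.C, j) : Cn × ℕ) from hjJ) h h1
        refine hst.comp fun c' r' _ hg' => ?_
        exact ih.1 (j + 1) M1 c' r' (by omega) (by omega) hg'.1
    refine ⟨hb, ?_⟩
    intro j M c r hj hMd h
    obtain ⟨M1, rfl⟩ : ∃ M1, M = M1 + 1 := ⟨M - 1, by omega⟩
    have hjJ : j + 1 < J k n := by omega
    have htime : (T k n + 5 * U k n) + (M1 + 1) * (T k n + 5 * U k n) =
        (M1 + 1 + 1) * (T k n + 5 * U k n) := by ring
    rw [← htime]
    rcases G1 hM (Approach_kap_lt h.le) h6 h.clear with h1 | h1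
    · have hst := St.step hNE hM hΛ hs hg (c0 := ((Cn.B, j) : Cn × ℕ)) (M := M1)
        (show (ladder k n).ok ((Cn.B, j) : Cn × ℕ) from hjJ) h
        (by
          have h2 : (ladder k n).len ((Cn.B, j) : Cn × ℕ) = U k n := Nat.one_mul _
          rw [h2]
          exact h1)
      refine hst.comp fun c' r' _ hg' => ?_
      exact ih.2 (j + 1) M1 c' r' (by omega) (by omega) hg'.1
    · have hst := St.step hNE hM hΛ hs hg (c0 := ((Cn.A, j) : Cn × ℕ)) (M := M1)
        (show (ladder k n).ok ((Cn.A, j) : Cn × ℕ) from (by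
          show j < J k n
          omega)) h h1
      refine hst.comp fun c' r' _ hg' => ?_
      exact hb j M1 c' r' hj (by omega) hg'.1

/-- from the tracks -/
theorem exit_track (hNE : NE k n) (hM : ModEmb k (n + 1) A φ Z Λ) (hΛ : 2 * T k (n + 1) ≤ Λ)
    (hs : s < 3) (hg : g ≤ k) : ∀ (d j M : ℕ) (K : Kind), K ≠ Kind.E →
      j + d = cellK k n s g → (if K = Kind.a then 2 * d + 5 else 2 * d + 4) ≤ M →
      ∀ (c : Fin k → V) (r : V),
      St k n A φ Z s g b F M (j, K) c r →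
      Safe A (GoalZ k n φ Z s) ((M + 1) * (T k n + 5 * U k n)) c r := by
  intro d j M K hK hj hMd c r h
  cases K with
  | a => exact (Approach_aux hNE hM hΛ hs hg d).2 j M c r hj (by simpa using hMd) h
  | b => exact (Approach_aux hNE hM hΛ hs hg d).1 j M c r hj (by simpa using hMd) h
  | E => exact absurd rfl hK

/-- from an entry node -/
theorem exit_E (hNE : NE k n) (hM : ModEmb k (n + 1) A φ Z Λ) (hΛ : 2 * T k (n + 1) ≤ Λ)
    (hs : s < 3) (hg : g ≤ k) {j : ℕ} (hj : j < 4 * S k (n + 1))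
    (h : St k n A φ Z s g b F (Bd k n) (j, Kind.E) c r) :
    Safe A (GoalZ k n φ Z s) (T k (n + 1)) c r := by
  have hcell := Approach_cell_lt (k := k) (n := n) hs hg
  have h6 := Approach_six hΛ
  have hkj : 4 * S k (n + 1) ≤ cellK k n s g := by unfold cellK; omega
  obtain ⟨B1, hB1⟩ : ∃ B1, Bd k n = B1 + 1 := ⟨Bd k n - 1, by unfold Bd; omega⟩
  have hB2 : B1 = 2 * J k n + 19 := by unfold Bd at hB1; omega
  rw [T_succ, hB1]
  rw [hB1] at h
  have htime : (T k n + 5 * U k n) + (B1 + 1) * (T k n + 5 * U k n) =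
      (B1 + 1 + 1) * (T k n + 5 * U k n) := by ring
  rw [← htime]
  rcases G3 hM (Approach_kap_lt h.le) h6 h.clear with h1 | h1
  · have hst := St.step hNE hM hΛ hs hg (c0 := ((Cn.El, j) : Cn × ℕ)) (M := B1)
      (show (ladder k n).ok ((Cn.El, j) : Cn × ℕ) from hj) h
      (by
        have h2 : (ladder k n).len ((Cn.El, j) : Cn × ℕ) = U k n := Nat.one_mul _
        rw [h2]
        exact h1)
    refine hst.comp fun c' r' _ hg' => ?_
    exact (Approach_aux hNE hM hΛ hs hg (cellK k n s g - j)).1 j B1 c' r' (by omega) (by omega)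
      hg'.1
  · have hst := St.step hNE hM hΛ hs hg (c0 := ((Cn.Er, j) : Cn × ℕ)) (M := B1)
      (show (ladder k n).ok ((Cn.Er, j) : Cn × ℕ) from hj) h
      (by
        have h2 : (ladder k n).len ((Cn.Er, j) : Cn × ℕ) = U k n := Nat.one_mul _
        rw [h2]
        exact h1)
    refine hst.comp fun c' r' _ hg' => ?_
    exact (Approach_aux hNE hM hΛ hs hg (cellK k n s g - (j + 1))).1 (j + 1) B1 c' r' (by omega)
      (by omega) hg'.1

end CR
end

section

/-!
# The main statement `NE k n` (MP_09393f_co)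
-/

namespace CR

theorem NE_zero (k : ℕ) : NE k 0 := by
  intro V A φ Z Λ h hΛ c r s hs hArr hnear hz
  obtain ⟨i, hi, σ, hσ, hr, hne, -, -⟩ := hArr
  refine Safe.done ⟨0, S_pos k 0, ?_, fun j => hz rfl j 0 (S_pos k 0)⟩ hne
  rw [hr]
  rfl

/-- choice of a group of four cells whose exits are free (only used for `n = 0`) -/
theorem exists_group {k n : ℕ} {V : Type} {A : V → V → Prop} {φ : VT k (n + 1) → V}
    {Z : ℕ → ℕ → Set V} {Λ : ℕ} (h : ModEmb k (n + 1) A φ Z Λ) (hn : n = 0) {s : ℕ}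
    (hs : s < 3) (c : Fin k → V) : ∃ g ≤ k, ∀ j, ∀ d < 4, c j ∉ Z s (4 * g + d) := by
  subst hn
  by_contra hcon
  have hcon' : ∀ g : Fin (k + 1), ∃ j, ∃ d < 4, c j ∈ Z s (4 * (g : ℕ) + d) := by
    intro g
    by_contra hh
    refine hcon ⟨g, by have := g.2; omega, fun j d hd hj => hh ⟨j, d, hd, hj⟩⟩
  choose f d hd hf using hcon'
  have hS : S k (0 + 1) = 4 * (k + 1) := by
    rw [S_succ]
    simp [S, ee]
  have hinj : Function.Injective f := by
    intro g g' hgg
    by_contra hne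
    have hne' : (g : ℕ) ≠ g' := fun hh => hne (Fin.ext hh)
    have h1 := g.2
    have h2 := g'.2
    have h3 := hd g
    have h4 := hd g'
    have hdis := h.Zdisj s hs (4 * (g : ℕ) + d g) (by omega) (4 * (g' : ℕ) + d g') (by omega)
      (by omega)
    have h5 := hf g
    rw [hgg] at h5
    exact Set.disjoint_left.1 hdis h5 (hf g')
  have hcard := Fintype.card_le_of_injective f hinj
  simp only [Fintype.card_fin] at hcard
  omega

/-- the first state -/
theorem St.start {k n : ℕ} {V : Type} {A : V → V → Prop} {φ : VT k (n + 1) → V}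
    {Z : ℕ → ℕ → Set V} {Λ : ℕ} (h : ModEmb k (n + 1) A φ Z Λ) (hΛ : 2 * T k (n + 1) ≤ Λ)
    (c : Fin k → V) (r : V) {s g : ℕ} (b : Fin k) {i σ : ℕ} (hi : i < 4) (hσ : σ < S k (n + 1))
    (hr : r = φ (inT k (n + 1) i σ)) (hne : ∀ j, c j ≠ r)
    (hP : ∀ j, c j ∉ φ '' Priv k (n + 1) i σ)
    (hB : ∀ j, Behind k (n + 1) A φ r (c j) ∨ ¬ R A (Rr k (n + 1)) (c j) r)
    (hb : b ∈ near k (n + 1) A φ (T k (n + 1)) c) (hb' : ¬ Behind k (n + 1) A φ r (c b))
    (hnear : (near k (n + 1) A φ (T k (n + 1)) c).ncard ≤ n + 1)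
    (hg : n = 0 → ∀ j, ∀ d < 4, c j ∉ Z s (4 * g + d)) :
    St k n A φ Z s g b (near k (n + 1) A φ (T k (n + 1)) c)ᶜ (Bd k n)
      (i * S k (n + 1) + σ, Kind.E) c r := by
  have hBT := BT_lt_U k n
  have hU := U_le_T_succ k n
  refine ⟨le_rfl, ?_, ?_, ?_, ?_, ?_, ?_, ?_⟩
  · have h1 := J_ge k n
    have h2 : (i + 1) * S k (n + 1) ≤ 4 * S k (n + 1) := Nat.mul_le_mul_right _ (by omega)
    have h3 : (i + 1) * S k (n + 1) = i * S k (n + 1) + S k (n + 1) := by ring
    show i * S k (n + 1) + σ < J k n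
    omega
  · refine ⟨0, by omega, 0, S_pos k n, hr, hne, ?_, ?_⟩
    · rintro j ⟨v, hv, hjv⟩
      exact hP j ⟨Sum.inl ((i * S k (n + 1) + σ, Kind.E), v), ⟨v, rfl⟩, hjv⟩
    · intro j
      rcases hB j with h1 | h1
      · left
        intro z m hR
        exact h1 (Sum.inl ((i * S k (n + 1) + σ, Kind.E), z)) m hR
      · right
        intro h2
        exact h1 (R_mono (Rr_le_succ k n) h2)
  · intro hRN
    have h1 : ¬ R A (Rr k (n + 1)) (c b) r := by
      rcases hB b with h1 | h1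
      · exact absurd h1 hb'
      · exact h1
    rcases LE h (by omega) hRN with ⟨v, hv⟩ | ⟨_, i', hi', σ', hσ', hij, hR⟩
    · exact hP b ⟨_, ⟨v, rfl⟩, hv.symm⟩
    · apply h1
      rw [Rr_succ, hr]
      have h2 : inT k (n + 1) i' σ' = inT k (n + 1) i σ := by
        simp only [inT]
        rw [hij]
      rw [← h2]
      exact hR
  · exact fun hc => hc hb
  · intro j hj u hR
    apply hj
    refine ⟨u, ?_⟩
    rw [T_succ]
    exact hR
  · have h1 : {j | j ∉ (near k (n + 1) A φ (T k (n + 1)) c)ᶜ ∧ j ≠ b} =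
        near k (n + 1) A φ (T k (n + 1)) c \ {b} := by
      ext j
      simp
    rw [h1, Set.ncard_sdiff_singleton_of_mem hb]
    omega
  · intro hn j _ d hd
    exact hg hn j d hd

theorem NE_succ {k n : ℕ} (hNE : NE k n) : NE k (n + 1) := by
  intro V A φ Z Λ hM hΛ c r s hs hArr hnear _
  by_cases hall : ∀ j ∈ near k (n + 1) A φ (T k (n + 1)) c, Behind k (n + 1) A φ r (c j)
  · exact run_lemma hM (by omega) c r hs hArr hall
  · obtain ⟨b, hb⟩ := not_forall.1 hall
    obtain ⟨hb, hb'⟩ := Classical.not_imp.1 hb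
    obtain ⟨i, hi, σ, hσ, hr, hne, hP, hB⟩ := hArr
    obtain ⟨g, hg, hgc⟩ : ∃ g ≤ k, n = 0 → ∀ j, ∀ d < 4, c j ∉ Z s (4 * g + d) := by
      by_cases hn : n = 0
      · obtain ⟨g, hg, hgc⟩ := exists_group hM hn hs c
        exact ⟨g, hg, fun _ => hgc⟩
      · exact ⟨0, Nat.zero_le _, fun hh => absurd hh hn⟩
    have hst := St.start hM hΛ c r b hi hσ hr hne hP hB hb hb' hnear hgc
    have hj : i * S k (n + 1) + σ < 4 * S k (n + 1) := by
      have h2 : (i + 1) * S k (n + 1) ≤ 4 * S k (n + 1) := Nat.mul_le_mul_right _ (by omega)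
      have h3 : (i + 1) * S k (n + 1) = i * S k (n + 1) + S k (n + 1) := by ring
      omega
    exact exit_E hNE hM hΛ hs hg hj hst

theorem NE_all (k : ℕ) : ∀ n, NE k n
  | 0 => NE_zero k
  | n + 1 => NE_succ (NE_all k n)

end CR
end

section

/-!
# The game on the top network (MP_09393f_co)
-/

namespace CR

/-- the returning set of positions: the robber has just arrived at one of the two copies -/
def XTop (k N Λ : ℕ) (c : Fin k → VTop k N Λ) (r : VTop k N Λ) : Prop :=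
  ∃ β, Arr k N (AdjTop k N Λ) (nodeEmb k N (topNet Λ) id β) c r

/-- the number of levels -/
def NN (k : ℕ) : ℕ := k + 1

/-- length of the long strands -/
def ΛΛ (k : ℕ) : ℕ := 2 * T k (NN k) + 2 * U k (NN k) + 2

theorem TopGame_two_le (k : ℕ) : 2 ≤ ΛΛ k := by unfold ΛΛ; omega

theorem TopGame_Rr_lt (k : ℕ) : Rr k (NN k) < ΛΛ k := by
  have := Rr_lt_U k (NN k)
  unfold ΛΛ
  omega

theorem top_pass (k : ℕ) (β : Bool) (c : Fin k → VTop k (NN k) (ΛΛ k)) (r : VTop k (NN k) (ΛΛ k))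
    (h : Arr k (NN k) (AdjTop k (NN k) (ΛΛ k)) (nodeEmb k (NN k) (topNet (ΛΛ k)) id β) c r) :
    ∃ t, Safe (AdjTop k (NN k) (ΛΛ k)) (fun c' r' =>
      Arr k (NN k) (AdjTop k (NN k) (ΛΛ k)) (nodeEmb k (NN k) (topNet (ΛΛ k)) id !β) c' r')
      t c r := by
  have hΛ2 := TopGame_two_le k
  have hRr := TopGame_Rr_lt k
  have hLn : Ln k (NN k) < ΛΛ k := by
    have := Ln_lt_U k (NN k)
    unfold ΛΛ
    omega
  have hT : 2 * T k (NN k) ≤ ΛΛ k - 1 := by unfold ΛΛ; omega
  have hok : (topNet (ΛΛ k)).ok (β, 0) := by show 0 < 3; omega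
  have hcard : (near k (NN k) (AdjTop k (NN k) (ΛΛ k))
      (nodeEmb k (NN k) (topNet (ΛΛ k)) id β) (T k (NN k)) c).ncard ≤ NN k := by
    have h1 := Set.ncard_le_card (near k (NN k) (AdjTop k (NN k) (ΛΛ k))
      (nodeEmb k (NN k) (topNet (ΛΛ k)) id β) (T k (NN k)) c)
    rw [Nat.card_eq_fintype_card, Fintype.card_fin] at h1
    unfold NN at *
    omega
  have hpass := pass (k := k) (n := NN k) (N := topNet (ΛΛ k)) (A := AdjTop k (NN k) (ΛΛ k))
    (φ := id) (Z := fun _ _ _ => ∅) (NE_all k (NN k)) (topNet_good hΛ2)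
    (top_netEmb k (NN k) hΛ2) (c0 := (β, 0)) hok hRr (Λ := ΛΛ k - 1)
    (top_sub k (NN k) hΛ2 hLn β) hT c r h hcard
    (fun h0 => absurd h0 (by unfold NN; omega))
  exact ⟨_, hpass.mono_goal (fun c' r' _ hg => hg.1)⟩

/-- the start -/
theorem top_start (k : ℕ) (c : Fin k → VTop k (NN k) (ΛΛ k)) :
    ∃ σ < S k (NN k), ∀ c' : Fin k → VTop k (NN k) (ΛΛ k),
      (∀ i, Step (AdjTop k (NN k) (ΛΛ k)) (c i) (c' i)) →
      XTop k (NN k) (ΛΛ k) c' (Sum.inl (true, inT k (NN k) 3 σ)) := by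
  classical
  have hΛ2 := TopGame_two_le k
  have hRr := TopGame_Rr_lt k
  have hN := topNet_good hΛ2
  have hemb := top_netEmb k (NN k) hΛ2
  have hok : (topNet (ΛΛ k)).ok (false, 0) := by show 0 < 3; omega
  -- a strand without cops
  obtain ⟨τ, hτ, hτ1, hτ2⟩ : ∃ τ < S k (NN k),
      (∀ j p, c j ≠ Sum.inr ((false, 0), τ, p)) ∧
      (∀ j, ∀ v ∈ Priv k (NN k) 3 (S k (NN k) - 1 - τ), c j ≠ Sum.inl (true, v)) := by
    by_contra hcon
    have hcon' : ∀ τ : Fin (S k (NN k)), ∃ j, (∃ p, c j = Sum.inr ((false, 0), (τ : ℕ), p)) ∨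
        (∃ v ∈ Priv k (NN k) 3 (S k (NN k) - 1 - τ), c j = Sum.inl (true, v)) := by
      intro τ
      by_contra hh
      push Not at hh
      exact hcon ⟨τ, τ.2, fun j p => (hh j).1 p, fun j v hv => (hh j).2 v hv⟩
    choose g hg using hcon'
    have hinj : Function.Injective g := by
      intro τ τ' hττ
      have h1 := hg τ
      have h2 := hg τ'
      rw [← hττ] at h2
      rcases h1 with ⟨p, hp⟩ | ⟨v, hv, hp⟩
      · rcases h2 with ⟨p', hp'⟩ | ⟨v', hv', hp'⟩
        · have h3 := Sum.inr.inj (hp.symm.trans hp')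
          exact Fin.ext (congrArg (fun q => q.2.1) h3)
        · exact absurd (hp.symm.trans hp') Sum.inr_ne_inl
      · rcases h2 with ⟨p', hp'⟩ | ⟨v', hv', hp'⟩
        · exact absurd (hp'.symm.trans hp) Sum.inr_ne_inl
        · have h3 := Sum.inl.inj (hp.symm.trans hp')
          have h4 : v = v' := congrArg (fun q => q.2) h3
          subst h4
          by_contra hne
          have hne' : (τ : ℕ) ≠ τ' := fun hh => hne (Fin.ext hh)
          have hlt := τ.2
          have hlt' := τ'.2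
          have hd := Priv_disj (k := k) (n := NN k) (i := 3) (i' := 3)
            (σ := S k (NN k) - 1 - τ) (σ' := S k (NN k) - 1 - τ') (by omega) (by omega)
            (Or.inr (by omega))
          exact Set.disjoint_left.1 hd hv hv'
    have hcard := Fintype.card_le_of_injective g hinj
    simp only [Fintype.card_fin] at hcard
    have := lt_S k k
    unfold NN at hcard
    omega
  refine ⟨S k (NN k) - 1 - τ, by omega, fun c' hc' => ?_⟩
  -- no cop is in the private part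
  have hpriv : ∀ j, ∀ v ∈ Priv k (NN k) 3 (S k (NN k) - 1 - τ), c' j ≠ Sum.inl (true, v) := by
    intro j v hv heq
    have hR : R (AdjTop k (NN k) (ΛΛ k)) 1 (c j)
        (id (Sum.inl ((topNet (ΛΛ k)).tgt (false, 0), v))) := by
      have := R_of_step (hc' j)
      rw [heq] at this
      exact this
    rcases priv_back (φ := id) hN hemb (c := (false, 0)) hok hτ 1 (c j) v hv hR with
      ⟨v', hv', h1⟩ | ⟨q, _, h1⟩ | ⟨t', ht', _⟩
    · exact hτ2 j v' hv' h1
    · exact hτ1 j q h1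
    · have : ΛΛ k ≤ 1 := by
        have h3 : (topNet (ΛΛ k)).len (false, 0) = ΛΛ k := rfl
        rw [h3] at ht'
        omega
      omega
  have hmem : inT k (NN k) 3 (S k (NN k) - 1 - τ) ∈ Priv k (NN k) 3 (S k (NN k) - 1 - τ) :=
    inT_mem_Priv k k 3 _
  refine ⟨true, 3, by omega, S k (NN k) - 1 - τ, by omega, rfl, fun j => hpriv j _ hmem, ?_, ?_⟩
  · rintro j ⟨v, hv, hv'⟩
    exact hpriv j v hv hv'.symm
  · intro j
    by_cases hR : R (AdjTop k (NN k) (ΛΛ k)) (Rr k (NN k)) (c' j)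
        (Sum.inl (true, inT k (NN k) 3 (S k (NN k) - 1 - τ)))
    · left
      rcases inT_back (k := k) (n := k) (φ := id) hN hemb (c := (false, 0)) hok hτ _ (c' j) hR with
        h1 | ⟨q, hq, _, h1⟩ | ⟨t', ht', _⟩
      · exact absurd h1 (hpriv j _ hmem)
      · intro z m hz
        rw [h1] at hz
        rcases strand_fwd (φ := id) hN hemb (c := (false, 0)) hok hτ m q _ hq hz with
          ⟨q', _, h2⟩ | ⟨m', hm', h2⟩
        · exact absurd h2 Sum.inl_ne_inr
        · exact ⟨m', hm', h2⟩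
      · exfalso
        have h3 : (topNet (ΛΛ k)).len (false, 0) = ΛΛ k := rfl
        rw [h3] at ht'
        omega
    · exact Or.inr hR

theorem top_return (k : ℕ) (c : Fin k → VTop k (NN k) (ΛΛ k)) (r : VTop k (NN k) (ΛΛ k))
    (h : XTop k (NN k) (ΛΛ k) c r) : (∀ i, c i ≠ r) ∧
      ∃ (r' : VTop k (NN k) (ΛΛ k)) (t : ℕ), Step (AdjTop k (NN k) (ΛΛ k)) r r' ∧
        (∀ i, c i ≠ r') ∧ ∀ c' : Fin k → VTop k (NN k) (ΛΛ k),
          (∀ i, Step (AdjTop k (NN k) (ΛΛ k)) (c i) (c' i)) →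
          (∀ i, c' i ≠ r') ∧ Safe (AdjTop k (NN k) (ΛΛ k)) (XTop k (NN k) (ΛΛ k)) t c' r' := by
  obtain ⟨β, hArr⟩ := h
  have hne : ∀ i, c i ≠ r := by
    obtain ⟨i, _, σ, _, _, h1, _⟩ := hArr
    exact h1
  refine ⟨hne, ?_⟩
  obtain ⟨t, ht⟩ := top_pass k β c r hArr
  have hβ : ∀ r', (∃ i < 4, ∃ σ < S k (NN k), r' =
      nodeEmb k (NN k) (topNet (ΛΛ k)) id β (inT k (NN k) i σ)) →
      (∃ i < 4, ∃ σ < S k (NN k), r' =
      nodeEmb k (NN k) (topNet (ΛΛ k)) id (!β) (inT k (NN k) i σ)) → False := by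
    rintro r' ⟨i, _, σ, _, h1⟩ ⟨i', _, σ', _, h2⟩
    have h3 := h1.symm.trans h2
    unfold nodeEmb at h3
    have h4 := Sum.inl.inj h3
    have h5 : β = !β := congrArg (fun q => q.1) h4
    cases β <;> simp at h5
  cases ht with
  | done hg _ =>
    exfalso
    refine hβ r ?_ ?_
    · obtain ⟨i, hi, σ, hσ, h1, _⟩ := hArr
      exact ⟨i, hi, σ, hσ, h1⟩
    · obtain ⟨i, hi, σ, hσ, h1, _⟩ := hg
      exact ⟨i, hi, σ, hσ, h1⟩
  | @move t1 _ _ r' h1 h2 h3 h4 =>
    refine ⟨r', t1, h1, h2, fun c' hc' => ⟨h3 c' hc', ?_⟩⟩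
    exact (h4 c' hc').mono_goal (fun c'' r'' _ hg => ⟨!β, hg⟩)

end CR
end

section

/-!
# Assembly (MP_09393f_co)
-/

namespace CR

open Relation

/-- the statement for `k` cops -/
def Goal (k : ℕ) : Prop :=
    ∃ (V : Type) (_ : Finite V) (G : Digraph V),
      (∀ v, ¬ G.Adj v v) ∧
      (SimpleGraph.fromRel G.Adj).Connected ∧
      (∀ v, Set.ncard {u | G.Adj u v} = Set.ncard {w | G.Adj v w}) ∧
      (∃ f : V → EuclideanSpace ℝ (Fin 2), Function.Injective f ∧
        ∃ γ : V → V → (unitInterval → EuclideanSpace ℝ (Fin 2)),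
          (∀ u v, (SimpleGraph.fromRel G.Adj).Adj u v →
            Continuous (γ u v) ∧ Function.Injective (γ u v) ∧
            γ u v 0 = f u ∧ γ u v 1 = f v) ∧
          (∀ u v w, (SimpleGraph.fromRel G.Adj).Adj u v →
            ∀ s, γ u v s = f w → w = u ∨ w = v) ∧
          (∀ u v x y, (SimpleGraph.fromRel G.Adj).Adj u v →
            (SimpleGraph.fromRel G.Adj).Adj x y →
            Sym2.mk (u, v) ≠ Sym2.mk (x, y) →
            ∀ s t, γ u v s = γ x y t →
              ∃ z, (z = u ∨ z = v) ∧ (z = x ∨ z = y) ∧ γ u v s = f z)) ∧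
      ¬ (∃ S : Set ((Fin k → V) × V), ∃ ρ : (Fin k → V) × V → ℕ,
          ∃ c₀ : Fin k → V,
            (∀ r₀ : V, (∃ i, c₀ i = r₀) ∨ (c₀, r₀) ∈ S) ∧
            ∀ p ∈ S, ∃ c' : Fin k → V,
              (∀ i, c' i = p.1 i ∨ G.Adj (p.1 i) (c' i)) ∧
              ((∃ i, c' i = p.2) ∨
                ∀ r' : V, (r' = p.2 ∨ G.Adj p.2 r') →
                  (∃ i, c' i = r') ∨ ((c', r') ∈ S ∧ ρ (c', r') < ρ p)))

/-- a strongly connected digraph with a two-page book embedding on which the robber survives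
gives a counterexample -/
theorem euler_final (k : ℕ) {V : Type} [Finite V] [Nonempty V] (A : V → V → Prop)
    (hA : ∀ u v, A u v → ¬ A v u) (hsc : ∀ u v, ReflTransGen A u v) {pos : V → ℕ}
    {page : V → V → Bool} (hB : Book A pos page) (X : (Fin k → V) → V → Prop)
    (hstart : ∀ c : Fin k → V, ∃ r : V, ∀ c' : Fin k → V, (∀ i, Step A (c i) (c' i)) → X c' r)
    (hX : ∀ (c : Fin k → V) (r : V), X c r → (∀ i, c i ≠ r) ∧
      ∃ (r' : V) (t : ℕ), Step A r r' ∧ (∀ i, c i ≠ r') ∧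
        ∀ c' : Fin k → V, (∀ i, Step A (c i) (c' i)) → (∀ i, c' i ≠ r') ∧ Safe A X t c' r') :
    Goal k := by
  have := Fintype.ofFinite V
  have hirr : ∀ v, ¬ A v v := fun v h => hA v v h h
  obtain ⟨m, hm, hb⟩ := exists_circulation A hsc
  obtain ⟨X', hs', hX'⟩ := euler_game m X hstart hX
  obtain ⟨f, hf, γ, h1, h2, h3⟩ := book_planar m hB hA
  refine ⟨V ⊕ EVert A m, EVert_finite A m, ⟨EAdj A m⟩, EAdj_irrefl m hirr,
    EAdj_connected m hirr hsc, EAdj_balanced hm hb, ⟨f, hf, γ, h1, h2, h3⟩,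
    not_cops_win (EAdj A m) X' hs' hX'⟩

/-- the start vertex -/
def v00 (k : ℕ) : VTop k (NN k) (ΛΛ k) := Sum.inl (true, inT k (NN k) 3 0)

theorem ΛΛ_ge (k : ℕ) : 3 ≤ ΛΛ k := by
  have := U_ge k (NN k)
  unfold ΛΛ
  omega

theorem XTop_reach (k : ℕ) (c : Fin k → VTop k (NN k) (ΛΛ k)) (r : VTop k (NN k) (ΛΛ k))
    (h : XTop k (NN k) (ΛΛ k) c r) :
    ReflTransGen (AdjTop k (NN k) (ΛΛ k)) r (v00 k) := by
  obtain ⟨β, i, hi, σ, hσ, rfl, _⟩ := h
  exact top_reach k (NN k) (by have := ΛΛ_ge k; omega) β true hi hσ (by norm_num) (by norm_num)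
    (S_pos k (NN k))

theorem comp_real (k : ℕ) (v : Comp (AdjTop k (NN k) (ΛΛ k)) (v00 k)) :
    RealTop k (NN k) (ΛΛ k) v.1 := by
  obtain ⟨v, h1, _⟩ := v
  rcases ReflTransGen.cases_tail h1 with h | ⟨w, _, hw⟩
  · obtain ⟨_, hT⟩ := cert_all k (NN k)
    show RealTop k (NN k) (ΛΛ k) v
    rw [h]
    exact ⟨trivial, hT.rin 3 (by norm_num) 0 (S_pos k (NN k))⟩
  · exact ((cert_top k (NN k) (ΛΛ_ge k)).real w v hw).2

theorem comp_finite (k : ℕ) : Finite (Comp (AdjTop k (NN k) (ΛΛ k)) (v00 k)) := by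
  have : Finite {v | RealTop k (NN k) (ΛΛ k) v} := realTop_finite k (NN k) (ΛΛ k)
  exact Finite.of_injective
    (fun v => (⟨v.1, comp_real k v⟩ : {v | RealTop k (NN k) (ΛΛ k) v}))
    (fun u v h => Subtype.ext (congrArg (fun z => z.1) h))

theorem comp_book (k : ℕ) : Book (AComp (AdjTop k (NN k) (ΛΛ k)) (v00 k))
    (fun v => posTop k (NN k) (ΛΛ k) v.1) (fun u v => pageTop k (NN k) (ΛΛ k) u.1 v.1) where
  inj u v h := Subtype.ext ((cert_top k (NN k) (ΛΛ_ge k)).inj u.1 v.1 (comp_real k u)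
    (comp_real k v) h)
  nc u v x y h1 h2 h3 := (cert_top k (NN k) (ΛΛ_ge k)).nc u.1 v.1 x.1 y.1 h1 h2 h3

theorem main (k : ℕ) : Goal k := by
  have hΛ := ΛΛ_ge k
  have := comp_finite k
  have : Nonempty (Comp (AdjTop k (NN k) (ΛΛ k)) (v00 k)) :=
    ⟨⟨v00 k, ReflTransGen.refl, ReflTransGen.refl⟩⟩
  have hstart : ∀ c : Fin k → VTop k (NN k) (ΛΛ k), ∃ r,
      ReflTransGen (AdjTop k (NN k) (ΛΛ k)) (v00 k) r ∧
      ReflTransGen (AdjTop k (NN k) (ΛΛ k)) r (v00 k) ∧
      ∀ c' : Fin k → VTop k (NN k) (ΛΛ k),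
        (∀ i, Step (AdjTop k (NN k) (ΛΛ k)) (c i) (c' i)) → XTop k (NN k) (ΛΛ k) c' r := by
    intro c
    obtain ⟨σ, hσ, h⟩ := top_start k c
    refine ⟨_, ?_, ?_, h⟩
    · exact top_reach k (NN k) (by omega) true true (by norm_num) (S_pos k (NN k))
        (by norm_num) (by norm_num) hσ
    · exact top_reach k (NN k) (by omega) true true (by norm_num) hσ (by norm_num)
        (by norm_num) (S_pos k (NN k))
  obtain ⟨h1, h2⟩ := comp_game (AdjTop k (NN k) (ΛΛ k)) (v00 k) (XTop k (NN k) (ΛΛ k)) hstart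
    (XTop_reach k) (top_return k)
  exact euler_final k (AComp (AdjTop k (NN k) (ΛΛ k)) (v00 k))
    (fun u v h => adjTop_asymm k (NN k) hΛ u.1 v.1 h) (comp_sc _ _) (comp_book k) _ h1 h2

end CR
end
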