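import Mathlib

/-!
# Cops and robber: basic notions (MP_09393f_co)

Positions are taken at the robber's turn: `c : Fin k → V` are the cops, `r : V` is the robber.
-/

namespace CR

variable {V : Type*} {k : ℕ}

/-- one move or staying -/
def Step (A : V → V → Prop) (u v : V) : Prop := v = u ∨ A u v

/-- `v` can be reached from `u` in at most `t` moves -/
def R (A : V → V → Prop) : ℕ → V → V → Prop
  | 0, u, v => u = v
  | t + 1, u, v => ∃ w, Step A u w ∧ R A t w v

theorem Step.refl (A : V → V → Prop) (u : V) : Step A u u := Or.inl rfl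

theorem R_refl (A : V → V → Prop) : ∀ (t : ℕ) (u : V), R A t u u
  | 0, _ => rfl
  | t + 1, u => ⟨u, Step.refl A u, R_refl A t u⟩

theorem R_trans {A : V → V → Prop} : ∀ {s t : ℕ} {u v w : V}, R A s u v → R A t v w →
    R A (s + t) u w
  | 0, t, u, v, w, h1, h2 => by
    obtain rfl : u = v := h1
    simpa using h2
  | s + 1, t, u, v, w, ⟨x, hx, h1⟩, h2 => by
    rw [Nat.add_right_comm]
    exact ⟨x, hx, R_trans h1 h2⟩

theorem R_mono {A : V → V → Prop} {s t : ℕ} (h : s ≤ t) {u v : V} (hR : R A s u v) :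
    R A t u v := by
  obtain ⟨d, rfl⟩ := Nat.exists_eq_add_of_le h
  exact R_trans hR (R_refl A d v)

theorem R_of_step {A : V → V → Prop} {u v : V} (h : Step A u v) : R A 1 u v := ⟨v, h, rfl⟩

theorem R_succ_right {A : V → V → Prop} {t : ℕ} {u v w : V} (h1 : R A t u v) (h2 : Step A v w) :
    R A (t + 1) u w := R_trans h1 (R_of_step h2)

theorem R_succ_right_iff {A : V → V → Prop} : ∀ {t : ℕ} {u w : V},
    R A (t + 1) u w ↔ ∃ v, R A t u v ∧ Step A v w
  | 0, u, w => by
    constructor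
    · rintro ⟨x, hx, hxw⟩
      obtain rfl : x = w := hxw
      exact ⟨u, rfl, hx⟩
    · rintro ⟨v, hv, hw⟩
      obtain rfl : u = v := hv
      exact ⟨w, hw, rfl⟩
  | t + 1, u, w => by
    constructor
    · rintro ⟨x, hx, hxw⟩
      obtain ⟨v, hv, hvw⟩ := R_succ_right_iff.1 hxw
      exact ⟨v, ⟨x, hx, hv⟩, hvw⟩
    · rintro ⟨v, hv, hvw⟩
      exact R_succ_right hv hvw

/-- a walk given by a function -/
theorem R_of_walk {A : V → V → Prop} (p : ℕ → V) : ∀ (L : ℕ),
    (∀ q < L, Step A (p q) (p (q + 1))) → R A L (p 0) (p L)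
  | 0, _ => rfl
  | L + 1, h => R_succ_right (R_of_walk p L fun q hq => h q (by omega)) (h L (by omega))

/-- every `R` comes from a walk given by a function -/
theorem exists_walk {A : V → V → Prop} : ∀ {L : ℕ} {u v : V}, R A L u v →
    ∃ p : ℕ → V, p 0 = u ∧ p L = v ∧ ∀ q < L, Step A (p q) (p (q + 1))
  | 0, u, v, h => ⟨fun _ => u, rfl, h, fun q hq => by omega⟩
  | L + 1, u, v, ⟨w, hw, h⟩ => by
    obtain ⟨p, h0, hL, hp⟩ := exists_walk h
    refine ⟨fun q => if q = 0 then u else p (q - 1), by simp, by simp [hL], fun q hq => ?_⟩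
    rcases Nat.eq_zero_or_pos q with rfl | hq0
    · simpa [h0] using hw
    · have h1 : q ≠ 0 := by omega
      have h2 : q + 1 ≠ 0 := by omega
      simp only [h1, h2, if_false]
      have := hp (q - 1) (by omega)
      rw [show q - 1 + 1 = q by omega] at this
      simpa using this

/-- the robber can force `goal` within `t` rounds without ever being caught -/
inductive Safe (A : V → V → Prop) (goal : (Fin k → V) → V → Prop) :
    ℕ → (Fin k → V) → V → Prop
  | done {t : ℕ} {c : Fin k → V} {r : V} : goal c r → (∀ i, c i ≠ r) → Safe A goal t c r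
  | move {t : ℕ} {c : Fin k → V} {r : V} (r' : V) : Step A r r' → (∀ i, c i ≠ r') →
      (∀ c' : Fin k → V, (∀ i, Step A (c i) (c' i)) → ∀ i, c' i ≠ r') →
      (∀ c' : Fin k → V, (∀ i, Step A (c i) (c' i)) → Safe A goal t c' r') →
      Safe A goal (t + 1) c r

theorem Safe.mono_time {A : V → V → Prop} {goal : (Fin k → V) → V → Prop} {t : ℕ}
    {c : Fin k → V} {r : V} (h : Safe A goal t c r) : ∀ {t' : ℕ}, t ≤ t' → Safe A goal t' c r := by
  induction h with
  | done h1 h2 => intro t' _; exact Safe.done h1 h2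
  | move r' h1 h2 h3 h4 ih =>
    intro t' ht
    obtain ⟨s, rfl⟩ : ∃ s, t' = s + 1 := ⟨t' - 1, by omega⟩
    exact Safe.move r' h1 h2 h3 fun c' hc' => ih c' hc' (by omega)

theorem Safe.mono_goal {A : V → V → Prop} {goal goal' : (Fin k → V) → V → Prop} {t : ℕ}
    {c : Fin k → V} {r : V} (h : Safe A goal t c r)
    (hg : ∀ c' r', (∀ i, c' i ≠ r') → goal c' r' → goal' c' r') : Safe A goal' t c r := by
  induction h with
  | done h1 h2 => exact Safe.done (hg _ _ h2 h1) h2
  | move r' h1 h2 h3 h4 ih => exact Safe.move r' h1 h2 h3 fun c' hc' => ih c' hc'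

/-- composition of strategies -/
theorem Safe.comp {A : V → V → Prop} {goal goal' : (Fin k → V) → V → Prop} {t t' : ℕ}
    {c : Fin k → V} {r : V} (h : Safe A goal t c r)
    (hg : ∀ c' r', (∀ i, c' i ≠ r') → goal c' r' → Safe A goal' t' c' r') :
    Safe A goal' (t + t') c r := by
  induction h with
  | @done s c r h1 h2 => exact (hg _ _ h2 h1).mono_time (by omega)
  | @move s c r r' h1 h2 h3 h4 ih =>
    rw [Nat.add_right_comm]
    exact Safe.move r' h1 h2 h3 fun c' hc' => ih c' hc'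

/-- the displacement of the cops is bounded by the time -/
theorem Safe.disp {A : V → V → Prop} {goal : (Fin k → V) → V → Prop} {t : ℕ}
    {c : Fin k → V} {r : V} (h : Safe A goal t c r) :
    Safe A (fun c' r' => goal c' r' ∧ ∀ i, R A t (c i) (c' i)) t c r := by
  induction h with
  | done h1 h2 => exact Safe.done ⟨h1, fun i => R_refl A _ _⟩ h2
  | @move s c r r' h1 h2 h3 h4 ih =>
    refine Safe.move r' h1 h2 h3 fun c' hc' => ?_
    refine (ih c' hc').mono_goal fun c'' r'' _ hg => ⟨hg.1, fun i => ?_⟩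
    exact ⟨c' i, hc' i, hg.2 i⟩

/-- **path lemma** -/
theorem safe_path {A : V → V → Prop} : ∀ (L : ℕ) (c : Fin k → V) (p : ℕ → V),
    (∀ q < L, Step A (p q) (p (q + 1))) → (∀ i, ∀ q ≤ L, ¬ R A q (c i) (p q)) →
    Safe A (fun c' r' => r' = p L ∧ ∀ i, R A L (c i) (c' i)) L c (p 0)
  | 0, c, p, _, h => Safe.done ⟨rfl, fun i => R_refl A _ _⟩ fun i hi => h i 0 le_rfl hi
  | L + 1, c, p, hp, h => by
    refine Safe.move (p 1) (hp 0 (by omega)) (fun i hi => h i 1 (by omega) ?_)
      (fun c' hc' i hi => h i 1 (by omega) ⟨c' i, hc' i, hi⟩) fun c' hc' => ?_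
    · rw [← hi]; exact R_refl A _ _
    · have := safe_path L c' (fun q => p (q + 1)) (fun q hq => hp (q + 1) (by omega))
        (fun i q hq hR => h i (q + 1) (by omega) ⟨c' i, hc' i, hR⟩)
      exact this.mono_goal fun c'' r'' _ hg => ⟨hg.1, fun i => ⟨c' i, hc' i, hg.2 i⟩⟩

/-- the cops do not win if the robber can always return to a set of positions -/
theorem not_cops_win (A : V → V → Prop) (X : (Fin k → V) → V → Prop)
    (hstart : ∀ c : Fin k → V, ∃ r : V, ∀ c' : Fin k → V, (∀ i, Step A (c i) (c' i)) → X c' r)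
    (hX : ∀ (c : Fin k → V) (r : V), X c r → (∀ i, c i ≠ r) ∧
      ∃ (r' : V) (t : ℕ), Step A r r' ∧ (∀ i, c i ≠ r') ∧
        ∀ c' : Fin k → V, (∀ i, Step A (c i) (c' i)) → (∀ i, c' i ≠ r') ∧ Safe A X t c' r') :
    ¬ (∃ S : Set ((Fin k → V) × V), ∃ ρ : (Fin k → V) × V → ℕ,
          ∃ c₀ : Fin k → V,
            (∀ r₀ : V, (∃ i, c₀ i = r₀) ∨ (c₀, r₀) ∈ S) ∧
            ∀ p ∈ S, ∃ c' : Fin k → V,
              (∀ i, c' i = p.1 i ∨ A (p.1 i) (c' i)) ∧
              ((∃ i, c' i = p.2) ∨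
                ∀ r' : V, (r' = p.2 ∨ A p.2 r') →
                  (∃ i, c' i = r') ∨ ((c', r') ∈ S ∧ ρ (c', r') < ρ p))) := by
  rintro ⟨S, ρ, c₀, h0, hS⟩
  -- `Y c r`: cops to move, every cop move leads to a position where the robber is safe
  let Y : (Fin k → V) → V → Prop := fun c r => ∀ c' : Fin k → V, (∀ i, Step A (c i) (c' i)) →
    (∀ i, c' i ≠ r) ∧ ∃ t, Safe A X t c' r
  have aux : ∀ (c' : Fin k → V) (r : V), X c' r →
      ∃ r', Step A r r' ∧ (∀ i, c' i ≠ r') ∧ Y c' r' := by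
    intro c' r hx
    obtain ⟨_, r', t', h1, h2, h3⟩ := hX c' r hx
    exact ⟨r', h1, h2, fun c'' hc'' => ⟨(h3 c'' hc'').1, t', (h3 c'' hc'').2⟩⟩
  have hY : ∀ n : ℕ, ∀ c r, (c, r) ∈ S → ρ (c, r) = n → ¬ Y c r := by
    intro n
    induction n using Nat.strong_induction_on with
    | _ n ih =>
      intro c r hcr hn hYc
      obtain ⟨c', hc', h⟩ := hS (c, r) hcr
      obtain ⟨hne, t, hsafe⟩ := hYc c' hc'
      rcases h with ⟨i, hi⟩ | h
      · exact hne i hi
      · have key : ∃ r', Step A r r' ∧ (∀ i, c' i ≠ r') ∧ Y c' r' := by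
          cases hsafe with
          | done h1 _ => exact aux _ _ h1
          | @move s _ _ r' h1 h2 h3 h4 =>
            exact ⟨r', h1, h2, fun c'' hc'' => ⟨h3 c'' hc'', s, h4 c'' hc''⟩⟩
        obtain ⟨r', h1, h2, h3⟩ := key
        rcases h r' h1 with ⟨i, hi⟩ | ⟨h4, h5⟩
        · exact h2 i hi
        · exact ih _ (by rw [← hn]; exact h5) c' r' h4 rfl h3
  obtain ⟨r, hr⟩ := hstart c₀
  have hYr : Y c₀ r := fun c' hc' => ⟨(hX _ _ (hr c' hc')).1, 0,
    Safe.done (hr c' hc') (hX _ _ (hr c' hc')).1⟩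
  rcases h0 r with ⟨i, hi⟩ | h
  · exact (hYr c₀ fun i => Step.refl A _).1 i hi
  · exact hY _ c₀ r h rfl hYr

end CR
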