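import Mathlib
import Pool.Agent.Lib.MP_09393f_co.Basic
import Pool.Agent.Lib.MP_09393f_co.Strand2
import Pool.Agent.Lib.MP_09393f_co.Game

section

/-!
# Every out-terminal is reached from every in-terminal in time `T_n` (MP_09393f_co)
-/

namespace CR

theorem Reach_lift (N : Net) {W : Type} (m : ℕ) (A : W → W → Prop) (inn outt : ℕ → ℕ → W)
    {x : N.X} (hx : N.act x) : ∀ {t : ℕ} {u v : W}, R A t u v →
      R (NAdj N m A inn outt) t (Sum.inl (x, u)) (Sum.inl (x, v))
  | 0, u, v, h => by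
    obtain rfl : u = v := h
    rfl
  | t + 1, u, v, ⟨w, hw, h⟩ => by
    refine ⟨Sum.inl (x, w), ?_, Reach_lift N m A inn outt hx h⟩
    rcases hw with rfl | hw
    · exact Or.inl rfl
    · exact Or.inr ⟨rfl, hx, hw⟩

theorem Reach_strand (N : Net) {W : Type} (m : ℕ) (A : W → W → Prop) (inn outt : ℕ → ℕ → W)
    {c : N.C} (hok : N.ok c) (hlen : 2 ≤ N.len c) {τ : ℕ} (hτ : τ < m) :
    R (NAdj N m A inn outt) (N.len c) (Sum.inl (N.src c, outt (N.srcS c) τ))
      (Sum.inl (N.tgt c, inn (N.tgtS c) (m - 1 - τ))) := by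
  set p : ℕ → NV N W := fun q => if q = 0 then Sum.inl (N.src c, outt (N.srcS c) τ)
    else if q < N.len c then Sum.inr (c, τ, q - 1)
    else Sum.inl (N.tgt c, inn (N.tgtS c) (m - 1 - τ)) with hp
  have key := R_of_walk (A := NAdj N m A inn outt) p (N.len c) ?_
  · have h0 : p 0 = Sum.inl (N.src c, outt (N.srcS c) τ) := by simp [hp]
    have h1 : p (N.len c) = Sum.inl (N.tgt c, inn (N.tgtS c) (m - 1 - τ)) := by
      have : N.len c ≠ 0 := by omega
      simp [hp, this]
    rw [h0, h1] at key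
    exact key
  · intro q hq
    right
    rcases Nat.eq_zero_or_pos q with rfl | hq0
    · have h0 : p 0 = Sum.inl (N.src c, outt (N.srcS c) τ) := by simp [hp]
      have h1 : p (0 + 1) = Sum.inr (c, τ, 0) := by
        have : 1 < N.len c := by omega
        simp [hp, this]
      rw [h0, h1]
      exact ⟨hok, hτ, rfl, rfl, rfl⟩
    · have h0 : p q = Sum.inr (c, τ, q - 1) := by
        have : q ≠ 0 := by omega
        simp [hp, this, hq]
      rw [h0]
      rcases Nat.lt_or_ge (q + 1) (N.len c) with h | h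
      · have h1 : p (q + 1) = Sum.inr (c, τ, q) := by
          simp [hp, h]
        rw [h1]
        exact ⟨hok, hτ, rfl, rfl, by omega, h⟩
      · have h1 : p (q + 1) = Sum.inl (N.tgt c, inn (N.tgtS c) (m - 1 - τ)) := by
          have h2 : ¬ (q + 1 < N.len c) := by omega
          simp [hp, h2]
        rw [h1]
        exact ⟨hok, hτ, by omega, rfl, rfl⟩

theorem Reach_step {k n : ℕ}
    (ih : ∀ i < 4, ∀ σ < S k n, ∀ s < 3, ∀ τ < S k n,
      R (Adj k n) (T k n) (inT k n i σ) (outT k n s τ)) {j : ℕ} (hj : j + 1 < J k n) {i σ : ℕ}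
    (hi : i < 4) (hσ : σ < S k n) :
    R (NAdj (ladder k n) (S k n) (Adj k n) (inT k n) (outT k n)) (T k n + 4 * U k n)
      (Sum.inl ((j, Kind.b), inT k n i σ)) (Sum.inl ((j + 1, Kind.b), inT k n 1 (S k n - 1 - 0))) := by
  have hx : (ladder k n).act (j, Kind.b) := by
    show j < J k n
    omega
  have h1 := Reach_lift (ladder k n) (S k n) (Adj k n) (inT k n) (outT k n) hx
    (ih i hi σ hσ 1 (by norm_num) 0 (S_pos k n))
  have hok : (ladder k n).ok (Cn.C, j) := hj
  have h2 := Reach_strand (ladder k n) (S k n) (Adj k n) (inT k n) (outT k n) hok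
    ((ladder_good k n).len_ge _ hok) (S_pos k n)
  exact R_trans h1 h2

theorem Reach_iter {k n : ℕ}
    (ih : ∀ i < 4, ∀ σ < S k n, ∀ s < 3, ∀ τ < S k n,
      R (Adj k n) (T k n) (inT k n i σ) (outT k n s τ)) {j : ℕ} {i σ : ℕ}
    (hi : i < 4) (hσ : σ < S k n) : ∀ d, j + d < J k n → ∃ i' < 4, ∃ σ' < S k n,
    R (NAdj (ladder k n) (S k n) (Adj k n) (inT k n) (outT k n)) (d * (T k n + 4 * U k n))
      (Sum.inl ((j, Kind.b), inT k n i σ)) (Sum.inl ((j + d, Kind.b), inT k n i' σ'))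
  | 0, _ => ⟨i, hi, σ, hσ, by simp only [zero_mul, add_zero]; rfl⟩
  | d + 1, hd => by
    obtain ⟨i', hi', σ', hσ', h⟩ := Reach_iter (j := j) ih hi hσ d (by omega)
    have h2 := Reach_step ih (j := j + d) (by omega) hi' hσ'
    refine ⟨1, by norm_num, S k n - 1 - 0, ?_, ?_⟩
    · have := S_pos k n
      omega
    · rw [add_mul, one_mul]
      exact R_trans h h2

theorem reach_in_out (k : ℕ) : ∀ n, ∀ i < 4, ∀ σ < S k n, ∀ s < 3, ∀ τ < S k n,
    R (Adj k n) (T k n) (inT k n i σ) (outT k n s τ) := by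
  intro n
  induction n with
  | zero => intro i _ σ _ s _ τ _; rfl
  | succ n ih =>
    intro i hi σ hσ s hs τ hτ
    have hS := S_pos k n
    have hee := ee_pos k
    set S' := S k (n + 1) with hS'
    set j := i * S' + σ with hj
    have hj4 : j < 4 * S' := by
      have h1 : i * S' ≤ 3 * S' := Nat.mul_le_mul_right _ (by omega)
      omega
    have hJ : J k n = 4 * S' + 3 * ee k := rfl
    set m := 4 * S' + s * ee k + τ / S k n with hm
    have hτd : τ / S k n < ee k := by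
      rw [Nat.div_lt_iff_lt_mul hS]
      exact hτ
    have hmJ : m < J k n := by
      have h1 : s * ee k ≤ 2 * ee k := Nat.mul_le_mul_right _ (by omega)
      omega
    obtain ⟨d, hd⟩ : ∃ d, m = j + d := ⟨m - j, by
      have : 4 * S' ≤ m := by
        rw [hm, add_assoc]
        exact Nat.le_add_right _ _
      omega⟩
    have hxE : (ladder k n).act (j, Kind.E) := by
      show j < J k n
      omega
    have h1 := Reach_lift (ladder k n) (S k n) (Adj k n) (inT k n) (outT k n) hxE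
      (ih 0 (by norm_num) 0 hS 1 (by norm_num) 0 hS)
    have hok : (ladder k n).ok (Cn.El, j) := hj4
    have h2 := Reach_strand (ladder k n) (S k n) (Adj k n) (inT k n) (outT k n) hok
      ((ladder_good k n).len_ge _ hok) hS
    have h3 : R (NAdj (ladder k n) (S k n) (Adj k n) (inT k n) (outT k n))
        (T k n + 1 * U k n) (Sum.inl ((j, Kind.E), inT k n 0 0))
        (Sum.inl ((j, Kind.b), inT k n 3 (S k n - 1 - 0))) := R_trans h1 h2
    obtain ⟨i', hi', σ', hσ', h4⟩ := Reach_iter ih (j := j) (i := 3) (σ := S k n - 1 - 0)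
      (by norm_num) (by omega) d (by omega)
    have hxm : (ladder k n).act (j + d, Kind.b) := by
      show j + d < J k n
      omega
    have h5 := Reach_lift (ladder k n) (S k n) (Adj k n) (inT k n) (outT k n) hxm
      (ih i' hi' σ' hσ' 0 (by norm_num) (τ % S k n) (Nat.mod_lt _ hS))
    have h6 := R_trans (R_trans h3 h4) h5
    have hle : T k n + 1 * U k n + d * (T k n + 4 * U k n) + T k n ≤ T k (n + 1) := by
      rw [T_succ]
      have hdJ : d + 2 ≤ Bd k n + 1 := by
        unfold Bd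
        omega
      calc T k n + 1 * U k n + d * (T k n + 4 * U k n) + T k n
          ≤ (d + 2) * (T k n + 5 * U k n) := by nlinarith [Nat.zero_le (d * U k n), Nat.zero_le (U k n)]
        _ ≤ (Bd k n + 1) * (T k n + 5 * U k n) := Nat.mul_le_mul_right _ hdJ
    have h7 := R_mono hle h6
    have e1 : outT k (n + 1) s τ = Sum.inl ((j + d, Kind.b), outT k n 0 (τ % S k n)) := by
      rw [← hd]
      rfl
    rw [e1]
    exact h7

end CR
end

section

section

/-!
# The copies of `M_n` in an embedded network are embedded modules (MP_09393f_co)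
-/

namespace CR

section Sub

variable {k n : ℕ} {N : Net} {V : Type} {A : V → V → Prop} {φ : NV N (VT k n) → V}
  {Z : N.X → ℕ → ℕ → Set V}

private theorem sub_out (hN : N.Good) (h : NetEmb k n N A φ Z) {x : N.X} (u : VT k n) (w : V)
    (hA : A (nodeEmb k n N φ x u) w) (hw : w ∉ Set.range (nodeEmb k n N φ x)) :
    ∃ s < 3, ∃ τ < S k n, u = outT k n s τ ∧ w ∈ Zsub k n N φ Z x s τ := by
  by_cases hr : w ∈ Set.range φ
  · obtain ⟨w', rfl⟩ := hr
    have h1 := (h.adj _ _).1 hA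
    rcases w' with ⟨y, v⟩ | ⟨c, τ, p⟩
    · obtain ⟨h2, -, -⟩ := h1
      exact absurd ⟨v, by rw [h2]; rfl⟩ hw
    · obtain ⟨hc, hτ, hp, hx, hu⟩ := h1
      refine ⟨N.srcS c, hN.srcS_lt c hc, τ, hτ, hu, Or.inl ⟨c, hc, hx.symm, rfl, Or.inl ⟨p, ?_, rfl⟩⟩⟩
      have := hN.len_ge c hc
      omega
  · obtain ⟨x', -, s, hs, hno, τ, hτ, heq, hwZ⟩ := h.out _ _ hA hr
    have h2 : x = x' ∧ u = outT k n s τ := by simpa using heq
    obtain ⟨rfl, h3⟩ := h2
    exact ⟨s, hs, τ, hτ, h3, Or.inr ⟨hno, hwZ⟩⟩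

private theorem sub_into (hN : N.Good) (h : NetEmb k n N A φ Z) {x : N.X} (w : V) (v : VT k n)
    (hA : A w (nodeEmb k n N φ x v)) (hw : w ∉ Set.range (nodeEmb k n N φ x)) :
    ∃ i < 4, ∃ σ < S k n, v = inT k n i σ := by
  by_cases hr : w ∈ Set.range φ
  · obtain ⟨w', rfl⟩ := hr
    have h1 := (h.adj _ _).1 hA
    rcases w' with ⟨y, v'⟩ | ⟨c, τ, p⟩
    · obtain ⟨h2, -, -⟩ := h1
      exact absurd ⟨v', by rw [← h2]; rfl⟩ hw
    · obtain ⟨hc, hτ, hp, hx, hu⟩ := h1
      refine ⟨N.tgtS c, hN.tgtS_lt c hc, S k n - 1 - τ, ?_, hu⟩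
      omega
  · obtain ⟨x', -, -, heq⟩ := h.into _ _ hA hr
    have h2 : x = x' ∧ v = inT k n 0 0 := by simpa using heq
    exact ⟨0, by norm_num, 0, S_pos k n, h2.2⟩

private theorem sub_Zin (hN : N.Good) (h : NetEmb k n N A φ Z) {x : N.X} (hx : N.act x) :
    ∀ s < 3, ∀ τ < S k n, ∀ w ∈ Zsub k n N φ Z x s τ, ∀ u, A u w →
      u ∈ Zsub k n N φ Z x s τ ∨ u = nodeEmb k n N φ x (outT k n s τ) := by
  rintro s hs τ hτ w hw u hA
  rcases hw with ⟨c, hc, hcx, hcs, hw⟩ | ⟨hno, hw⟩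
  · rcases hw with ⟨p, hp, rfl⟩ | ⟨v, hv, rfl⟩
    · by_cases hr : u ∈ Set.range φ
      · obtain ⟨u', rfl⟩ := hr
        have h1 := (h.adj _ _).1 hA
        rcases u' with ⟨y, v'⟩ | ⟨c', τ', p'⟩
        · obtain ⟨-, -, -, h2, h3⟩ := h1
          right
          rw [h2, h3, hcx, hcs]
          rfl
        · obtain ⟨-, -, h2, h3, h4, -⟩ := h1
          left
          refine Or.inl ⟨c, hc, hcx, hcs, Or.inl ⟨p', by omega, ?_⟩⟩
          rw [h2, h3]
      · obtain ⟨x', -, -, heq⟩ := h.into _ _ hA hr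
        simp at heq
    · by_cases hr : u ∈ Set.range φ
      · obtain ⟨u', rfl⟩ := hr
        have h1 := (h.adj _ _).1 hA
        rcases u' with ⟨y, v'⟩ | ⟨c', τ', p'⟩
        · obtain ⟨h2, -, h3⟩ := h1
          left
          refine Or.inl ⟨c, hc, hcx, hcs, Or.inr ⟨v', Priv_closed h3 hv, ?_⟩⟩
          rw [h2]
        · obtain ⟨hc', hτ', hp', h3, h4⟩ := h1
          rw [h4] at hv
          obtain ⟨h5, h6⟩ := inT_Priv (by omega) (by omega) hv
          have h7 : c' = c := hN.tgt_inj c' c hc' hc h3.symm h5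
          have h8 : τ' = τ := by omega
          left
          refine Or.inl ⟨c, hc, hcx, hcs, Or.inl ⟨p', ?_, ?_⟩⟩
          · rw [← h7]; omega
          · rw [h7, h8]
      · obtain ⟨x', -, hno, heq⟩ := h.into _ _ hA hr
        have h2 : N.tgt c = x' ∧ v = inT k n 0 0 := by simpa using heq
        exact absurd h2.1 (hno c hc)
  · rcases h.Zin x hx s hs τ hτ w hw u hA with h1 | h1
    · exact Or.inl (Or.inr ⟨hno, h1⟩)
    · exact Or.inr h1

private theorem sub_Zdisj (hN : N.Good) (h : NetEmb k n N A φ Z) {x : N.X} (hx : N.act x) :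
    ∀ s < 3, ∀ τ < S k n, ∀ τ' < S k n, τ ≠ τ' →
      Disjoint (Zsub k n N φ Z x s τ) (Zsub k n N φ Z x s τ') := by
  rintro s hs τ hτ τ' hτ' hne
  rw [Set.disjoint_left]
  rintro w hw hw'
  rcases hw with ⟨c, hc, hcx, hcs, hw⟩ | ⟨hno, hw⟩
  · rcases hw' with ⟨c', hc', hcx', hcs', hw'⟩ | ⟨hno', hw'⟩
    · have hcc : c' = c := hN.src_inj c' c hc' hc (hcx'.trans hcx.symm) (hcs'.trans hcs.symm)
      subst hcc
      rcases hw with ⟨p, hp, rfl⟩ | ⟨v, hv, rfl⟩
      · rcases hw' with ⟨p', hp', he⟩ | ⟨v', hv', he⟩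
        · have := h.inj he
          simp at this
          exact hne this.1
        · have := h.inj he
          simp at this
      · rcases hw' with ⟨p', hp', he⟩ | ⟨v', hv', he⟩
        · have := h.inj he
          simp at this
        · have := h.inj he
          simp at this
          subst this
          exact Set.disjoint_left.1 (Priv_disj (i := N.tgtS c') (i' := N.tgtS c')
            (σ := S k n - 1 - τ) (σ' := S k n - 1 - τ') (by omega) (by omega)
            (Or.inr (by omega))) hv hv'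
    · exact hno' c hc ⟨hcx, hcs⟩
  · rcases hw' with ⟨c', hc', hcx', hcs', hw'⟩ | ⟨hno', hw'⟩
    · exact hno c' hc' ⟨hcx', hcs'⟩
    · exact Set.disjoint_left.1 (h.Zdisj x hx s hs τ hτ τ' hτ' hne) hw hw'

end Sub

private theorem sub_claim {k n : ℕ} {N : Net} {V : Type} {A : V → V → Prop}
    {φ : NV N (VT k (n + 1)) → V} {Z : N.X → ℕ → ℕ → Set V} (hN : N.Good)
    (h : NetEmb k (n + 1) N A φ Z) {x : N.X} {Lt : ℕ} (hlen : ∀ c, N.ok c → Lt < N.len c)
    {w : V} (hw : w ∉ Set.range (nodeEmb k (n + 1) N φ x)) {i σ : ℕ}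
    (hσ : σ < S k (n + 1)) (hR : R A Lt w (φ (Sum.inl (x, inT k (n + 1) i σ)))) :
    (∃ c τ q, N.ok c ∧ τ < S k (n + 1) ∧ N.tgt c = x ∧ N.tgtS c = i ∧
      S k (n + 1) - 1 - τ = σ ∧ w = φ (Sum.inr (c, τ, q))) ∨
    ((∀ c, N.ok c → N.tgt c ≠ x) ∧ inT k (n + 1) i σ = inT k (n + 1) 0 0) := by
  -- last arc of the walk
  have key : ∃ v, v ≠ φ (Sum.inl (x, inT k (n + 1) i σ)) ∧
      A v (φ (Sum.inl (x, inT k (n + 1) i σ))) := by
    clear hlen
    induction Lt with
    | zero => exact absurd ⟨_, hR.symm⟩ hw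
    | succ t ih =>
      obtain ⟨v, h1, h2⟩ := R_succ_right_iff.1 hR
      rcases h2 with h2 | h2
      · rw [← h2] at h1
        exact ih h1
      · by_cases hv : v = φ (Sum.inl (x, inT k (n + 1) i σ))
        · rw [hv] at h1
          exact ih h1
        · exact ⟨v, hv, h2⟩
  obtain ⟨v, -, hv⟩ := key
  rcases inT_in hN h hσ hv with ⟨c, τ, hc, hτ, hx, hi, hs, -⟩ | ⟨-, h1, h2⟩
  · left
    subst hx hi hs
    rcases inT_back hN h hc hτ Lt w hR with h1 | ⟨q, -, -, h1⟩ | ⟨t', h1, -⟩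
    · exact absurd ⟨_, h1.symm⟩ hw
    · exact ⟨c, τ, q, hc, hτ, rfl, rfl, rfl, h1⟩
    · have := hlen c hc
      omega
  · exact Or.inr ⟨h1, h2⟩

theorem sub_emb {k n : ℕ} {N : Net} {V : Type} {A : V → V → Prop} {φ : NV N (VT k n) → V}
    {Z : N.X → ℕ → ℕ → Set V} (hN : N.Good) (h : NetEmb k n N A φ Z) {x : N.X}
    (hx : N.act x) (hlen : ∀ c, N.ok c → Ln k n < N.len c) {Λ : ℕ}
    (hfar : ∀ s < 3, ∀ τ < S k n, ∀ w ∈ Zsub k n N φ Z x s τ, ∀ v,
      ¬ R A Λ w (φ (Sum.inl (x, v)))) :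
    ModEmb k n A (nodeEmb k n N φ x) (Zsub k n N φ Z x) Λ where
  inj := by
    intro u v huv
    have := h.inj huv
    simpa using this
  adj := by
    intro u v
    have h1 := h.adj (Sum.inl (x, u)) (Sum.inl (x, v))
    refine h1.trans ?_
    exact ⟨fun h2 => h2.2.2, fun h2 => ⟨rfl, hx, h2⟩⟩
  out := sub_out hN h
  into := sub_into hN h
  Zin := sub_Zin hN h hx
  Zdisj := sub_Zdisj hN h hx
  far := hfar
  sep := by
    intro w hw i hi σ hσ i' hi' σ' hσ' hR hR'
    cases n with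
    | zero => rfl
    | succ n =>
      rcases sub_claim hN h hlen hw hσ hR with ⟨c, τ, q, hc, hτ, h1, h2, h3, h4⟩ | ⟨h1, h2⟩
      · rcases sub_claim hN h hlen hw hσ' hR' with
          ⟨c', τ', q', hc', hτ', h1', h2', h3', h4'⟩ | ⟨h1', h2'⟩
        · have := h.inj (h4.symm.trans h4')
          simp only [Sum.inr.injEq, Prod.mk.injEq] at this
          obtain ⟨rfl, rfl, -⟩ := this
          rw [← h2, ← h2', ← h3, ← h3']
        · exact absurd h1 (h1' c hc)
      · rcases sub_claim hN h hlen hw hσ' hR' with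
          ⟨c', τ', q', hc', hτ', h1', h2', h3', h4'⟩ | ⟨h1', h2'⟩
        · exact absurd h1' (h1 c' hc')
        · rw [h2, h2']

end CR
end

section

/-!
# Short walks stay inside an embedded module (MP_09393f_co)
-/

namespace CR

variable {k n : ℕ} {V : Type} {A : V → V → Prop} {φ : VT k n → V} {Z : ℕ → ℕ → Set V} {Λ : ℕ}

theorem modEmb_lift (h : ModEmb k n A φ Z Λ) : ∀ (t : ℕ) (u v : VT k n),
    R (Adj k n) t u v → R A t (φ u) (φ v) := by
  intro t
  induction t with
  | zero =>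
    intro u v huv
    obtain rfl : u = v := huv
    exact rfl
  | succ t ih =>
    rintro u v ⟨w, hw, hwv⟩
    refine ⟨φ w, ?_, ih w v hwv⟩
    rcases hw with rfl | hw
    · exact Step.refl A _
    · exact Or.inr ((h.adj u w).2 hw)

theorem modEmb_stay (h : ModEmb k n A φ Z Λ) : ∀ (t : ℕ) (u v : VT k n), t ≤ Λ →
    R A t (φ u) (φ v) → R (Adj k n) t u v := by
  intro t
  induction t with
  | zero =>
    intro u v _ huv
    exact h.inj huv
  | succ t ih =>
    rintro u v ht ⟨w, hw, hwv⟩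
    rcases hw with rfl | hw
    · exact ⟨u, Step.refl _ u, ih u v (by omega) hwv⟩
    · by_cases hwr : w ∈ Set.range φ
      · obtain ⟨w', rfl⟩ := hwr
        exact ⟨w', Or.inr ((h.adj u w').1 hw), ih w' v (by omega) hwv⟩
      · obtain ⟨s, hs, τ, hτ, _, hwZ⟩ := h.out u w hw hwr
        exact absurd (R_mono (by omega) hwv) (h.far s hs τ hτ w hwZ v)

theorem Z_not_range (h : ModEmb k n A φ Z Λ) {s τ : ℕ} (hs : s < 3) (hτ : τ < S k n) {w : V}
    (hw : w ∈ Z s τ) : w ∉ Set.range φ := by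
  rintro ⟨v, rfl⟩
  exact h.far s hs τ hτ _ hw v (R_refl A _ _)

/-- an exit region is entered only through its out-terminal -/
theorem Z_back (h : ModEmb k n A φ Z Λ) {s τ : ℕ} (hs : s < 3) (hτ : τ < S k n) :
    ∀ (t : ℕ) (y w : V), w ∈ Z s τ → y ∉ Z s τ → R A t y w →
      ∃ t', t' + 1 ≤ t ∧ R A t' y (φ (outT k n s τ)) := by
  intro t
  induction t with
  | zero =>
    intro y w hw hy hR
    obtain rfl : y = w := hR
    exact absurd hw hy
  | succ t ih =>
    intro y w hw hy hR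
    obtain ⟨w', hw', hs'⟩ := R_succ_right_iff.1 hR
    rcases hs' with rfl | hA
    · obtain ⟨t', h1, h2⟩ := ih y w hw hy hw'
      exact ⟨t', by omega, h2⟩
    · rcases h.Zin s hs τ hτ w hw w' hA with h1 | rfl
      · obtain ⟨t', h2, h3⟩ := ih y w' h1 hy hw'
        exact ⟨t', by omega, h3⟩
      · exact ⟨t, le_rfl, hw'⟩

end CR
end
end

section

section

/-!
# Positive circulations (MP_09393f_co)
-/

namespace CR

open Relation

theorem Circ_flow {V : Type} [Fintype V] [DecidableEq V] (A : V → V → Prop) {u v : V}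
    (h : ReflTransGen A u v) :
    ∃ f : V → V → ℕ, (∀ x y, 0 < f x y → A x y) ∧
      ∀ z, (∑ y, f z y) + (if z = v then 1 else 0) = (∑ x, f x z) + (if z = u then 1 else 0) := by
  induction h with
  | refl => exact ⟨fun _ _ => 0, by simp, by simp⟩
  | @tail b c _ hbc ih =>
    obtain ⟨f, hf, hbal⟩ := ih
    refine ⟨fun x y => f x y + if x = b ∧ y = c then 1 else 0, ?_, ?_⟩
    · intro x y hxy
      by_cases hx : x = b ∧ y = c
      · rw [hx.1, hx.2]; exact hbc
      · simp only [if_neg hx, add_zero] at hxy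
        exact hf x y hxy
    · intro z
      have h1 : ∑ y, (if z = b ∧ y = c then 1 else 0) = if z = b then 1 else 0 := by
        by_cases hz : z = b
        · simp [hz]
        · simp [hz]
      have h2 : ∑ x, (if x = b ∧ z = c then 1 else 0) = if z = c then 1 else 0 := by
        by_cases hz : z = c
        · simp [hz]
        · simp [hz]
      rw [Finset.sum_add_distrib, Finset.sum_add_distrib, h1, h2]
      have := hbal z
      omega

theorem Circ_cycle {V : Type} [Fintype V] [DecidableEq V] (A : V → V → Prop)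
    (hsc : ∀ u v, ReflTransGen A u v) (p : V × V) :
    ∃ g : V → V → ℕ, (∀ x y, 0 < g x y → A x y) ∧ (A p.1 p.2 → 0 < g p.1 p.2) ∧
      ∀ z, ∑ x, g x z = ∑ y, g z y := by
  by_cases hp : A p.1 p.2
  · obtain ⟨f, hf, hbal⟩ := Circ_flow A (hsc p.2 p.1)
    refine ⟨fun x y => f x y + if x = p.1 ∧ y = p.2 then 1 else 0, ?_, ?_, ?_⟩
    · intro x y hxy
      by_cases hx : x = p.1 ∧ y = p.2
      · rw [hx.1, hx.2]; exact hp
      · simp only [if_neg hx, add_zero] at hxy
        exact hf x y hxy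
    · intro _
      simp
    · intro z
      have h1 : ∑ y, (if z = p.1 ∧ y = p.2 then 1 else 0) = if z = p.1 then 1 else 0 := by
        by_cases hz : z = p.1
        · simp [hz]
        · simp [hz]
      have h2 : ∑ x, (if x = p.1 ∧ z = p.2 then 1 else 0) = if z = p.2 then 1 else 0 := by
        by_cases hz : z = p.2
        · simp [hz]
        · simp [hz]
      rw [Finset.sum_add_distrib, Finset.sum_add_distrib, h1, h2]
      have := hbal z
      omega
  · exact ⟨fun _ _ => 0, by simp, fun h => absurd h hp, by simp⟩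

theorem exists_circulation {V : Type} [Fintype V] (A : V → V → Prop)
    (hsc : ∀ u v, ReflTransGen A u v) :
    ∃ m : V → V → ℕ, (∀ u v, 0 < m u v ↔ A u v) ∧ ∀ v, ∑ u, m u v = ∑ w, m v w := by
  classical
  choose g hg1 hg2 hg3 using Circ_cycle A hsc
  refine ⟨fun u v => ∑ p, g p u v, ?_, ?_⟩
  · intro u v
    constructor
    · intro h
      by_contra hA
      have : ∑ p, g p u v = 0 := by
        apply Finset.sum_eq_zero
        intro p _
        by_contra hne
        exact hA (hg1 p u v (Nat.pos_of_ne_zero hne))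
      simp only [this, lt_self_iff_false] at h
    · intro h
      exact lt_of_lt_of_le (hg2 (u, v) h)
        (Finset.single_le_sum (f := fun p => g p u v) (fun _ _ => Nat.zero_le _)
          (Finset.mem_univ (u, v)))
  · intro v
    rw [Finset.sum_comm, Finset.sum_comm (f := fun w p => g p v w)]
    exact Finset.sum_congr rfl (fun p _ => hg3 p v)

end CR
end

section

/-!
# Restriction of the game to a strong component (MP_09393f_co)
-/

namespace CR

open Relation

variable {V : Type} {k : ℕ}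

/-- the strong component of `v0` -/
def Comp (A : V → V → Prop) (v0 : V) : Type :=
  {v : V // ReflTransGen A v0 v ∧ ReflTransGen A v v0}

/-- the induced arcs -/
def AComp (A : V → V → Prop) (v0 : V) (u v : Comp A v0) : Prop := A u.1 v.1

private theorem comp_head (A : V → V → Prop) (v0 : V) (u : V) (h : ReflTransGen A u v0) :
    ∀ hu : ReflTransGen A v0 u, ReflTransGen (AComp A v0) ⟨u, hu, h⟩
      ⟨v0, ReflTransGen.refl, ReflTransGen.refl⟩ := by
  induction h using ReflTransGen.head_induction_on with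
  | refl => intro hu; exact ReflTransGen.refl
  | @head a c h' h ih =>
    intro hu
    have h1 : AComp A v0 ⟨a, hu, ReflTransGen.head h' h⟩ ⟨c, hu.tail h', h⟩ := h'
    exact ReflTransGen.head h1 (ih (hu.tail h'))

private theorem comp_tail (A : V → V → Prop) (v0 : V) (u : V) (h : ReflTransGen A v0 u) :
    ∀ hu : ReflTransGen A u v0, ReflTransGen (AComp A v0)
      ⟨v0, ReflTransGen.refl, ReflTransGen.refl⟩ ⟨u, h, hu⟩ := by
  induction h with
  | refl => intro hu; exact ReflTransGen.refl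
  | @tail b c h h' ih =>
    intro hu
    have h1 : AComp A v0 ⟨b, h, ReflTransGen.head h' hu⟩ ⟨c, h.tail h', hu⟩ := h'
    exact ReflTransGen.tail (ih (ReflTransGen.head h' hu)) h1

theorem comp_sc (A : V → V → Prop) (v0 : V) : ∀ u v : Comp A v0,
    ReflTransGen (AComp A v0) u v := fun u v =>
  (comp_head A v0 u.1 u.2.2 u.2.1).trans (comp_tail A v0 v.1 v.2.1 v.2.2)

private theorem comp_back {A : V → V → Prop} {v0 : V} {X : (Fin k → V) → V → Prop}
    (hXv : ∀ c r, X c r → ReflTransGen A r v0) {t : ℕ} {c : Fin k → V} {r : V}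
    (h : Safe A X t c r) : ReflTransGen A r v0 := by
  induction h with
  | done h1 h2 => exact hXv _ _ h1
  | @move s c r r' h1 h2 h3 h4 ih =>
    have h5 := ih c (fun i => Step.refl A _)
    rcases h1 with h1 | h1
    · rw [h1] at h5
      exact h5
    · exact ReflTransGen.head h1 h5

private theorem comp_step {A : V → V → Prop} {v0 : V} {u v : Comp A v0}
    (h : Step (AComp A v0) u v) : Step A u.1 v.1 := by
  rcases h with h | h
  · exact Or.inl (congrArg Subtype.val h)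
  · exact Or.inr h

private theorem comp_step' {A : V → V → Prop} {v0 : V} {u v : Comp A v0}
    (h : Step A u.1 v.1) : Step (AComp A v0) u v := by
  rcases h with h | h
  · exact Or.inl (Subtype.ext h)
  · exact Or.inr h

private theorem comp_fwd {A : V → V → Prop} {v0 : V} (r : Comp A v0) {r' : V}
    (h : Step A r.1 r') : ReflTransGen A v0 r' := by
  rcases h with h | h
  · rw [h]; exact r.2.1
  · exact r.2.1.tail h

private theorem comp_safe {A : V → V → Prop} {v0 : V} {X : (Fin k → V) → V → Prop}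
    (hXv : ∀ c r, X c r → ReflTransGen A r v0) : ∀ (t : ℕ) (c : Fin k → Comp A v0)
    (r : Comp A v0), Safe A X t (fun i => (c i).1) r.1 →
      Safe (AComp A v0) (fun c r => X (fun i => (c i).1) r.1) t c r
  | 0, c, r, h => by
    cases h with
    | done h1 h2 => exact Safe.done h1 (fun i hi => h2 i (congrArg Subtype.val hi))
  | t + 1, c, r, h => by
    cases h with
    | done h1 h2 => exact Safe.done h1 (fun i hi => h2 i (congrArg Subtype.val hi))
    | move r' h1 h2 h3 h4 =>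
      have h5 : ReflTransGen A r' v0 := comp_back hXv (h4 _ (fun i => Step.refl A _))
      refine Safe.move ⟨r', comp_fwd r h1, h5⟩ (comp_step' h1)
        (fun i hi => h2 i (congrArg Subtype.val hi))
        (fun c' hc' i hi => h3 (fun i => (c' i).1) (fun i => comp_step (hc' i)) i
          (congrArg Subtype.val hi)) ?_
      intro c' hc'
      exact comp_safe hXv t c' _ (h4 (fun i => (c' i).1) (fun i => comp_step (hc' i)))

theorem comp_game (A : V → V → Prop) (v0 : V) (X : (Fin k → V) → V → Prop)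
    (hstart : ∀ c : Fin k → V, ∃ r : V, ReflTransGen A v0 r ∧ ReflTransGen A r v0 ∧
      ∀ c' : Fin k → V, (∀ i, Step A (c i) (c' i)) → X c' r)
    (hXv : ∀ c r, X c r → ReflTransGen A r v0)
    (hX : ∀ (c : Fin k → V) (r : V), X c r → (∀ i, c i ≠ r) ∧
      ∃ (r' : V) (t : ℕ), Step A r r' ∧ (∀ i, c i ≠ r') ∧
        ∀ c' : Fin k → V, (∀ i, Step A (c i) (c' i)) → (∀ i, c' i ≠ r') ∧ Safe A X t c' r') :
    (∀ c : Fin k → Comp A v0, ∃ r : Comp A v0, ∀ c' : Fin k → Comp A v0,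
      (∀ i, Step (AComp A v0) (c i) (c' i)) → X (fun i => (c' i).1) r.1) ∧
    (∀ (c : Fin k → Comp A v0) (r : Comp A v0), X (fun i => (c i).1) r.1 → (∀ i, c i ≠ r) ∧
      ∃ (r' : Comp A v0) (t : ℕ), Step (AComp A v0) r r' ∧ (∀ i, c i ≠ r') ∧
        ∀ c' : Fin k → Comp A v0, (∀ i, Step (AComp A v0) (c i) (c' i)) →
          (∀ i, c' i ≠ r') ∧
          Safe (AComp A v0) (fun c r => X (fun i => (c i).1) r.1) t c' r') := by
  refine ⟨fun c => ?_, fun c r hXcr => ?_⟩
  · obtain ⟨r, h1, h2, h3⟩ := hstart (fun i => (c i).1)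
    exact ⟨⟨r, h1, h2⟩, fun c' hc' => h3 (fun i => (c' i).1) (fun i => comp_step (hc' i))⟩
  · obtain ⟨h0, r', t, h1, h2, h3⟩ := hX (fun i => (c i).1) r.1 hXcr
    refine ⟨fun i hi => h0 i (congrArg Subtype.val hi), ?_⟩
    have h5 : ReflTransGen A r' v0 := comp_back hXv (h3 _ (fun i => Step.refl A _)).2
    refine ⟨⟨r', comp_fwd r h1, h5⟩, t, comp_step' h1,
      fun i hi => h2 i (congrArg Subtype.val hi), fun c' hc' => ⟨fun i hi => ?_, ?_⟩⟩
    · exact (h3 (fun i => (c' i).1) (fun i => comp_step (hc' i))).1 i (congrArg Subtype.val hi)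
    · exact comp_safe hXv t c' _ (h3 (fun i => (c' i).1) (fun i => comp_step (hc' i))).2

end CR
end

section

/-!
# The new digraph is finite, loopless, balanced and connected (MP_09393f_co)
-/

namespace CR

open Relation

theorem EVert_finite {V : Type} [Finite V] (A : V → V → Prop) (m : V → V → ℕ) :
    Finite (V ⊕ EVert A m) := by
  have h : Finite (EVert A m) := by
    let f : EVert A m → (Σ p : V × V, Fin (m p.1 p.2)) :=
      fun q => ⟨(q.1.1, q.1.2.1), ⟨q.1.2.2, by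
        have := q.2.2
        show q.1.2.2 < m q.1.1 q.1.2.1
        omega⟩⟩
    refine Finite.of_injective f ?_
    rintro ⟨⟨u, v, i⟩, h1⟩ ⟨⟨u', v', i'⟩, h2⟩ h
    simp only [f, Sigma.mk.injEq, Prod.mk.injEq] at h
    obtain ⟨⟨rfl, rfl⟩, h3⟩ := h
    have h4 := eq_of_heq h3
    simp only [Fin.mk.injEq] at h4
    subst h4
    rfl
  exact inferInstance

theorem EAdj_irrefl {V : Type} {A : V → V → Prop} (m : V → V → ℕ) (hA : ∀ v, ¬ A v v) :
    ∀ v, ¬ EAdj A m v v := by
  rintro (v | q) h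
  · exact hA v h
  · exact h

theorem eulerBal_ncard {α β : Type} [Finite α] (f : α → β) (hf : Function.Injective f)
    (s : Set β) (hs : ∀ b, b ∈ s ↔ ∃ a, f a = b) : s.ncard = Nat.card α := by
  have h : s = Set.range f := by
    ext b
    rw [hs b]
    rfl
  rw [h, ← Set.image_univ, Set.ncard_image_of_injective _ hf, Set.ncard_univ]

theorem EAdj_balanced {V : Type} [Fintype V] {A : V → V → Prop} {m : V → V → ℕ}
    (hm : ∀ u v, 0 < m u v ↔ A u v) (hb : ∀ v, ∑ u, m u v = ∑ w, m v w) :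
    ∀ v, Set.ncard {u | EAdj A m u v} = Set.ncard {w | EAdj A m v w} := by
  rintro (v | q)
  · let f : (Σ u : V, Fin (m u v)) → V ⊕ EVert A m := fun a =>
      if h : a.2.1 = 0 then Sum.inl a.1
      else Sum.inr ⟨(a.1, v, a.2.1 - 1),
        (hm _ _).1 (lt_of_le_of_lt (Nat.zero_le _) a.2.2), by
          have := a.2.2
          show a.2.1 - 1 + 1 < m a.1 v
          omega⟩
    let g : (Σ w : V, Fin (m v w)) → V ⊕ EVert A m := fun a =>
      if h : a.2.1 = 0 then Sum.inl a.1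
      else Sum.inr ⟨(v, a.1, a.2.1 - 1),
        (hm _ _).1 (lt_of_le_of_lt (Nat.zero_le _) a.2.2), by
          have := a.2.2
          show a.2.1 - 1 + 1 < m v a.1
          omega⟩
    have hf : Function.Injective f := by
      rintro ⟨u, i⟩ ⟨u', i'⟩ h
      simp only [f] at h
      split_ifs at h with h1 h2 h2
      · simp only [Sum.inl.injEq] at h
        subst h
        have : i = i' := Fin.ext (by omega)
        subst this
        rfl
      · simp only [Sum.inr.injEq] at h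
        have h3 := congrArg Subtype.val h
        simp only [Prod.mk.injEq, true_and] at h3
        obtain ⟨h4, h5⟩ := h3
        subst h4
        have : i = i' := Fin.ext (by omega)
        subst this
        rfl
    have hg : Function.Injective g := by
      rintro ⟨u, i⟩ ⟨u', i'⟩ h
      simp only [g] at h
      split_ifs at h with h1 h2 h2
      · simp only [Sum.inl.injEq] at h
        subst h
        have : i = i' := Fin.ext (by omega)
        subst this
        rfl
      · simp only [Sum.inr.injEq] at h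
        have h3 := congrArg Subtype.val h
        simp only [Prod.mk.injEq, true_and] at h3
        obtain ⟨h4, h5⟩ := h3
        subst h4
        have : i = i' := Fin.ext (by omega)
        subst this
        rfl
    have e1 : Set.ncard {u | EAdj A m u (Sum.inl v)} = Nat.card (Σ u : V, Fin (m u v)) := by
      refine eulerBal_ncard f hf _ ?_
      rintro (u | ⟨⟨u, v', i⟩, h1, h2⟩)
      · simp only [Set.mem_ofPred_eq]
        constructor
        · intro h
          have h' : A u v := h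
          refine ⟨⟨u, ⟨0, (hm _ _).2 h'⟩⟩, ?_⟩
          simp [f]
        · rintro ⟨⟨u', i⟩, h⟩
          simp only [f] at h
          split_ifs at h with h1
          simp only [Sum.inl.injEq] at h
          subst h
          exact (hm _ _).1 (lt_of_le_of_lt (Nat.zero_le _) i.2)
      · simp only [Set.mem_ofPred_eq]
        constructor
        · intro h
          have h' : v = v' := h
          subst h'
          refine ⟨⟨u, ⟨i + 1, h2⟩⟩, ?_⟩
          simp [f]
        · rintro ⟨⟨u', i'⟩, h⟩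
          simp only [f] at h
          split_ifs at h with h3
          simp only [Sum.inr.injEq] at h
          have h4 := congrArg Subtype.val h
          simp only [Prod.mk.injEq] at h4
          exact h4.2.1
    have e2 : Set.ncard {w | EAdj A m (Sum.inl v) w} = Nat.card (Σ w : V, Fin (m v w)) := by
      refine eulerBal_ncard g hg _ ?_
      rintro (u | ⟨⟨v', u, i⟩, h1, h2⟩)
      · simp only [Set.mem_ofPred_eq]
        constructor
        · intro h
          have h' : A v u := h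
          refine ⟨⟨u, ⟨0, (hm _ _).2 h'⟩⟩, ?_⟩
          simp [g]
        · rintro ⟨⟨u', i⟩, h⟩
          simp only [g] at h
          split_ifs at h with h1
          simp only [Sum.inl.injEq] at h
          subst h
          exact (hm _ _).1 (lt_of_le_of_lt (Nat.zero_le _) i.2)
      · simp only [Set.mem_ofPred_eq]
        constructor
        · intro h
          have h' : v = v' := h
          subst h'
          refine ⟨⟨u, ⟨i + 1, h2⟩⟩, ?_⟩
          simp [g]
        · rintro ⟨⟨u', i'⟩, h⟩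
          simp only [g] at h
          split_ifs at h with h3
          simp only [Sum.inr.injEq] at h
          have h4 := congrArg Subtype.val h
          simp only [Prod.mk.injEq] at h4
          exact h4.1
    rw [e1, e2, Nat.card_sigma, Nat.card_sigma]
    simpa using hb v
  · have e1 : {u | EAdj A m u (Sum.inr q)} = {Sum.inl q.1.1} := by
      ext u
      rcases u with u | u
      · simp only [Set.mem_ofPred_eq, Set.mem_singleton_iff, Sum.inl.injEq]
        exact Iff.rfl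
      · simp only [Set.mem_ofPred_eq, Set.mem_singleton_iff, reduceCtorEq, iff_false]
        exact fun h => h
    have e2 : {w | EAdj A m (Sum.inr q) w} = {Sum.inl q.1.2.1} := by
      ext u
      rcases u with u | u
      · simp only [Set.mem_ofPred_eq, Set.mem_singleton_iff, Sum.inl.injEq]
        exact Iff.rfl
      · simp only [Set.mem_ofPred_eq, Set.mem_singleton_iff, reduceCtorEq, iff_false]
        exact fun h => h
    rw [e1, e2, Set.ncard_singleton, Set.ncard_singleton]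

theorem EAdj_connected {V : Type} [Nonempty V] {A : V → V → Prop} (m : V → V → ℕ)
    (hA : ∀ v, ¬ A v v) (hsc : ∀ u v, ReflTransGen A u v) :
    (SimpleGraph.fromRel (EAdj A m)).Connected := by
  have h1 : ∀ u v, (SimpleGraph.fromRel (EAdj A m)).Reachable (Sum.inl u) (Sum.inl v) := by
    intro u v
    induction hsc u v with
    | refl => exact SimpleGraph.Reachable.refl _
    | @tail b c _ hbc ih =>
      refine ih.trans (SimpleGraph.Adj.reachable ?_)
      rw [SimpleGraph.fromRel_adj]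
      refine ⟨?_, Or.inl hbc⟩
      intro h
      have h' : b = c := Sum.inl.inj h
      subst h'
      exact hA _ hbc
  have h2 : ∀ q : EVert A m, (SimpleGraph.fromRel (EAdj A m)).Reachable (Sum.inl q.1.1)
      (Sum.inr q) := by
    intro q
    refine SimpleGraph.Adj.reachable ?_
    rw [SimpleGraph.fromRel_adj]
    exact ⟨by simp, Or.inl rfl⟩
  obtain ⟨v0⟩ := ‹Nonempty V›
  have h3 : ∀ x, (SimpleGraph.fromRel (EAdj A m)).Reachable (Sum.inl v0) x := by
    rintro (v | q)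
    · exact h1 v0 v
    · exact (h1 v0 _).trans (h2 q)
  have : Nonempty (V ⊕ EVert A m) := ⟨Sum.inl v0⟩
  exact ⟨fun x y => (h3 x).symm.trans (h3 y)⟩

end CR
end

section

/-!
# The robber also survives on the new digraph (MP_09393f_co)
-/

namespace CR

theorem eulerGame_step {V : Type} {A : V → V → Prop} {m : V → V → ℕ} {u v : V ⊕ EVert A m}
    (h : Step (EAdj A m) u v) : Step A (eRet u) (eRet v) := by
  rcases h with rfl | h
  · exact Or.inl rfl
  · rcases u with u | q <;> rcases v with v | q'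
    · exact Or.inr h
    · have h1 : u = q'.1.1 := h
      exact Or.inl h1.symm
    · have h1 : v = q.1.2.1 := h
      have h2 : A q.1.1 q.1.2.1 := q.2.1
      rw [← h1] at h2
      exact Or.inr h2
    · exact (h : False).elim

theorem eulerGame_lift {V : Type} {A : V → V → Prop} {m : V → V → ℕ} {u v : V}
    (h : Step A u v) : Step (EAdj A m) (Sum.inl u) (Sum.inl v) := by
  rcases h with rfl | h
  · exact Or.inl rfl
  · exact Or.inr h

theorem eulerGame_ne {V : Type} {A : V → V → Prop} {m : V → V → ℕ} {u : V ⊕ EVert A m} {r : V}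
    (h : eRet u ≠ r) : u ≠ Sum.inl r := by
  rintro rfl
  exact h rfl

theorem eulerGame_safe {V : Type} {k : ℕ} {A : V → V → Prop} (m : V → V → ℕ)
    (X : (Fin k → V) → V → Prop) {t : ℕ} {c0 : Fin k → V} {r0 : V} (h : Safe A X t c0 r0) :
    ∀ c : Fin k → V ⊕ EVert A m, (fun i => eRet (c i)) = c0 →
      Safe (EAdj A m) (fun c' r' => ∃ r1, r' = Sum.inl r1 ∧ X (fun i => eRet (c' i)) r1) t c
        (Sum.inl r0) := by
  induction h with
  | done h1 h2 =>
    rintro c rfl
    exact Safe.done ⟨_, rfl, h1⟩ (fun i => eulerGame_ne (h2 i))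
  | move r' h1 h2 h3 h4 ih =>
    rintro c rfl
    refine Safe.move (Sum.inl r') (eulerGame_lift h1) (fun i => eulerGame_ne (h2 i)) ?_ ?_
    · intro c' hc' i
      exact eulerGame_ne (h3 (fun i => eRet (c' i)) (fun i => eulerGame_step (hc' i)) i)
    · intro c' hc'
      exact ih (fun i => eRet (c' i)) (fun i => eulerGame_step (hc' i)) c' rfl

theorem euler_game {V : Type} {k : ℕ} {A : V → V → Prop} (m : V → V → ℕ)
    (X : (Fin k → V) → V → Prop)
    (hstart : ∀ c : Fin k → V, ∃ r : V, ∀ c' : Fin k → V, (∀ i, Step A (c i) (c' i)) → X c' r)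
    (hX : ∀ (c : Fin k → V) (r : V), X c r → (∀ i, c i ≠ r) ∧
      ∃ (r' : V) (t : ℕ), Step A r r' ∧ (∀ i, c i ≠ r') ∧
        ∀ c' : Fin k → V, (∀ i, Step A (c i) (c' i)) → (∀ i, c' i ≠ r') ∧ Safe A X t c' r') :
    ∃ X' : (Fin k → V ⊕ EVert A m) → V ⊕ EVert A m → Prop,
    (∀ c : Fin k → V ⊕ EVert A m, ∃ r : V ⊕ EVert A m, ∀ c' : Fin k → V ⊕ EVert A m,
      (∀ i, Step (EAdj A m) (c i) (c' i)) → X' c' r) ∧
    (∀ (c : Fin k → V ⊕ EVert A m) (r : V ⊕ EVert A m), X' c r → (∀ i, c i ≠ r) ∧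
      ∃ (r' : V ⊕ EVert A m) (t : ℕ), Step (EAdj A m) r r' ∧ (∀ i, c i ≠ r') ∧
        ∀ c' : Fin k → V ⊕ EVert A m, (∀ i, Step (EAdj A m) (c i) (c' i)) →
          (∀ i, c' i ≠ r') ∧ Safe (EAdj A m) X' t c' r') := by
  refine ⟨fun c' r' => ∃ r1, r' = Sum.inl r1 ∧ X (fun i => eRet (c' i)) r1, ?_, ?_⟩
  · intro c
    obtain ⟨r, hr⟩ := hstart (fun i => eRet (c i))
    exact ⟨Sum.inl r, fun c' hc' => ⟨r, rfl,
      hr (fun i => eRet (c' i)) (fun i => eulerGame_step (hc' i))⟩⟩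
  · rintro c r ⟨r1, rfl, hx⟩
    obtain ⟨h1, r', t, h2, h3, h4⟩ := hX _ _ hx
    refine ⟨fun i => eulerGame_ne (h1 i), Sum.inl r', t, eulerGame_lift h2,
      fun i => eulerGame_ne (h3 i), fun c' hc' => ?_⟩
    obtain ⟨h5, h6⟩ := h4 (fun i => eRet (c' i)) (fun i => eulerGame_step (hc' i))
    exact ⟨fun i => eulerGame_ne (h5 i), eulerGame_safe m X h6 c' rfl⟩

end CR
end

section

/-!
# Layout of the ladder (MP_09393f_co)
-/

namespace CR

private theorem LadLay_mul_le {m τ L : ℕ} (h : τ < m) : τ * L + L ≤ m * L := by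
  calc τ * L + L = (τ + 1) * L := by ring
    _ ≤ m * L := Nat.mul_le_mul_right _ h

private theorem LadLay_sub_mul_le {m τ L : ℕ} (h : τ < m) : (m - 1 - τ) * L + L ≤ m * L :=
  LadLay_mul_le (by omega)

private theorem LadLay_okAt_lt {k n : ℕ} {c : Cn} {j : ℕ} (h : c.okAt k n j) : j < J k n := by
  have := J_ge k n
  cases c <;> simp only [Cn.okAt] at h <;> omega

theorem ladLay_ok (k n : ℕ) :
    (ladLay k n).OK (S k n) (15 * J k n) (Wd k n) (5 * U k n) (wd k n) where
  nb_inj := by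
    rintro ⟨j, K⟩ ⟨j', K'⟩ _ _ h
    cases K <;> cases K' <;> simp only [ladLay, kcode] at h <;>
      first
      | (exfalso; omega)
      | (have h2 : j = j' := by omega
         rw [h2])
  nb_g1 := by
    rintro ⟨j, K⟩ ⟨c, j'⟩ _ _ h
    cases K <;> cases c <;> simp only [ladLay, kcode, g1code] at h <;> omega
  nb_g2 := by
    rintro ⟨j, K⟩ ⟨c, j'⟩ _ _ h
    cases K <;> cases c <;> simp only [ladLay, kcode, g2code] at h <;> omega
  g12 := by
    rintro ⟨c, j⟩ ⟨c', j'⟩ _ _ h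
    cases c <;> cases c' <;> simp only [ladLay, g1code, g2code] at h <;> omega
  g1_inj := by
    rintro ⟨c, j⟩ ⟨c', j'⟩ τ τ' _ _ hτ hτ' h h'
    simp only [ladLay] at h h'
    have h3 : τ = τ' := by omega
    refine ⟨?_, h3⟩
    cases c <;> cases c' <;> simp only [g1code] at h <;>
      first
      | (exfalso; omega)
      | (have h2 : j = j' := by omega
         rw [h2])
  g2_inj := by
    rintro ⟨c, j⟩ ⟨c', j'⟩ τ τ' _ _ hτ hτ' h h'
    simp only [ladLay] at h h'
    have h3 : τ = τ' := by omega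
    refine ⟨?_, h3⟩
    cases c <;> cases c' <;> simp only [g2code] at h <;>
      first
      | (exfalso; omega)
      | (have h2 : j = j' := by omega
         rw [h2])
  i1_le := by
    intro c τ _ hτ
    have h1 : (S k n - 1 - τ) * (5 * U k n) + 5 * U k n ≤ S k n * (5 * U k n) :=
      LadLay_sub_mul_le hτ
    simp only [ladLay, Wd]
    omega
  i2_le := by
    intro c τ _ hτ
    have h1 : τ * (5 * U k n) + 5 * U k n ≤ S k n * (5 * U k n) := LadLay_mul_le hτ
    simp only [ladLay, Wd]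
    omega
  len_le := fun c _ => ladder_len_le k n c
  len_ge := by
    intro c _
    have h1 := ladder_len_ge k n c
    have h2 := U_ge k n
    omega
  w_le := by unfold Wd; omega
  nb_lt := by
    rintro ⟨j, K⟩ h
    simp only [ladder] at h
    cases K <;> simp only [ladLay, kcode] <;> omega
  g1_lt := by
    rintro ⟨c, j⟩ h
    have h1 : j < J k n := LadLay_okAt_lt h
    cases c <;> simp only [ladLay, g1code] <;> omega
  g2_lt := by
    rintro ⟨c, j⟩ h
    have h1 : j < J k n := LadLay_okAt_lt h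
    cases c <;> simp only [ladLay, g2code] <;> omega

/-- code of the lower end of a long arc below the spine -/
private def LadLay_lc : Cn → ℕ
  | .A => 2 | .B => 1 | .C => 6 | .D => 5 | .Er => 10 | .El => 7

/-- code of the upper end of a long arc below the spine -/
private def LadLay_hc : Cn → ℕ
  | .A => 3 | .B => 14 | .C => 12 | .D => 13 | .Er => 11 | .El => 9

private theorem LadLay_minmax {W m m' x y : ℕ} (hx : x < W) (hy : y < W) (hm : m < m') :
    min (m * W + x) (m' * W + y) = m * W + x ∧ max (m * W + x) (m' * W + y) = m' * W + y := by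
  have h := (blk_lt hx hy).2 (Or.inl hm)
  exact ⟨min_eq_left h.le, max_eq_right h.le⟩

private theorem LadLay_ends {k n : ℕ} (c : Cn) (j τ : ℕ) (hτ : τ < S k n) :
    ∃ x y : ℕ, x < Wd k n ∧ y < Wd k n ∧
      min (((15 * j + g1code c)) * Wd k n + (S k n - 1 - τ) * (5 * U k n) +
          (c.mul * U k n - 3))
        ((15 * j + g2code c) * Wd k n + τ * (5 * U k n)) =
        (15 * j + LadLay_lc c) * Wd k n + x ∧
      max (((15 * j + g1code c)) * Wd k n + (S k n - 1 - τ) * (5 * U k n) +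
          (c.mul * U k n - 3))
        ((15 * j + g2code c) * Wd k n + τ * (5 * U k n)) =
        (15 * j + LadLay_hc c) * Wd k n + y ∧
      ((c ≠ Cn.El ∧ x = (S k n - 1 - τ) * (5 * U k n) + (c.mul * U k n - 3) ∧
          y = τ * (5 * U k n)) ∨
        (c = Cn.El ∧ x = τ * (5 * U k n) ∧
          y = (S k n - 1 - τ) * (5 * U k n) + (c.mul * U k n - 3))) := by
  have h1 : (S k n - 1 - τ) * (5 * U k n) + 5 * U k n ≤ S k n * (5 * U k n) :=
    LadLay_sub_mul_le hτ
  have h2 : τ * (5 * U k n) + 5 * U k n ≤ S k n * (5 * U k n) := LadLay_mul_le hτ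
  have hU := U_ge k n
  have hW : S k n * (5 * U k n) ≤ Wd k n := by unfold Wd; omega
  have hl : c.mul * U k n ≤ 5 * U k n := Nat.mul_le_mul_right _ (by cases c <;> simp [Cn.mul])
  have hX : (S k n - 1 - τ) * (5 * U k n) + (c.mul * U k n - 3) < Wd k n := by omega
  have hY : τ * (5 * U k n) < Wd k n := by omega
  by_cases hc : c = Cn.El
  · refine ⟨τ * (5 * U k n), (S k n - 1 - τ) * (5 * U k n) + (c.mul * U k n - 3), hY, hX, ?_, ?_,
      Or.inr ⟨hc, rfl, rfl⟩⟩
    · subst hc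
      have := (LadLay_minmax (m := 15 * j + 7) (m' := 15 * j + 9) hY hX (by omega)).1
      rw [add_assoc, min_comm]
      exact this
    · subst hc
      have := (LadLay_minmax (m := 15 * j + 7) (m' := 15 * j + 9) hY hX (by omega)).2
      rw [add_assoc, max_comm]
      exact this
  · refine ⟨(S k n - 1 - τ) * (5 * U k n) + (c.mul * U k n - 3), τ * (5 * U k n), hX, hY, ?_, ?_,
      Or.inl ⟨hc, rfl, rfl⟩⟩
    · have := (LadLay_minmax (m := 15 * j + g1code c) (m' := 15 * j + g2code c) hX hY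
        (by cases c <;> simp_all [g1code, g2code])).1
      rw [add_assoc, this]
      cases c <;> simp_all [g1code, LadLay_lc]
    · have := (LadLay_minmax (m := 15 * j + g1code c) (m' := 15 * j + g2code c) hX hY
        (by cases c <;> simp_all [g1code, g2code])).2
      rw [add_assoc, this]
      cases c <;> simp_all [g2code, LadLay_hc]

theorem ladLay_dn (k n : ℕ) : ∀ a b c d,
    DnSeg k n (ladder k n) (ladLay k n) (Wd k n) (5 * U k n) a b →
    DnSeg k n (ladder k n) (ladLay k n) (Wd k n) (5 * U k n) c d → ¬ Crs a b c d := by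
  rintro _ _ _ _ ⟨⟨c, j⟩, τ, hc, hτ, rfl, rfl⟩ ⟨⟨c', j'⟩, τ', hc', hτ', rfl, rfl⟩
  obtain ⟨x, y, hx, hy, e1, e2, e3⟩ := LadLay_ends (k := k) (n := n) c j τ hτ
  obtain ⟨x', y', hx', hy', e1', e2', e3'⟩ := LadLay_ends (k := k) (n := n) c' j' τ' hτ'
  rintro ⟨p1, p2, p3⟩
  simp only [ladLay, ladder] at p1 p2 p3
  rw [e1, e1'] at p1
  rw [e1', e2] at p2
  rw [e2, e2'] at p3
  rw [blk_lt hx hx'] at p1
  rw [blk_lt hx' hy] at p2
  rw [blk_lt hy hy'] at p3
  have f1 : τ * (5 * U k n) < τ' * (5 * U k n) →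
      (S k n - 1 - τ') * (5 * U k n) ≤ (S k n - 1 - τ) * (5 * U k n) := by
    intro h
    have h1 : τ < τ' := lt_of_mul_lt_mul_right h (Nat.zero_le _)
    exact Nat.mul_le_mul_right _ (by omega)
  generalize τ * (5 * U k n) = t1 at *
  generalize τ' * (5 * U k n) = t1' at *
  generalize (S k n - 1 - τ) * (5 * U k n) = t2 at *
  generalize (S k n - 1 - τ') * (5 * U k n) = t2' at *
  cases c <;> cases c' <;> simp only [LadLay_lc, LadLay_hc, ne_eq, reduceCtorEq, not_false_eq_true,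
    not_true_eq_false, true_and, false_and, or_false, false_or] at p1 p2 p3 e3 e3' <;> omega

end CR
end

section

/-!
# Layout of the ladder: the arcs above the spine (MP_09393f_co)
-/

namespace CR

/-- the twelve families of arcs above the spine: lower end in block `15 * j + a` at `x`,
upper end in block `15 * j + b` at `y` -/
def LadUpQ (o0 o1 o2 i0 i1 i2 i3 R G a x b y : ℕ) : Prop :=
  (a = 0 ∧ x = o0 ∧ b = 2 ∧ y = R) ∨ (a = 3 ∧ x = G ∧ b = 4 ∧ y = i0) ∨
  (a = 0 ∧ x = o1 ∧ b = 1 ∧ y = R) ∨ (a = 14 ∧ x = G ∧ b = 15 ∧ y = i0) ∨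
  (a = 4 ∧ x = o1 ∧ b = 6 ∧ y = R) ∨ (a = 12 ∧ x = G ∧ b = 19 ∧ y = i1) ∨
  (a = 4 ∧ x = o2 ∧ b = 5 ∧ y = R) ∨ (a = 13 ∧ x = G ∧ b = 15 ∧ y = i1) ∨
  (a = 8 ∧ x = o0 ∧ b = 10 ∧ y = R) ∨ (a = 11 ∧ x = G ∧ b = 19 ∧ y = i2) ∨
  (a = 8 ∧ x = o1 ∧ b = 9 ∧ y = R) ∨ (a = 4 ∧ x = i3 ∧ b = 7 ∧ y = G)

theorem LadUp_arith {o0 o1 o2 i0 i1 i2 i3 R G o0' o1' o2' i0' i1' i2' i3' R' G' : ℕ}
    (hij : i0 ≤ i1' ∧ i0' ≤ i1 ∧ i1 ≤ i2' ∧ i1' ≤ i2 ∧ i2 ≤ i3' ∧ i2' ≤ i3 ∧
      i0 ≤ i1 ∧ i0' ≤ i1' ∧ i1 ≤ i2 ∧ i1' ≤ i2' ∧ i2 ≤ i3 ∧ i2' ≤ i3')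
    (hio : i3 ≤ o0 ∧ i3 ≤ o0' ∧ i3' ≤ o0 ∧ i3' ≤ o0')
    (hoo : o0 ≤ o1' ∧ o0' ≤ o1 ∧ o1 ≤ o2' ∧ o1' ≤ o2 ∧ o0 ≤ o1 ∧ o0' ≤ o1' ∧ o1 ≤ o2 ∧
      o1' ≤ o2')
    (htri : (o0 < o0' ∧ o1 < o1' ∧ o2 < o2' ∧ i0' < i0 ∧ i1' < i1 ∧ i2' < i2 ∧ i3' < i3 ∧
        R' < R ∧ G < G') ∨
      (o0 = o0' ∧ o1 = o1' ∧ o2 = o2' ∧ i0' = i0 ∧ i1' = i1 ∧ i2' = i2 ∧ i3' = i3 ∧
        R' = R ∧ G = G') ∨
      (o0' < o0 ∧ o1' < o1 ∧ o2' < o2 ∧ i0 < i0' ∧ i1 < i1' ∧ i2 < i2' ∧ i3 < i3' ∧
        R < R' ∧ G' < G)) {j j' a x b y a' x' b' y' : ℕ}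
    (h : LadUpQ o0 o1 o2 i0 i1 i2 i3 R G a x b y)
    (h' : LadUpQ o0' o1' o2' i0' i1' i2' i3' R' G' a' x' b' y')
    (h1 : 15 * j + a < 15 * j' + a' ∨ (15 * j + a = 15 * j' + a' ∧ x < x'))
    (h2 : 15 * j' + a' < 15 * j + b ∨ (15 * j' + a' = 15 * j + b ∧ x' < y))
    (h3 : 15 * j + b < 15 * j' + b' ∨ (15 * j + b = 15 * j' + b' ∧ y < y')) : False := by
  unfold LadUpQ at h h'
  rcases h with ⟨rfl, rfl, rfl, rfl⟩ | ⟨rfl, rfl, rfl, rfl⟩ | ⟨rfl, rfl, rfl, rfl⟩ |
    ⟨rfl, rfl, rfl, rfl⟩ | ⟨rfl, rfl, rfl, rfl⟩ | ⟨rfl, rfl, rfl, rfl⟩ |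
    ⟨rfl, rfl, rfl, rfl⟩ | ⟨rfl, rfl, rfl, rfl⟩ | ⟨rfl, rfl, rfl, rfl⟩ |
    ⟨rfl, rfl, rfl, rfl⟩ | ⟨rfl, rfl, rfl, rfl⟩ | ⟨rfl, rfl, rfl, rfl⟩ <;>
  rcases h' with ⟨rfl, rfl, rfl, rfl⟩ | ⟨rfl, rfl, rfl, rfl⟩ | ⟨rfl, rfl, rfl, rfl⟩ |
    ⟨rfl, rfl, rfl, rfl⟩ | ⟨rfl, rfl, rfl, rfl⟩ | ⟨rfl, rfl, rfl, rfl⟩ |
    ⟨rfl, rfl, rfl, rfl⟩ | ⟨rfl, rfl, rfl, rfl⟩ | ⟨rfl, rfl, rfl, rfl⟩ |
    ⟨rfl, rfl, rfl, rfl⟩ | ⟨rfl, rfl, rfl, rfl⟩ | ⟨rfl, rfl, rfl, rfl⟩ <;>
  omega

theorem LadUp_R_lt {S L τ : ℕ} (hτ : τ < S) (hL : 0 < L) : (S - 1 - τ) * L < S * L :=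
  Nat.mul_lt_mul_of_pos_right (by omega) hL

/-- description of the arcs above the spine -/
theorem LadUp_desc {k n : ℕ}
    (hC : Cert (Real k n) (Adj k n) (pos k n) (page k n) (wd k n))
    (hT : TermOrd k n (pos k n) (page k n)) {a b : ℕ}
    (h : UpSeg k n (ladder k n) (ladLay k n) (Wd k n) (5 * U k n) (pos k n) a b) :
    ∃ j τ α x β y, τ < S k n ∧ x < Wd k n ∧ y < Wd k n ∧
      LadUpQ (pos k n (outT k n 0 τ)) (pos k n (outT k n 1 τ)) (pos k n (outT k n 2 τ))
        (pos k n (inT k n 0 (S k n - 1 - τ))) (pos k n (inT k n 1 (S k n - 1 - τ)))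
        (pos k n (inT k n 2 (S k n - 1 - τ))) (pos k n (inT k n 3 (S k n - 1 - τ)))
        ((S k n - 1 - τ) * (5 * U k n)) (τ * (5 * U k n)) α x β y ∧
      min a b = (15 * j + α) * Wd k n + x ∧ max a b = (15 * j + β) * Wd k n + y := by
  obtain ⟨⟨c, j⟩, τ, hok, hτ, h⟩ := h
  have hL : 0 < 5 * U k n := by have := U_ge k n; omega
  have hτ' : S k n - 1 - τ < S k n := by omega
  have hR : (S k n - 1 - τ) * (5 * U k n) < Wd k n := by
    have := LadUp_R_lt hτ hL
    unfold Wd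
    omega
  have hG : τ * (5 * U k n) < Wd k n := by
    have := Nat.mul_lt_mul_of_pos_right hτ hL
    unfold Wd
    omega
  have ho : ∀ s < 3, pos k n (outT k n s τ) < Wd k n := fun s hs => by
    have := hC.lt _ (hT.rout s hs τ hτ)
    unfold Wd
    omega
  have hi : ∀ i < 4, pos k n (inT k n i (S k n - 1 - τ)) < Wd k n := fun i hi => by
    have := hC.lt _ (hT.rin i hi _ hτ')
    unfold Wd
    omega
  -- the general step: two points in blocks
  have key : ∀ (α β x y : ℕ), α < β → x < Wd k n → y < Wd k n →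
      (15 * j + α) * Wd k n + x < (15 * j + β) * Wd k n + y := by
    intro α β x y hαβ hx hy
    exact (blk_lt hx hy).2 (Or.inl (by omega))
  have fin : ∀ (α β x y : ℕ), α < β → x < Wd k n → y < Wd k n →
      LadUpQ (pos k n (outT k n 0 τ)) (pos k n (outT k n 1 τ)) (pos k n (outT k n 2 τ))
        (pos k n (inT k n 0 (S k n - 1 - τ))) (pos k n (inT k n 1 (S k n - 1 - τ)))
        (pos k n (inT k n 2 (S k n - 1 - τ))) (pos k n (inT k n 3 (S k n - 1 - τ)))
        ((S k n - 1 - τ) * (5 * U k n)) (τ * (5 * U k n)) α x β y →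
      ((a = (15 * j + α) * Wd k n + x ∧ b = (15 * j + β) * Wd k n + y) ∨
        (b = (15 * j + α) * Wd k n + x ∧ a = (15 * j + β) * Wd k n + y)) →
      ∃ j τ α x β y, τ < S k n ∧ x < Wd k n ∧ y < Wd k n ∧
        LadUpQ (pos k n (outT k n 0 τ)) (pos k n (outT k n 1 τ)) (pos k n (outT k n 2 τ))
          (pos k n (inT k n 0 (S k n - 1 - τ))) (pos k n (inT k n 1 (S k n - 1 - τ)))
          (pos k n (inT k n 2 (S k n - 1 - τ))) (pos k n (inT k n 3 (S k n - 1 - τ)))
          ((S k n - 1 - τ) * (5 * U k n)) (τ * (5 * U k n)) α x β y ∧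
        min a b = (15 * j + α) * Wd k n + x ∧ max a b = (15 * j + β) * Wd k n + y := by
    intro α β x y hαβ hx hy hQ hab
    have hk := key α β x y hαβ hx hy
    refine ⟨j, τ, α, x, β, y, hτ, hx, hy, hQ, ?_, ?_⟩
    · rcases hab with ⟨rfl, rfl⟩ | ⟨rfl, rfl⟩
      · exact min_eq_left hk.le
      · exact min_eq_right hk.le
    · rcases hab with ⟨rfl, rfl⟩ | ⟨rfl, rfl⟩
      · exact max_eq_right hk.le
      · exact max_eq_left hk.le
  cases c <;> rcases h with ⟨h1, h2⟩ | ⟨h1, h2⟩ <;>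
    simp only [ladder, ladLay, Cn.srcK, Cn.srcS, Cn.tgtK, Cn.tgtS, Cn.dj, kcode, g1code,
      g2code, add_zero] at h1 h2
  · exact fin 0 2 _ _ (by norm_num) (ho 0 (by norm_num)) hR (by simp [LadUpQ])
      (Or.inl ⟨h1, h2⟩)
  · exact fin 3 4 _ _ (by norm_num) hG (hi 0 (by norm_num)) (by simp [LadUpQ])
      (Or.inl ⟨h1, h2⟩)
  · exact fin 0 1 _ _ (by norm_num) (ho 1 (by norm_num)) hR (by simp [LadUpQ])
      (Or.inl ⟨h1, h2⟩)
  · exact fin 14 15 _ _ (by norm_num) hG (hi 0 (by norm_num)) (by simp [LadUpQ])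
      (Or.inl ⟨h1, by rw [h2]; ring⟩)
  · exact fin 4 6 _ _ (by norm_num) (ho 1 (by norm_num)) hR (by simp [LadUpQ])
      (Or.inl ⟨h1, h2⟩)
  · exact fin 12 19 _ _ (by norm_num) hG (hi 1 (by norm_num)) (by simp [LadUpQ])
      (Or.inl ⟨h1, by rw [h2]; ring⟩)
  · exact fin 4 5 _ _ (by norm_num) (ho 2 (by norm_num)) hR (by simp [LadUpQ])
      (Or.inl ⟨h1, h2⟩)
  · exact fin 13 15 _ _ (by norm_num) hG (hi 1 (by norm_num)) (by simp [LadUpQ])
      (Or.inl ⟨h1, by rw [h2]; ring⟩)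
  · exact fin 8 10 _ _ (by norm_num) (ho 0 (by norm_num)) hR (by simp [LadUpQ])
      (Or.inl ⟨h1, h2⟩)
  · exact fin 11 19 _ _ (by norm_num) hG (hi 2 (by norm_num)) (by simp [LadUpQ])
      (Or.inl ⟨h1, by rw [h2]; ring⟩)
  · exact fin 8 9 _ _ (by norm_num) (ho 1 (by norm_num)) hR (by simp [LadUpQ])
      (Or.inl ⟨h1, h2⟩)
  · exact fin 4 7 _ _ (by norm_num) (hi 3 (by norm_num)) hG (by simp [LadUpQ])
      (Or.inr ⟨h2, h1⟩)

theorem ladLay_up {k n : ℕ}
    (hC : Cert (Real k n) (Adj k n) (pos k n) (page k n) (wd k n))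
    (hT : TermOrd k n (pos k n) (page k n)) : ∀ a b c d,
    UpSeg k n (ladder k n) (ladLay k n) (Wd k n) (5 * U k n) (pos k n) a b →
    UpSeg k n (ladder k n) (ladLay k n) (Wd k n) (5 * U k n) (pos k n) c d →
      ¬ Crs a b c d := by
  intro a b c d h h' hcr
  obtain ⟨j, τ, α, x, β, y, hτ, hx, hy, hQ, e1, e2⟩ := LadUp_desc hC hT h
  obtain ⟨j', τ', α', x', β', y', hτ', hx', hy', hQ', e1', e2'⟩ := LadUp_desc hC hT h'
  unfold Crs at hcr
  rw [e1, e2, e1', e2', blk_lt hx hx', blk_lt hx' hy, blk_lt hy hy'] at hcr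
  obtain ⟨h1, h2, h3⟩ := hcr
  have hL : 0 < 5 * U k n := by have := U_ge k n; omega
  have hτ1 : S k n - 1 - τ < S k n := by omega
  have hτ1' : S k n - 1 - τ' < S k n := by omega
  have ii : ∀ (i i' : ℕ), i < 4 → i' < 4 → i < i' → ∀ (σ σ' : ℕ), σ < S k n → σ' < S k n →
      pos k n (inT k n i σ) ≤ pos k n (inT k n i' σ') :=
    fun i i' hi hi' hii σ σ' hσ hσ' => hT.ii i hi i' hi' σ hσ σ' hσ' hii
  have oo : ∀ (s s' : ℕ), s < 3 → s' < 3 → s < s' → ∀ (σ σ' : ℕ), σ < S k n → σ' < S k n →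
      pos k n (outT k n s σ) ≤ pos k n (outT k n s' σ') :=
    fun i i' hi hi' hii σ σ' hσ hσ' => hT.oo i hi i' hi' σ hσ σ' hσ' hii
  have io : ∀ (σ σ' : ℕ), σ < S k n → σ' < S k n →
      pos k n (inT k n 3 σ) ≤ pos k n (outT k n 0 σ') :=
    fun σ σ' hσ hσ' => hT.io 3 (by norm_num) σ hσ 0 (by norm_num) σ' hσ'
  refine LadUp_arith ?_ ?_ ?_ ?_ hQ hQ' h1 h2 h3
  · refine ⟨?_, ?_, ?_, ?_, ?_, ?_, ?_, ?_, ?_, ?_, ?_, ?_⟩ <;>
      refine ii _ _ (by norm_num) (by norm_num) (by norm_num) _ _ ?_ ?_ <;> assumption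
  · refine ⟨?_, ?_, ?_, ?_⟩ <;> refine io _ _ ?_ ?_ <;> assumption
  · refine ⟨?_, ?_, ?_, ?_, ?_, ?_, ?_, ?_⟩ <;>
      refine oo _ _ (by norm_num) (by norm_num) (by norm_num) _ _ ?_ ?_ <;> assumption
  · rcases lt_trichotomy τ τ' with ht | rfl | ht
    · left
      have hi : ∀ i < 4, pos k n (inT k n i (S k n - 1 - τ')) <
          pos k n (inT k n i (S k n - 1 - τ)) :=
        fun i hi => hT.i1 i hi _ hτ1 _ (by omega)
      have ho : ∀ s < 3, pos k n (outT k n s τ) < pos k n (outT k n s τ') :=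
        fun s hs => hT.o1 s hs _ hτ' _ ht
      exact ⟨ho 0 (by norm_num), ho 1 (by norm_num), ho 2 (by norm_num), hi 0 (by norm_num),
        hi 1 (by norm_num), hi 2 (by norm_num), hi 3 (by norm_num),
        Nat.mul_lt_mul_of_pos_right (by omega) hL, Nat.mul_lt_mul_of_pos_right ht hL⟩
    · right; left
      exact ⟨rfl, rfl, rfl, rfl, rfl, rfl, rfl, rfl, rfl⟩
    · right; right
      have hi : ∀ i < 4, pos k n (inT k n i (S k n - 1 - τ)) <
          pos k n (inT k n i (S k n - 1 - τ')) :=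
        fun i hi => hT.i1 i hi _ hτ1' _ (by omega)
      have ho : ∀ s < 3, pos k n (outT k n s τ') < pos k n (outT k n s τ) :=
        fun s hs => hT.o1 s hs _ hτ _ ht
      exact ⟨ho 0 (by norm_num), ho 1 (by norm_num), ho 2 (by norm_num), hi 0 (by norm_num),
        hi 1 (by norm_num), hi 2 (by norm_num), hi 3 (by norm_num),
        Nat.mul_lt_mul_of_pos_right (by omega) hL, Nat.mul_lt_mul_of_pos_right ht hL⟩

end CR
end

section

/-!
# An embedded `M_{n+1}` is an embedded ladder network (MP_09393f_co)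
-/

namespace CR

private theorem ToNet_div {e s q : ℕ} (hq : q < e) (a : ℕ) : (a + s * e + q - a) / e = s := by
  have h1 : a + s * e + q - a = q + s * e := by omega
  rw [h1, Nat.add_mul_div_right _ _ (by omega), Nat.div_eq_of_lt hq, Nat.zero_add]

private theorem ToNet_mod {e s q : ℕ} (hq : q < e) (a : ℕ) : (a + s * e + q - a) % e = q := by
  have h1 : a + s * e + q - a = q + s * e := by omega
  rw [h1, Nat.add_mul_mod_self_right, Nat.mod_eq_of_lt hq]

private theorem ToNet_lt {k n q τ : ℕ} (hq : q < ee k) (hτ : τ < S k n) :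
    q * S k n + τ < S k (n + 1) := by
  rw [S_succ]
  calc q * S k n + τ < q * S k n + S k n := by omega
    _ = (q + 1) * S k n := by ring
    _ ≤ ee k * S k n := Nat.mul_le_mul_right _ (by omega)

private theorem ToNet_outT {k n j τ : ℕ} (hj : 4 * S k (n + 1) ≤ j) (hτ : τ < S k n) :
    outT k (n + 1) ((j - 4 * S k (n + 1)) / ee k)
      ((j - 4 * S k (n + 1)) % ee k * S k n + τ) =
      (Sum.inl ((j, Kind.b), outT k n 0 τ) : NV (ladder k n) (VT k n)) := by
  have hS := S_pos k n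
  have h1 : ((j - 4 * S k (n + 1)) % ee k * S k n + τ) / S k n
      = (j - 4 * S k (n + 1)) % ee k := by
    rw [Nat.add_comm, Nat.add_mul_div_right _ _ hS, Nat.div_eq_of_lt hτ, Nat.zero_add]
  have h2 : ((j - 4 * S k (n + 1)) % ee k * S k n + τ) % S k n = τ := by
    rw [Nat.add_comm, Nat.add_mul_mod_self_right, Nat.mod_eq_of_lt hτ]
  have h3 : 4 * S k (n + 1) + (j - 4 * S k (n + 1)) / ee k * ee k
      + (j - 4 * S k (n + 1)) % ee k = j := by
    have := Nat.div_add_mod' (j - 4 * S k (n + 1)) (ee k)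
    omega
  show (Sum.inl ((4 * S k (n + 1) + (j - 4 * S k (n + 1)) / ee k * ee k +
      ((j - 4 * S k (n + 1)) % ee k * S k n + τ) / S k n, Kind.b),
      outT k n 0 (((j - 4 * S k (n + 1)) % ee k * S k n + τ) % S k n)) :
      NV (ladder k n) (VT k n)) = _
  rw [h1, h2, h3]

private theorem ToNet_s {k n j : ℕ} (hj : 4 * S k (n + 1) ≤ j) (hJ : j < J k n) :
    (j - 4 * S k (n + 1)) / ee k < 3 := by
  have := ee_pos k
  rw [Nat.div_lt_iff_lt_mul (by omega)]
  unfold J at hJ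
  omega

theorem netEmb_of_modEmb {k n : ℕ} {V : Type} {A : V → V → Prop} {φ : VT k (n + 1) → V}
    {Z : ℕ → ℕ → Set V} {Λ : ℕ} (h : ModEmb k (n + 1) A φ Z Λ) :
    NetEmb k n (ladder k n) A φ (Zlad k n Z) where
  inj := h.inj
  adj := h.adj
  out := by
    intro u w hA hw
    obtain ⟨s, hs, τ, hτ, hu, hZ⟩ := h.out u w hA hw
    have hS := S_pos k n
    have hq : τ / S k n < ee k := by
      rw [Nat.div_lt_iff_lt_mul hS]
      exact hτ
    have hact : 4 * S k (n + 1) + s * ee k + τ / S k n < J k n := by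
      unfold J
      have : s * ee k + ee k ≤ 3 * ee k := by
        have : (s + 1) * ee k ≤ 3 * ee k := Nat.mul_le_mul_right _ (by omega)
        linarith [this, Nat.succ_mul s (ee k)]
      omega
    refine ⟨(4 * S k (n + 1) + s * ee k + τ / S k n, Kind.b), hact, 0, by omega, ?_,
      τ % S k n, Nat.mod_lt _ hS, hu, rfl, rfl, ?_, ?_⟩
    · rintro ⟨c, j⟩ _ ⟨h1, h2⟩
      cases c <;> simp [ladder, Cn.srcS, Cn.srcK] at h1 h2
    · show 4 * S k (n + 1) ≤ 4 * S k (n + 1) + s * ee k + τ / S k n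
      rw [Nat.add_assoc]
      exact Nat.le_add_right _ _
    · show w ∈ Z ((4 * S k (n + 1) + s * ee k + τ / S k n - 4 * S k (n + 1)) / ee k)
        ((4 * S k (n + 1) + s * ee k + τ / S k n - 4 * S k (n + 1)) % ee k * S k n
          + τ % S k n)
      rw [ToNet_div hq, ToNet_mod hq, Nat.div_add_mod']
      exact hZ
  into := by
    intro w v hA hw
    obtain ⟨i, hi, σ, hσ, hv⟩ := h.into w v hA hw
    have hact : i * S k (n + 1) + σ < J k n := by
      have h1 : (i + 1) * S k (n + 1) ≤ 4 * S k (n + 1) := Nat.mul_le_mul_right _ (by omega)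
      have h2 := J_ge k n
      have h3 := Nat.succ_mul i (S k (n + 1))
      have h4 : (i + 1) * S k (n + 1) = i * S k (n + 1) + S k (n + 1) := h3
      omega
    refine ⟨(i * S k (n + 1) + σ, Kind.E), hact, ?_, hv⟩
    rintro ⟨c, j⟩ _ h1
    cases c <;> simp [ladder, Cn.tgtK] at h1
  Zin := by
    rintro ⟨j, κ⟩ hact s hs τ hτ w ⟨h1, h2, h3, h4⟩ u hA
    simp only at h1 h3 h4
    subst h1 h2
    have hJ : j < J k n := hact
    have hmod : (j - 4 * S k (n + 1)) % ee k < ee k := Nat.mod_lt _ (by have := ee_pos k; omega)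
    rcases h.Zin _ (ToNet_s h3 hJ) _ (ToNet_lt hmod hτ) w h4 u hA with h5 | h5
    · exact Or.inl ⟨rfl, rfl, h3, h5⟩
    · right
      rw [h5, ToNet_outT h3 hτ]
  Zdisj := by
    rintro ⟨j, κ⟩ hact s hs τ hτ τ' hτ' hne
    rw [Set.disjoint_left]
    rintro w ⟨h1, h2, h3, h4⟩ ⟨_, _, _, h4'⟩
    simp only at h1 h3 h4 h4'
    have hJ : j < J k n := hact
    have hmod : (j - 4 * S k (n + 1)) % ee k < ee k := Nat.mod_lt _ (by have := ee_pos k; omega)
    exact Set.disjoint_left.1 (h.Zdisj _ (ToNet_s h3 hJ) _ (ToNet_lt hmod hτ) _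
      (ToNet_lt hmod hτ') (by omega)) h4 h4'
  Zrange := by
    rintro ⟨j, κ⟩ hact s hs τ hτ w ⟨h1, h2, h3, h4⟩ ⟨v, hv⟩
    simp only at h1 h3 h4
    have hJ : j < J k n := hact
    have hmod : (j - 4 * S k (n + 1)) % ee k < ee k := Nat.mod_lt _ (by have := ee_pos k; omega)
    refine h.far _ (ToNet_s h3 hJ) _ (ToNet_lt hmod hτ) w h4 v ?_
    rw [hv]
    exact R_refl A _ _

end CR
end

section

/-!
# Reachability in the top network, finiteness (MP_09393f_co)
-/

namespace CR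

theorem TopReach_rtg {V : Type*} {A : V → V → Prop} : ∀ {t : ℕ} {u v : V}, R A t u v →
    Relation.ReflTransGen A u v
  | 0, u, v, h => by
    obtain rfl : u = v := h
    exact Relation.ReflTransGen.refl
  | t + 1, u, v, ⟨w, hw, h⟩ => by
    rcases hw with rfl | hw
    · exact TopReach_rtg h
    · exact Relation.ReflTransGen.head hw (TopReach_rtg h)

/-- from every in-terminal of a copy one can reach every used in-terminal of the other copy -/
theorem TopReach_hop (k N : ℕ) {Λ : ℕ} (hΛ : 2 ≤ Λ) (β : Bool) {i σ i' σ' : ℕ} (hi : i < 4)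
    (hσ : σ < S k N) (hi' : i' < 4) (hi0 : i' ≠ 0) (hσ' : σ' < S k N) :
    Relation.ReflTransGen (AdjTop k N Λ)
      (Sum.inl (β, inT k N i σ)) (Sum.inl (!β, inT k N i' σ')) := by
  have hS := S_pos k N
  have hs : 3 - i' < 3 := by omega
  have hτ : S k N - 1 - σ' < S k N := by omega
  have h1 := Reach_lift (topNet Λ) (S k N) (Adj k N) (inT k N) (outT k N)
    (x := β) trivial (reach_in_out k N i hi σ hσ (3 - i') hs (S k N - 1 - σ') hτ)
  have hok : (topNet Λ).ok (β, 3 - i') := hs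
  have h2 := Reach_strand (topNet Λ) (S k N) (Adj k N) (inT k N) (outT k N) hok hΛ hτ
  have e1 : (topNet Λ).tgtS (β, 3 - i') = i' := by
    show 3 - (3 - i') = i'
    omega
  have e2 : S k N - 1 - (S k N - 1 - σ') = σ' := by omega
  rw [e1, e2] at h2
  exact (TopReach_rtg h1).trans (TopReach_rtg h2)

/-- from every in-terminal of a copy one can reach every used in-terminal of every copy -/
theorem top_reach (k N : ℕ) {Λ : ℕ} (hΛ : 2 ≤ Λ) (β β' : Bool) {i σ i' σ' : ℕ} (hi : i < 4)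
    (hσ : σ < S k N) (hi' : i' < 4) (hi0 : i' ≠ 0) (hσ' : σ' < S k N) :
    Relation.ReflTransGen (AdjTop k N Λ)
      (Sum.inl (β, inT k N i σ)) (Sum.inl (β', inT k N i' σ')) := by
  by_cases h : β' = !β
  · rw [h]
    exact TopReach_hop k N hΛ β hi hσ hi' hi0 hσ'
  · have hb : β' = !(!β) := by
      cases β <;> cases β' <;> simp_all
    rw [hb]
    exact (TopReach_hop k N hΛ β (i' := 1) (σ' := 0) hi hσ (by norm_num) (by norm_num)
      (S_pos k N)).trans (TopReach_hop k N hΛ (!β) (i := 1) (σ := 0) (by norm_num)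
      (S_pos k N) hi' hi0 hσ')

end CR
end

section

/-!
# Finiteness and asymmetry of the top network (MP_09393f_co)
-/

namespace CR

theorem topFin_kind : Finite Kind := by
  have : Fintype Kind := ⟨{Kind.a, Kind.b, Kind.E}, fun x => by cases x <;> simp⟩
  exact Finite.of_fintype _

theorem topFin_cn : Finite Cn := by
  have : Fintype Cn := ⟨{Cn.A, Cn.B, Cn.C, Cn.D, Cn.Er, Cn.El}, fun x => by cases x <;> simp⟩
  exact Finite.of_fintype _

theorem topFin_realN {N : Net} {m L : ℕ} {T : Type} {Rl : T → Prop} (hX : {x | N.act x}.Finite)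
    (hC : {c | N.ok c}.Finite) (hL : ∀ c, N.ok c → N.len c ≤ L) (hT : {v | Rl v}.Finite) :
    {v : NV N T | RealN N m Rl v}.Finite := by
  have h1 : (Sum.inl '' ({x | N.act x} ×ˢ {v | Rl v}) : Set (NV N T)).Finite :=
    (hX.prod hT).image _
  have h2 : (Sum.inr '' ({c | N.ok c} ×ˢ (Set.Iio m ×ˢ Set.Iio L)) : Set (NV N T)).Finite :=
    (hC.prod ((Set.finite_Iio m).prod (Set.finite_Iio L))).image _
  refine (h1.union h2).subset ?_
  rintro (⟨x, v⟩ | ⟨c, τ, p⟩) hv
  · have hv' : N.act x ∧ Rl v := hv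
    exact Or.inl ⟨(x, v), ⟨hv'.1, hv'.2⟩, rfl⟩
  · have hv' : N.ok c ∧ τ < m ∧ p + 1 < N.len c := hv
    have hl := hL c hv'.1
    refine Or.inr ⟨(c, τ, p), ⟨hv'.1, hv'.2.1, ?_⟩, rfl⟩
    show p < L
    omega

theorem real_finite (k : ℕ) : ∀ n, {v | Real k n v}.Finite := by
  intro n
  induction n with
  | zero =>
    refine (Set.finite_singleton (() : Unit)).subset ?_
    intro v _
    show v = ()
    exact Subsingleton.elim (α := Unit) _ _
  | succ n ih =>
    have hk := topFin_kind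
    have hc := topFin_cn
    refine topFin_realN (N := ladder k n) (m := S k n) (L := 5 * U k n) ?_ ?_
      (fun c _ => ladder_len_le k n c) ih
    · refine ((Set.finite_Iio (J k n)).prod (Set.toFinite (Set.univ : Set Kind))).subset ?_
      rintro ⟨j, κ⟩ hx
      exact ⟨hx, trivial⟩
    · refine ((Set.toFinite (Set.univ : Set Cn)).prod (Set.finite_Iio (J k n))).subset ?_
      rintro ⟨c, j⟩ hx
      refine ⟨trivial, ?_⟩
      have hx' : c.okAt k n j := hx
      have := J_ge k n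
      show j < J k n
      cases c <;> simp only [Cn.okAt] at hx' <;> omega

theorem realTop_finite (k N Λ : ℕ) : {v | RealTop k N Λ v}.Finite := by
  refine topFin_realN (N := topNet Λ) (m := S k N) (L := Λ) ?_ ?_
    (fun c _ => le_rfl) (real_finite k N)
  · exact Set.toFinite (α := Bool) _
  · refine ((Set.toFinite (Set.univ : Set Bool)).prod (Set.finite_Iio 3)).subset ?_
    rintro ⟨c, j⟩ hx
    exact ⟨trivial, hx⟩

theorem adjTop_asymm (k N : ℕ) {Λ : ℕ} (hΛ : 3 ≤ Λ) (u v : VTop k N Λ)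
    (h : AdjTop k N Λ u v) : ¬ AdjTop k N Λ v u := by
  intro h'
  rcases u with ⟨x, u⟩ | ⟨c, τ, p⟩ <;> rcases v with ⟨y, v⟩ | ⟨c', τ', p'⟩
  · obtain ⟨_, _, h1⟩ := h
    obtain ⟨_, _, h2⟩ := h'
    exact Adj_asymm k N _ _ h1 h2
  · obtain ⟨_, _, h1, _⟩ := h
    obtain ⟨_, _, h2, _⟩ := h'
    have h3 : (topNet Λ).len c' = Λ := rfl
    omega
  · obtain ⟨_, _, h1, _⟩ := h
    obtain ⟨_, _, h2, _⟩ := h'
    have h3 : (topNet Λ).len c = Λ := rfl
    omega
  · obtain ⟨_, _, _, _, h1, _⟩ := h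
    obtain ⟨_, _, _, _, h2, _⟩ := h'
    omega

end CR
end

section

/-!
# The flight along a strand (MP_09393f_co)
-/

namespace CR

theorem Flight_strand_mem {k n : ℕ} {N : Net} {V : Type} {φ : NV N (VT k n) → V}
    {Z : N.X → ℕ → ℕ → Set V} {c0 : N.C} (hc : N.ok c0) {τ q : ℕ} (hq : q + 1 < N.len c0)
    {y : V} (hy : y = φ (Sum.inr (c0, τ, q))) :
    y ∈ Zsub k n N φ Z (N.src c0) (N.srcS c0) τ :=
  Or.inl ⟨c0, hc, rfl, rfl, Or.inl ⟨q, hq, hy⟩⟩

theorem Flight_priv_mem {k n : ℕ} {N : Net} {V : Type} {φ : NV N (VT k n) → V}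
    {Z : N.X → ℕ → ℕ → Set V} {c0 : N.C} (hc : N.ok c0) {τ : ℕ} {v : VT k n}
    (hv : v ∈ Priv k n (N.tgtS c0) (S k n - 1 - τ))
    {y : V} (hy : y = φ (Sum.inl (N.tgt c0, v))) :
    y ∈ Zsub k n N φ Z (N.src c0) (N.srcS c0) τ :=
  Or.inl ⟨c0, hc, rfl, rfl, Or.inr ⟨v, hv, hy⟩⟩

/-- the cops are too slow for the strand -/
theorem Flight_free {k n : ℕ} {N : Net} {V : Type} {A : V → V → Prop} {φ : NV N (VT k n) → V}
    {Z : N.X → ℕ → ℕ → Set V} (hN : N.Good) (h : NetEmb k n N A φ Z) {c0 : N.C}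
    (hc : N.ok c0) {τ : ℕ} (hτ : τ < S k n) (y : V)
    (hne : y ≠ φ (Sum.inl (N.src c0, outT k n (N.srcS c0) τ)))
    (hZ : y ∉ Zsub k n N φ Z (N.src c0) (N.srcS c0) τ)
    (h0 : n = 0 → ∀ v, ¬ R A (N.len c0) y (φ (Sum.inl (N.tgt c0, v)))) :
    ∀ q ≤ N.len c0, ¬ R A q y (strandPath k n N φ c0 τ q) := by
  intro q hq hR
  have hL := hN.len_ge c0 hc
  rcases Nat.eq_zero_or_pos q with rfl | hq0
  · apply hne
    have h1 : strandPath k n N φ c0 τ 0 = φ (Sum.inl (N.src c0, outT k n (N.srcS c0) τ)) :=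
      if_pos rfl
    rw [h1] at hR
    exact hR
  · rcases Nat.lt_or_ge q (N.len c0) with hq1 | hq1
    · have h1 : strandPath k n N φ c0 τ q = φ (Sum.inr (c0, τ, q - 1)) := by
        unfold strandPath
        rw [if_neg (by omega), if_pos hq1]
      rw [h1] at hR
      rcases strand_back hN h hc hτ q (q - 1) y (by omega) hR with ⟨q', hq', _, hy⟩ | ⟨t', ht', hR'⟩
      · exact hZ (Flight_strand_mem hc (by omega) hy)
      · have ht0 : t' = 0 := by omega
        subst ht0
        exact hne hR'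
    · have hqL : q = N.len c0 := by omega
      subst hqL
      have h1 : strandPath k n N φ c0 τ (N.len c0) =
          φ (Sum.inl (N.tgt c0, inT k n (N.tgtS c0) (S k n - 1 - τ))) := by
        unfold strandPath
        rw [if_neg (by omega), if_neg (by omega)]
      rw [h1] at hR
      cases n with
      | zero => exact h0 rfl _ hR
      | succ m =>
        rcases inT_back hN h hc hτ _ y hR with hy | ⟨q, hq2, _, hy⟩ | ⟨t', ht', hR'⟩
        · exact hZ (Flight_priv_mem hc (inT_mem_Priv _ _ _ _) hy)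
        · exact hZ (Flight_strand_mem hc hq2 hy)
        · have ht0 : t' = 0 := by omega
          subst ht0
          exact hne hR'

/-- a cop can not be in the private part behind the strand -/
theorem Flight_notPriv {k n : ℕ} {N : Net} {V : Type} {A : V → V → Prop}
    {φ : NV N (VT k n) → V}
    {Z : N.X → ℕ → ℕ → Set V} (hN : N.Good) (h : NetEmb k n N A φ Z) {c0 : N.C}
    (hc : N.ok c0) {τ : ℕ} (hτ : τ < S k n) (y y' : V)
    (hne : y ≠ φ (Sum.inl (N.src c0, outT k n (N.srcS c0) τ)))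
    (hZ : y ∉ Zsub k n N φ Z (N.src c0) (N.srcS c0) τ)
    (hR : R A (N.len c0) y y') :
    y' ∉ nodeEmb k n N φ (N.tgt c0) '' Priv k n (N.tgtS c0) (S k n - 1 - τ) := by
  rintro ⟨v, hv, rfl⟩
  have hL := hN.len_ge c0 hc
  rcases priv_back hN h hc hτ _ y v hv hR with ⟨v', hv', hy⟩ | ⟨q, hq, hy⟩ | ⟨t', ht', hR'⟩
  · exact hZ (Flight_priv_mem hc hv' hy)
  · exact hZ (Flight_strand_mem hc hq hy)
  · have ht0 : t' = 0 := by omega
    subst ht0
    exact hne hR'

/-- a cop close to the end of the strand is behind -/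
theorem Flight_behind {k n : ℕ} {N : Net} {V : Type} {A : V → V → Prop}
    {φ : NV N (VT k n) → V}
    {Z : N.X → ℕ → ℕ → Set V} (hN : N.Good) (h : NetEmb k n N A φ Z) {c0 : N.C}
    (hc : N.ok c0) (hlen : Rr k n < N.len c0) {τ : ℕ} (hτ : τ < S k n) (y r : V)
    (hr : r = φ (Sum.inl (N.tgt c0, inT k n (N.tgtS c0) (S k n - 1 - τ)))) (hne : y ≠ r) :
    Behind k n A (nodeEmb k n N φ (N.tgt c0)) r y ∨ ¬ R A (Rr k n) y r := by
  by_cases hR : R A (Rr k n) y r
  · left
    cases n with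
    | zero => exact absurd hR hne
    | succ m =>
      rw [hr] at hR
      rcases inT_back hN h hc hτ _ y hR with hy | ⟨q, hq, _, hy⟩ | ⟨t', ht', _⟩
      · exact absurd (hy.trans hr.symm) hne
      · intro z t ht
        rw [hy] at ht
        rcases strand_fwd hN h hc hτ t q _ hq ht with ⟨q', _, hq'⟩ | ⟨m', hm', hR'⟩
        · have := h.inj hq'
          exact absurd this (by simp)
        · refine ⟨m', hm', ?_⟩
          rw [hr]
          exact hR'
      · omega
  · exact Or.inr hR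

/-- **flight**: from a free out-terminal with a free strand the robber arrives at the next node -/
theorem flight {k n : ℕ} {N : Net} {V : Type} {A : V → V → Prop} {φ : NV N (VT k n) → V}
    {Z : N.X → ℕ → ℕ → Set V} (hN : N.Good) (h : NetEmb k n N A φ Z) {c0 : N.C}
    (hc : N.ok c0) (hlen : Rr k n < N.len c0) {τ : ℕ} (hτ : τ < S k n) (c : Fin k → V)
    (hne : ∀ j, c j ≠ φ (Sum.inl (N.src c0, outT k n (N.srcS c0) τ)))
    (hZ : ∀ j, c j ∉ Zsub k n N φ Z (N.src c0) (N.srcS c0) τ)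
    (h0 : n = 0 → ∀ j v, ¬ R A (N.len c0) (c j) (φ (Sum.inl (N.tgt c0, v)))) :
    Safe A (fun c' r' => Arr k n A (nodeEmb k n N φ (N.tgt c0)) c' r' ∧
      ∀ j, R A (N.len c0) (c j) (c' j)) (N.len c0) c
      (φ (Sum.inl (N.src c0, outT k n (N.srcS c0) τ))) := by
  have hL := hN.len_ge c0 hc
  have hp0 : strandPath k n N φ c0 τ 0 = φ (Sum.inl (N.src c0, outT k n (N.srcS c0) τ)) :=
    if_pos rfl
  have hpL : strandPath k n N φ c0 τ (N.len c0) =
      φ (Sum.inl (N.tgt c0, inT k n (N.tgtS c0) (S k n - 1 - τ))) := by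
    unfold strandPath
    rw [if_neg (by omega), if_neg (by omega)]
  have hsafe := safe_path (A := A) (N.len c0) c (strandPath k n N φ c0 τ)
    (fun q hq => Or.inr (strandPath_step hN h hc hτ q hq))
    (fun j q hq => Flight_free hN h hc hτ (c j) (hne j) (hZ j) (fun hn v => h0 hn j v) q hq)
  rw [hp0] at hsafe
  refine hsafe.mono_goal fun c' r' hne' hg => ⟨?_, hg.2⟩
  obtain ⟨hr', hR'⟩ := hg
  rw [hpL] at hr'
  exact ⟨N.tgtS c0, hN.tgtS_lt c0 hc, S k n - 1 - τ, by omega, hr', hne',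
    fun j => Flight_notPriv hN h hc hτ (c j) (c' j) (hne j) (hZ j) (hR' j),
    fun j => Flight_behind hN h hc hlen hτ (c' j) r' hr' (hne' j)⟩

end CR
end

section

/-!
# Case I: all near cops are behind the robber, he runs (MP_09393f_co)
-/

namespace CR

theorem run_lemma {k n : ℕ} {V : Type} {A : V → V → Prop} {φ : VT k (n + 1) → V}
    {Z : ℕ → ℕ → Set V} {Λ : ℕ} (h : ModEmb k (n + 1) A φ Z Λ) (hΛ : T k (n + 1) ≤ Λ)
    (c : Fin k → V) (r : V) {s : ℕ} (hs : s < 3) (hArr : Arr k (n + 1) A φ c r)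
    (hB : ∀ j ∈ near k (n + 1) A φ (T k (n + 1)) c, Behind k (n + 1) A φ r (c j)) :
    Safe A (fun c' r' => ∃ τ < S k (n + 1), r' = φ (outT k (n + 1) s τ) ∧ ∀ j, c' j ∉ Z s τ)
      (T k (n + 1)) c r := by
  classical
  obtain ⟨i, hi, s0, hs0, hr, hne, hpriv, hbeh⟩ := hArr
  -- (1) an exit without cops
  obtain ⟨τ, hτ, hτc⟩ : ∃ τ < S k (n + 1), ∀ j, c j ∉ Z s τ := by
    by_contra hcon
    have hcon' : ∀ τ : Fin (S k (n + 1)), ∃ j, c j ∈ Z s τ := by
      intro τ
      by_contra hh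
      exact hcon ⟨τ, τ.2, fun j hj => hh ⟨j, hj⟩⟩
    choose g hg using hcon'
    have hinj : Function.Injective g := by
      intro τ τ' hττ
      by_contra hne'
      have hd := h.Zdisj s hs τ τ.2 τ' τ'.2 (fun hh => hne' (Fin.ext hh))
      have h1 := hg τ
      rw [hττ] at h1
      exact Set.disjoint_left.1 hd h1 (hg τ')
    have hcard := Fintype.card_le_of_injective g hinj
    simp only [Fintype.card_fin] at hcard
    have := lt_S k n
    omega
  -- (2) a shortest walk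
  have hmax := reach_in_out k (n + 1) i hi s0 hs0 s hs τ hτ
  have hreach : ∃ L, R (Adj k (n + 1)) L (inT k (n + 1) i s0) (outT k (n + 1) s τ) :=
    ⟨_, hmax⟩
  obtain ⟨L, hL, hLmin, hLT⟩ : ∃ L, R (Adj k (n + 1)) L (inT k (n + 1) i s0)
      (outT k (n + 1) s τ) ∧ (∀ m < L, ¬ R (Adj k (n + 1)) m (inT k (n + 1) i s0)
      (outT k (n + 1) s τ)) ∧ L ≤ T k (n + 1) :=
    ⟨Nat.find hreach, Nat.find_spec hreach, fun m hm => Nat.find_min hreach hm,
      Nat.find_min' hreach hmax⟩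
  obtain ⟨p, hp0, hpL, hp⟩ := exists_walk hL
  have hstep : ∀ q < L, Step A (φ (p q)) (φ (p (q + 1))) := by
    intro q hq
    rcases hp q hq with h1 | h1
    · exact Or.inl (by rw [h1])
    · exact Or.inr ((h.adj _ _).2 h1)
  -- (3) no cop comes near the walk in time
  have hfar : ∀ j, ∀ q ≤ L, ¬ R A q (c j) (φ (p q)) := by
    intro j q hq hR
    by_cases hj : j ∈ near k (n + 1) A φ (T k (n + 1)) c
    · obtain ⟨m', hm', hR'⟩ := hB j hj (p q) q hR
      rw [hr] at hR'
      have h1 := modEmb_stay h m' _ _ (by omega) hR'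
      have h2 : R (Adj k (n + 1)) (L - q) (p q) (outT k (n + 1) s τ) := by
        have h3 := R_of_walk (A := Adj k (n + 1)) (fun t => p (q + t)) (L - q)
          (fun t ht => by
            have := hp (q + t) (by omega)
            rw [Nat.add_assoc] at this
            exact this)
        simp only [Nat.add_zero, Nat.add_sub_cancel' hq, hpL] at h3
        exact h3
      exact hLmin (m' + (L - q)) (by omega) (R_trans h1 h2)
    · exact hj ⟨p q, R_mono (by omega) hR⟩
  -- (4) run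
  have hsafe := safe_path L c (fun q => φ (p q)) hstep hfar
  simp only [hp0, hpL] at hsafe
  rw [← hr] at hsafe
  refine (Safe.mono_goal hsafe ?_).mono_time hLT
  rintro c' r' _ ⟨hr', hc'⟩
  refine ⟨τ, hτ, hr', fun j hj => ?_⟩
  obtain ⟨t', ht', hR⟩ := Z_back h hs hτ L (c j) (c' j) hj (hτc j) (hc' j)
  refine hfar j L le_rfl ?_
  rw [hpL]
  exact R_mono (by omega) hR

end CR
end

section

/-!
# The top network (MP_09393f_co)
-/

namespace CR

theorem top_netEmb (k N : ℕ) {Λ : ℕ} (_hΛ : 2 ≤ Λ) :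
    NetEmb k N (topNet Λ) (AdjTop k N Λ) id (fun _ _ _ => ∅) where
  inj := Function.injective_id
  adj _ _ := Iff.rfl
  out _ w _ hw := (hw ⟨w, rfl⟩).elim
  into w _ _ hw := (hw ⟨w, rfl⟩).elim
  Zin _ _ _ _ _ _ _ hw := hw.elim
  Zdisj _ _ _ _ _ _ _ _ _ := Set.disjoint_left.2 fun _ h => h.elim
  Zrange _ _ _ _ _ _ _ hw := hw.elim

private def topEmbF (Λ : ℕ) (β b : Bool) : ℕ := if b = β then 0 else Λ

private def topEmbG (Λ : ℕ) (β b : Bool) (p : ℕ) : ℕ := if b = β then Λ else Λ - 1 - p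

/-- potential: distance from the copy `β` -/
private def topEmbPot (k N Λ : ℕ) (β : Bool) : VTop k N Λ → ℕ
  | Sum.inl (b, _) => topEmbF Λ β b
  | Sum.inr (c, _, p) => topEmbG Λ β c.1 p

private theorem topEmb_arc {k N Λ : ℕ} (hΛ : 2 ≤ Λ) (β : Bool) (u v : VTop k N Λ)
    (h : AdjTop k N Λ u v) : topEmbPot k N Λ β u ≤ topEmbPot k N Λ β v + 1 := by
  rcases u with ⟨x, u⟩ | ⟨c, τ, p⟩
  · rcases v with ⟨y, v⟩ | ⟨c', τ', p'⟩
    · obtain ⟨hxy, -, -⟩ := h
      subst hxy
      show topEmbF Λ β x ≤ topEmbF Λ β x + 1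
      omega
    · obtain ⟨-, -, hp, hx, -⟩ := h
      subst hp
      have hx' : x = c'.1 := hx
      show topEmbF Λ β x ≤ topEmbG Λ β c'.1 0 + 1
      rw [hx']
      unfold topEmbF topEmbG
      split_ifs <;> omega
  · rcases v with ⟨y, v⟩ | ⟨c', τ', p'⟩
    · obtain ⟨-, -, hl, hy, -⟩ := h
      have hy' : y = !c.1 := hy
      have hl' : p + 2 = Λ := hl
      show topEmbG Λ β c.1 p ≤ topEmbF Λ β y + 1
      rw [hy']
      unfold topEmbF topEmbG
      rcases c with ⟨c1, c2⟩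
      cases c1 <;> cases β <;> simp <;> omega
    · obtain ⟨-, -, hc, -, hp, hl⟩ := h
      subst hc hp
      show topEmbG Λ β c'.1 p ≤ topEmbG Λ β c'.1 (p + 1) + 1
      unfold topEmbG
      split_ifs <;> omega

private theorem topEmb_R {k N Λ : ℕ} (hΛ : 2 ≤ Λ) (β : Bool) : ∀ (t : ℕ) (u v : VTop k N Λ),
    R (AdjTop k N Λ) t u v → topEmbPot k N Λ β u ≤ topEmbPot k N Λ β v + t
  | 0, u, v, h => by
    obtain rfl : u = v := h
    omega
  | t + 1, u, v, ⟨w, hw, h⟩ => by
    have h1 := topEmb_R hΛ β t w v h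
    rcases hw with rfl | hw
    · omega
    · have h2 := topEmb_arc hΛ β u w hw
      omega

/-- to come back to a copy costs at least `Λ` -/
theorem top_far (k N : ℕ) {Λ : ℕ} (hΛ : 2 ≤ Λ) (β : Bool) : ∀ s < 3, ∀ τ < S k N,
    ∀ w ∈ Zsub k N (topNet Λ) (id : VTop k N Λ → VTop k N Λ) (fun _ _ _ => ∅) β s τ, ∀ v,
      ¬ R (AdjTop k N Λ) (Λ - 1) w (Sum.inl (β, v)) := by
  intro s _ τ _ w hw v hR
  have h1 := topEmb_R hΛ β (Λ - 1) w _ hR
  have h2 : topEmbPot k N Λ β (Sum.inl (β, v)) = 0 := by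
    show topEmbF Λ β β = 0
    simp [topEmbF]
  have h3 : topEmbPot k N Λ β w = Λ := by
    rcases hw with ⟨c, -, hsrc, -, ⟨p, -, rfl⟩ | ⟨v', -, rfl⟩⟩ | ⟨-, hw⟩
    · have hsrc' : c.1 = β := hsrc
      show topEmbG Λ β c.1 p = Λ
      rw [hsrc']
      simp [topEmbG]
    · have hsrc' : c.1 = β := hsrc
      show topEmbF Λ β (!c.1) = Λ
      rw [hsrc']
      unfold topEmbF
      cases β <;> simp
    · exact hw.elim
  omega

theorem top_sub (k N : ℕ) {Λ : ℕ} (hΛ : 2 ≤ Λ) (hL : Ln k N < Λ) (β : Bool) :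
    ModEmb k N (AdjTop k N Λ) (nodeEmb k N (topNet Λ) id β)
      (Zsub k N (topNet Λ) id (fun _ _ _ => ∅) β) (Λ - 1) :=
  sub_emb (topNet_good hΛ) (top_netEmb k N hΛ) trivial (fun _ _ => hL) (top_far k N hΛ β)

end CR
end

section

/-!
# In-neighbours of a node (MP_09393f_co)
-/

namespace CR

theorem in_neigh {k n : ℕ} {N : Net} {V : Type} {A : V → V → Prop} {φ : NV N (VT k n) → V}
    {Z : N.X → ℕ → ℕ → Set V} (hN : N.Good) (h : NetEmb k n N A φ Z) : ∀ (t : ℕ) (y : V)
    (x : N.X) (v : VT k n), R A t y (φ (Sum.inl (x, v))) →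
    Cl k n N φ y x ∨
    (∃ c, N.ok c ∧ N.tgt c = x ∧ ∃ t', t' + N.len c ≤ t ∧ RN k n N A φ t' y (N.src c)) ∨
    ∃ w, w ∉ Set.range φ ∧ ∃ v', A w (φ (Sum.inl (x, v'))) ∧
      ∃ t', t' + 1 ≤ t ∧ R A t' y w := by
  intro t
  induction t with
  | zero =>
    intro y x v hR
    exact Or.inl (Or.inl ⟨v, hR⟩)
  | succ t ih =>
    intro y x v hR
    obtain ⟨w, hw, hs⟩ := R_succ_right_iff.1 hR
    have up : ∀ v₀ : VT k n, R A t y (φ (Sum.inl (x, v₀))) →
        Cl k n N φ y x ∨
        (∃ c, N.ok c ∧ N.tgt c = x ∧ ∃ t', t' + N.len c ≤ t + 1 ∧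
          RN k n N A φ t' y (N.src c)) ∨
        ∃ w, w ∉ Set.range φ ∧ ∃ v', A w (φ (Sum.inl (x, v'))) ∧
          ∃ t', t' + 1 ≤ t + 1 ∧ R A t' y w := by
      intro v₀ h0
      rcases ih y x v₀ h0 with h1 | ⟨c, h1, h2, t', h3, h4⟩ | ⟨w, h1, v', h2, t', h3, h4⟩
      · exact Or.inl h1
      · exact Or.inr (Or.inl ⟨c, h1, h2, t', by omega, h4⟩)
      · exact Or.inr (Or.inr ⟨w, h1, v', h2, t', by omega, h4⟩)
    rcases hs with hs | hs
    · rw [← hs] at hw
      exact up v hw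
    · by_cases hr : w ∈ Set.range φ
      · obtain ⟨w', rfl⟩ := hr
        have ha := (h.adj w' _).1 hs
        rcases w' with ⟨x', u⟩ | ⟨c, τ, p⟩
        · obtain ⟨h1, _, _⟩ := ha
          subst h1
          exact up u hw
        · obtain ⟨h1, h2, h3, h4, _⟩ := ha
          rcases strand_back hN h h1 h2 t p y (by omega) hw with
            ⟨q, hq, _, hy⟩ | ⟨t', ht', hy⟩
          · exact Or.inl (Or.inr ⟨c, τ, q, h1, h2, h4.symm, by omega, hy⟩)
          · exact Or.inr (Or.inl ⟨c, h1, h4.symm, t', by omega, _, hy⟩)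
      · exact Or.inr (Or.inr ⟨w, hr, v, hs, t, le_rfl, hw⟩)

end CR
end
end
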