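import Pool.Agent.Lib.MP_09393f_co.Final

/-!
# A positional strategy of the robber, strong connectivity (MP_09393f_co)
-/

namespace CR

open Relation

variable {V : Type} {k : ℕ}

/-- positions (cops to move) from which the robber survives -/
def YPos (A : V → V → Prop) (X : (Fin k → V) → V → Prop) (c : Fin k → V) (r : V) : Prop :=
  ∀ c' : Fin k → V, (∀ i, Step A (c i) (c' i)) → (∀ i, c' i ≠ r) ∧ ∃ t, Safe A X t c' r

theorem YPos_next {A : V → V → Prop} {X : (Fin k → V) → V → Prop}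
    (hX : ∀ (c : Fin k → V) (r : V), X c r → (∀ i, c i ≠ r) ∧
      ∃ (r' : V) (t : ℕ), Step A r r' ∧ (∀ i, c i ≠ r') ∧
        ∀ c' : Fin k → V, (∀ i, Step A (c i) (c' i)) → (∀ i, c' i ≠ r') ∧ Safe A X t c' r')
    {c c' : Fin k → V} {r : V} (h : YPos A X c r) (hc : ∀ i, Step A (c i) (c' i)) :
    ∃ r', Step A r r' ∧ (∀ i, c' i ≠ r') ∧ YPos A X c' r' := by
  obtain ⟨_, t, hs⟩ := h c' hc
  have aux : ∀ r, X c' r → ∃ r', Step A r r' ∧ (∀ i, c' i ≠ r') ∧ YPos A X c' r' := by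
    intro r hx
    obtain ⟨_, r', t', h1, h2, h3⟩ := hX c' r hx
    exact ⟨r', h1, h2, fun c'' hc'' => ⟨(h3 c'' hc'').1, t', (h3 c'' hc'').2⟩⟩
  cases hs with
  | done h1 _ => exact aux _ h1
  | @move s _ _ r' h1 h2 h3 h4 =>
    exact ⟨r', h1, h2, fun c'' hc'' => ⟨h3 c'' hc'', s, h4 c'' hc''⟩⟩

open Classical in
theorem robber_strategy (A : V → V → Prop) (X : (Fin k → V) → V → Prop)
    (hstart : ∀ c : Fin k → V, ∃ r : V, ∀ c' : Fin k → V, (∀ i, Step A (c i) (c' i)) → X c' r)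
    (hX : ∀ (c : Fin k → V) (r : V), X c r → (∀ i, c i ≠ r) ∧
      ∃ (r' : V) (t : ℕ), Step A r r' ∧ (∀ i, c i ≠ r') ∧
        ∀ c' : Fin k → V, (∀ i, Step A (c i) (c' i)) → (∀ i, c' i ≠ r') ∧ Safe A X t c' r') :
    ∃ (start : (Fin k → V) → V) (esc : (Fin k → V) → V → V),
      ∀ (c : ℕ → Fin k → V) (r : ℕ → V),
        (∀ t i, c (t + 1) i = c t i ∨ A (c t i) (c (t + 1) i)) →
        r 0 = start (c 0) → (∀ t, r (t + 1) = esc (c (t + 1)) (r t)) →
        ∀ t, (r (t + 1) = r t ∨ A (r t) (r (t + 1))) ∧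
          ∀ i, c t i ≠ r t ∧ c (t + 1) i ≠ r t := by
  have h0 : ∀ c : Fin k → V, ∃ r, YPos A X c r := by
    intro c
    obtain ⟨r, hr⟩ := hstart c
    exact ⟨r, fun c' hc' => ⟨(hX _ _ (hr c' hc')).1, 0,
      Safe.done (hr c' hc') (hX _ _ (hr c' hc')).1⟩⟩
  choose start hst using h0
  refine ⟨start, fun c' r =>
    if h : ∃ r', Step A r r' ∧ (∀ i, c' i ≠ r') ∧ YPos A X c' r' then h.choose else r, ?_⟩
  intro c r hc hr0 hr
  have hY : ∀ t, YPos A X (c t) (r t) ∧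
      (YPos A X (c t) (r t) → Step A (r t) (r (t + 1)) ∧ YPos A X (c (t + 1)) (r (t + 1))) := by
    intro t
    have step : ∀ t, YPos A X (c t) (r t) →
        Step A (r t) (r (t + 1)) ∧ YPos A X (c (t + 1)) (r (t + 1)) := by
      intro t h
      have hex := YPos_next hX h (hc t)
      have e : r (t + 1) = hex.choose := by rw [hr t]; exact dif_pos hex
      obtain ⟨h1, _, h3⟩ := hex.choose_spec
      rw [e]
      exact ⟨h1, h3⟩
    induction t with
    | zero => exact ⟨by rw [hr0]; exact hst _, step 0⟩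
    | succ t ih => exact ⟨(step t ih.1).2, step (t + 1)⟩
  intro t
  obtain ⟨h1, h2⟩ := hY t
  refine ⟨(h2 h1).1, fun i => ⟨?_, ?_⟩⟩
  · exact (h1 (c t) fun i => Step.refl A _).1 i
  · exact (h1 (c (t + 1)) (hc t)).1 i

theorem EAdj_asymm {V : Type} {A : V → V → Prop} (m : V → V → ℕ)
    (hA : ∀ u v, A u v → ¬ A v u) : ∀ u v, EAdj A m u v → ¬ EAdj A m v u := by
  rintro (u | q) (v | q') h h'
  · exact hA u v h h'
  · have h1 : u = q'.1.1 := h
    have h2 : u = q'.1.2.1 := h'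
    have h3 := q'.2.1
    rw [← h1, ← h2] at h3
    exact hA _ _ h3 h3
  · have h1 : v = q.1.2.1 := h
    have h2 : v = q.1.1 := h'
    have h3 := q.2.1
    rw [← h1, ← h2] at h3
    exact hA _ _ h3 h3
  · exact h

theorem EAdj_sc {V : Type} {A : V → V → Prop} (m : V → V → ℕ)
    (hsc : ∀ u v, ReflTransGen A u v) : ∀ u v, ReflTransGen (EAdj A m) u v := by
  have h1 : ∀ u v : V, ReflTransGen (EAdj A m) (Sum.inl u) (Sum.inl v) := by
    intro u v
    induction hsc u v with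
    | refl => exact ReflTransGen.refl
    | tail _ hbc ih => exact ih.tail (show EAdj A m (Sum.inl _) (Sum.inl _) from hbc)
  have h2 : ∀ (q : EVert A m) (v : V), ReflTransGen (EAdj A m) (Sum.inr q) (Sum.inl v) :=
    fun q v => ReflTransGen.head (b := Sum.inl q.1.2.1) rfl (h1 _ v)
  have h3 : ∀ (u : V) (q : EVert A m), ReflTransGen (EAdj A m) (Sum.inl u) (Sum.inr q) :=
    fun u q => ReflTransGen.tail (b := Sum.inl q.1.1) (h1 u _) rfl
  rintro (u | q) (v | q')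
  · exact h1 u v
  · exact h3 u q'
  · exact h2 q v
  · exact (h2 q q'.1.1).trans (h3 _ q')

/-- the statement of the own hand-in for `k` cops -/
theorem own (k : ℕ) : ∃ (V : Type) (_ : Finite V) (_ : Nonempty V) (A : V → V → Prop),
    (∀ u v, A u v → ¬ A v u) ∧
    (∀ u v, Relation.ReflTransGen A u v) ∧
    (∀ v, Set.ncard {u | A u v} = Set.ncard {w | A v w}) ∧
    (∃ (f : V → EuclideanSpace ℝ (Fin 2))
      (γ : V → V → unitInterval → EuclideanSpace ℝ (Fin 2)), Function.Injective f ∧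
      (∀ u v, A u v → Continuous (γ u v) ∧ Function.Injective (γ u v) ∧
        γ u v 0 = f u ∧ γ u v 1 = f v ∧ ∀ w s, γ u v s = f w → w = u ∨ w = v) ∧
      (∀ u v x y, A u v → A x y → (u, v) ≠ (x, y) → ∀ s t, γ u v s = γ x y t →
        ∃ z, (z = u ∨ z = v) ∧ (z = x ∨ z = y) ∧ γ u v s = f z)) ∧
    (∃ (start : (Fin k → V) → V) (esc : (Fin k → V) → V → V),
      ∀ (c : ℕ → Fin k → V) (r : ℕ → V),
        (∀ t i, c (t + 1) i = c t i ∨ A (c t i) (c (t + 1) i)) →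
        r 0 = start (c 0) → (∀ t, r (t + 1) = esc (c (t + 1)) (r t)) →
        ∀ t, (r (t + 1) = r t ∨ A (r t) (r (t + 1))) ∧
          ∀ i, c t i ≠ r t ∧ c (t + 1) i ≠ r t) := by
  have hΛ := ΛΛ_ge k
  have hfin := comp_finite k
  have hne : Nonempty (Comp (AdjTop k (NN k) (ΛΛ k)) (v00 k)) :=
    ⟨⟨v00 k, ReflTransGen.refl, ReflTransGen.refl⟩⟩
  have hstart : ∀ c : Fin k → VTop k (NN k) (ΛΛ k), ∃ r,
      ReflTransGen (AdjTop k (NN k) (ΛΛ k)) (v00 k) r ∧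
      ReflTransGen (AdjTop k (NN k) (ΛΛ k)) r (v00 k) ∧
      ∀ c' : Fin k → VTop k (NN k) (ΛΛ k),
        (∀ i, Step (AdjTop k (NN k) (ΛΛ k)) (c i) (c' i)) → XTop k (NN k) (ΛΛ k) c' r := by
    intro c
    obtain ⟨σ, hσ, h⟩ := top_start k c
    refine ⟨_, ?_, ?_, h⟩
    · exact top_reach k (NN k) (by omega) true true (by norm_num) (S_pos k (NN k))
        (by norm_num) (by norm_num) hσ
    · exact top_reach k (NN k) (by omega) true true (by norm_num) hσ (by norm_num)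
        (by norm_num) (S_pos k (NN k))
  obtain ⟨h1, h2⟩ := comp_game (AdjTop k (NN k) (ΛΛ k)) (v00 k) (XTop k (NN k) (ΛΛ k)) hstart
    (XTop_reach k) (top_return k)
  have := Fintype.ofFinite (Comp (AdjTop k (NN k) (ΛΛ k)) (v00 k))
  have hA : ∀ u v, AComp (AdjTop k (NN k) (ΛΛ k)) (v00 k) u v →
      ¬ AComp (AdjTop k (NN k) (ΛΛ k)) (v00 k) v u :=
    fun u v h => adjTop_asymm k (NN k) hΛ u.1 v.1 h
  have hsc := comp_sc (AdjTop k (NN k) (ΛΛ k)) (v00 k)
  obtain ⟨m, hm, hb⟩ := exists_circulation (AComp (AdjTop k (NN k) (ΛΛ k)) (v00 k)) hsc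
  obtain ⟨X', hs', hX'⟩ := euler_game m _ h1 h2
  obtain ⟨f, hf, γ, g1, g2, g3⟩ := book_planar m (comp_book k) hA
  have hadj : ∀ u v, EAdj (AComp (AdjTop k (NN k) (ΛΛ k)) (v00 k)) m u v →
      (SimpleGraph.fromRel (EAdj (AComp (AdjTop k (NN k) (ΛΛ k)) (v00 k)) m)).Adj u v := by
    intro u v h
    rw [SimpleGraph.fromRel_adj]
    exact ⟨fun e => EAdj_asymm m hA u v h (by rw [← e]; rw [← e] at h; exact h), Or.inl h⟩
  refine ⟨_, EVert_finite _ m, ⟨Sum.inl hne.some⟩, EAdj (AComp (AdjTop k (NN k) (ΛΛ k)) (v00 k)) m,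
    EAdj_asymm m hA, EAdj_sc m hsc, EAdj_balanced hm hb, ⟨f, γ, hf, ?_, ?_⟩,
    robber_strategy _ X' hs' hX'⟩
  · intro u v h
    obtain ⟨a1, a2, a3, a4⟩ := g1 u v (hadj u v h)
    exact ⟨a1, a2, a3, a4, fun w s hw => g2 u v w (hadj u v h) s hw⟩
  · intro u v x y h h' hne s t hst
    refine g3 u v x y (hadj u v h) (hadj x y h') ?_ s t hst
    intro he
    apply hne
    have h3 := congrFun he (u, v)
    simpa [Prod.ext_iff] using h3

end CR
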